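import Pool.Agent.Work.MP_b17785_an.LB.Stmts

/-!
# The explicit form of the Lipschitz norm of multipliers of `S`, lower bound: statements II

(E) the function `ℓ = ell lam z`, (R) real analysis: from smooth compactly supported test functions
to `κ ∈ L²` with bounded integrals, (A) every real `A ∈ H^∞ ∩ Dirichlet` gives such a `κ`, final
statement `LBMain`.
-/

set_option autoImplicit false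

open Complex Metric Set Filter Topology MeasureTheory
open Pool.Agent.MultS.Lip
open scoped FourierTransform

namespace Pool.Agent.MultS.LB

/-! ### E: the function `ℓ` -/

/-- [E1] (uses UnivB) PROOF: `G W = (1+W²e^{-2s})^{-1/2}` is holomorphic and injective on `Hp`
(`W²` is injective on `Hp` and not in `(-∞,0]`; `(1+x)^{-1/2}` is injective on the slit plane:
square and invert), `G'(1) = -e^{-2s}(1+e^{-2s})^{-3/2}`.  UnivB: `‖ℓ‖ ≤ 2e^{2s}·2X‖G'(1)‖ =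
4X(1+e^{-2s})^{-3/2} ≤ 4X min 1 e^{3s}`. -/
def EllB : Prop :=
  ∀ (lam : ℕ → ℂ) (X : ℝ), PX lam X → ∀ z ∈ ball (0 : ℂ) 1, ∀ s : ℝ,
    ‖ell lam z s‖ ≤ 4 * X ∧ ‖ell lam z s‖ ≤ 4 * X * Real.exp (3 * s)

/-- [E2] The flow for `κ = 0`.  PROOF: `Drv` is trivial.  `1+W²e^{-2s}` is in the slit plane for
`W ∈ Hp`, so the root `y` is differentiable in `s`, has positive real part, `y² = 1+W²e^{-2s}`,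
`2yy' = -2(y²-1)`, `y' = 1/y - y`. -/
def ZFl : Prop :=
  ∀ S : ℝ, 0 < S → Drv (fun _ => 0) S ∧
    Fl (fun _ => 0) S (fun s W => (1 + W ^ 2 * (Real.exp (-2 * s) : ℂ)) ^ (1 / 2 : ℂ))

/-- [E3] (uses TM, AG, UnivC, ZFl, J2, LinP, UnivB for `0 ≤ X`) PROOF: `S = s+1`, `κ = 0`, `y` the
flow of ZFl, `y₁ = y s 1 = (1+e^{-2s})^{1/2} ∈ [1, √2]`; the function is `y^{-3}`.  TM with
`h Y = (1+Y)^{-3/2}` (`‖h‖ ≤ 3` on its domain), `Y₁ = e^{-2s}`, `d = h'(Y₁)`: `P v = v^{-3} - y₁^{-3} -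
d mo y₁ v` satisfies the first hypothesis of AG with an absolute `B` (for `v ∈ Hp`,
`(v²)^{-3/2} = v^{-3}`), and `‖P v‖‖v‖²/(1+‖v‖)⁶ ≤ C(1+‖v‖)^{-3}(1 + ‖v‖^{-1} + ‖1+v²‖^{-1})`,
`‖v‖^{-1} ≤ 1+‖v‖^{-3/2}`, `‖1+v²‖^{-1} ≤ 2+‖v-i‖^{-3/2}+‖v+i‖^{-3/2}`: J2.  The `mo` part: UnivC. -/
def Ell3 : Prop :=
  ∃ C : ℝ, 0 < C ∧ ∀ (lam : ℕ → ℂ) (X : ℝ), PX lam X → ∀ z ∈ ball (0 : ℂ) 1, ∀ s : ℝ, 0 ≤ s →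
    Real.exp (2 * s) * ‖LL lam (fun ζ => (1 + psi ζ ^ 2 * (Real.exp (-2 * s) : ℂ)) ^
      (-(3 / 2) : ℂ)) z‖ ≤ C * X

/-- [E4] (uses Ker, LinP) The derivative of `ℓ`.  PROOF: by Ker `ℓ s = 2i ∫ k θ f(s,θ) dθ`,
`f = e^{2s}(1+W²e^{-2s})^{-1/2}`, `W = psi (ρe^{iθ})`; `∂_s f = e^{2s}(3(1+W²e^{-2s})^{-1/2} -
(1+W²e^{-2s})^{-3/2})` (as `W²e^{-2s} = (1+W²e^{-2s}) - 1`), jointly continuous; differentiation under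
the integral on compact intervals of `s`. -/
def EllC : Prop :=
  ∀ lam : ℕ → ℂ, Summable (fun n : ℕ => ((n : ℝ) + 1) * ‖lam (n + 1)‖) →
    ∀ z ∈ ball (0 : ℂ) 1, ContDiff ℝ 1 (ell lam z) ∧ ∀ s : ℝ,
      deriv (ell lam z) s = 2 * I * (Real.exp (2 * s) : ℂ) *
        (3 * LL lam (fun ζ => (1 + psi ζ ^ 2 * (Real.exp (-2 * s) : ℂ)) ^ (-(1 / 2) : ℂ)) z -
          LL lam (fun ζ => (1 + psi ζ ^ 2 * (Real.exp (-2 * s) : ℂ)) ^ (-(3 / 2) : ℂ)) z)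

/-! ### R: real analysis -/

/-- [R1] (uses MainI) Linear test functions.  PROOF: `K₁ = K/(4000 B)`, `ψ = arcsin K₁`,
`κ = ψ' = K₁'/√(1-K₁²)`.  `κ` and `-κ` satisfy `Drv · S` (`|K₁|, |K₁'|, |K₁''| ≤ 1/4000`:
`κ' = K₁''/√(1-K₁²) + K₁K₁'²/(1-K₁²)^{3/2}`), `∫_s^S κ = -ψ s` (`ψ S = 0`).  MainI for `κ`, `-κ`:
`‖∫κe^{iψ}ℓ‖, ‖∫(-κ)e^{-iψ}ℓ‖ ≤ CX`, and `κ(e^{iψ}+e^{-iψ}) = 2κ cos ψ = 2K₁'`. -/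
def Hom : Prop :=
  ∃ C : ℝ, 0 < C ∧ ∀ (lam : ℕ → ℂ) (X : ℝ), PX lam X → ∀ z ∈ ball (0 : ℂ) 1,
    ∀ (K : ℝ → ℝ) (S B : ℝ), 0 < S → 0 < B → ContDiff ℝ 2 K →
    (∀ s : ℝ, s ≤ 0 ∨ S ≤ s → K s = 0) → (∀ s : ℝ, |K s| ≤ B) → (∀ s : ℝ, |deriv K s| ≤ B) →
    (∀ s : ℝ, |deriv (deriv K) s| ≤ B) → ∫ s in (0 : ℝ)..S, deriv K s ^ 2 ≤ B ^ 2 →
    ‖∫ s in (0 : ℝ)..S, ((deriv K s : ℝ) : ℂ) * ell lam z s‖ ≤ C * X * B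

/-- The abstract properties of `ℓ`. -/
structure Tst (l : ℝ → ℂ) (X : ℝ) : Prop where
  /-- positive bound -/
  pos : 0 < X
  /-- smooth -/
  c1 : ContDiff ℝ 1 l
  /-- bounded -/
  b0 : ∀ s : ℝ, ‖l s‖ ≤ X
  /-- bounded derivative -/
  b1 : ∀ s : ℝ, 0 ≤ s → ‖deriv l s‖ ≤ X
  /-- test functions -/
  hom : ∀ (K : ℝ → ℝ) (S B : ℝ), 0 < S → 0 < B → ContDiff ℝ 2 K →
    (∀ s : ℝ, s ≤ 0 ∨ S ≤ s → K s = 0) → (∀ s : ℝ, |K s| ≤ B) → (∀ s : ℝ, |deriv K s| ≤ B) →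
    (∀ s : ℝ, |deriv (deriv K) s| ≤ B) → ∫ s in (0 : ℝ)..S, deriv K s ^ 2 ≤ B ^ 2 →
    ‖∫ s in (0 : ℝ)..S, ((deriv K s : ℝ) : ℂ) * l s‖ ≤ X * B

/-- [R2] (uses EllB, Ell3, EllC, Hom) PROOF: collect; `b1` from EllC, EllB (`2e^{2s}‖LL ..‖ = ‖ℓ‖`) and
Ell3. -/
def TstE : Prop :=
  ∃ C : ℝ, 0 < C ∧ ∀ (lam : ℕ → ℂ) (X : ℝ), PX lam X → 0 < X → ∀ z ∈ ball (0 : ℂ) 1,
    Tst (ell lam z) (C * X)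

/-- The average `∫_0^1 ∫_0^1 f(s+x+y)`. -/
noncomputable def avr (f : ℝ → ℝ) (s : ℝ) : ℝ := ∫ x in (0 : ℝ)..1, ∫ y in (0 : ℝ)..1, f (s + x + y)

/-- The adjoint average `∫_0^1 ∫_0^1 l(s-x-y)`. -/
noncomputable def av (l : ℝ → ℂ) (s : ℝ) : ℂ := ∫ x in (0 : ℝ)..1, ∫ y in (0 : ℝ)..1, l (s - x - y)

/-- [R3] Facts on `avr`.  PROOF: `∫_0^1 f(s+y)dy = G(s+1) - G(s)` with a primitive `G` of `f`, and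
once more.  If `|f| ≤ B` the bounds follow from the formulas. -/
def AvrC : Prop :=
  ∀ (f : ℝ → ℝ) (B : ℝ), Continuous f → (∀ s : ℝ, |f s| ≤ B) → ContDiff ℝ 2 (avr f) ∧
    (∀ s : ℝ, deriv (avr f) s = ∫ x in (0 : ℝ)..1, (f (s + x + 1) - f (s + x))) ∧
    (∀ s : ℝ, deriv (deriv (avr f)) s = f (s + 2) - 2 * f (s + 1) + f s) ∧
    (∀ s : ℝ, |avr f s| ≤ B) ∧ (∀ s : ℝ, |deriv (avr f) s| ≤ 2 * B) ∧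
    ∀ s : ℝ, |deriv (deriv (avr f)) s| ≤ 4 * B

/-- [R4] Duality and `L²` bound.  PROOF: Fubini (everything is dominated by `‖l‖_∞ |f(s+x+y)|`,
integrable on `ℝ × [0,1]²`) and translation `s → s-x-y`; Cauchy-Schwarz (Jensen)
`(avr f s)² ≤ ∫∫ f(s+x+y)²` and Fubini. -/
def AvD : Prop :=
  ∀ (f : ℝ → ℝ) (l : ℝ → ℂ) (X : ℝ), Continuous f → Integrable f → Continuous l →
    (∀ s : ℝ, ‖l s‖ ≤ X) → Integrable (avr f) ∧ Continuous (av l) ∧ (∀ s : ℝ, ‖av l s‖ ≤ X) ∧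
    ∫ s : ℝ, (avr f s : ℂ) * l s = ∫ s : ℝ, (f s : ℂ) * av l s ∧
    (Integrable (fun s => f s ^ 2) →
      Integrable (fun s => avr f s ^ 2) ∧ ∫ s : ℝ, avr f s ^ 2 ≤ ∫ s : ℝ, f s ^ 2)

/-- [R5] Cut-off functions.  PROOF: `Real.smoothTransition` is smooth, `0` on `(-∞,0]`, `1` on
`[1,∞)`, with values in `[0,1]`; its derivatives are continuous and vanish outside `[0,1]`, hence
bounded (`IsCompact.exists_bound_of_continuousOn`). -/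
def Cut : Prop :=
  ∃ (τ : ℝ → ℝ) (c : ℝ), 1 ≤ c ∧ ContDiff ℝ 2 τ ∧ (∀ x : ℝ, x ≤ 0 → τ x = 0) ∧
    (∀ x : ℝ, 1 ≤ x → τ x = 1) ∧ (∀ x : ℝ, 0 ≤ τ x ∧ τ x ≤ 1) ∧
    (∀ x : ℝ, |deriv τ x| ≤ c) ∧ (∀ x : ℝ, |deriv (deriv τ) x| ≤ c) ∧
    (∀ x : ℝ, x ≤ 0 ∨ 1 ≤ x → deriv τ x = 0)

/-- [R6] (uses AvrC, AvD, Cut) The high frequency part of `ℓ` is in `L²`.  PROOF: `h = l - av l`; for
`s ≥ 3` `‖h‖ ≤ 2X`, `‖h'‖ ≤ 2X` (`h` is `C¹`: `(av l)' = av l'`).  `θ s = τ(s-3) τ(T+1-s)` (`1` on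
`[4,T]`, support in `[3,T+1]`, `|θ'| ≤ 2c`).  `g = θ Re h`: `C¹`, `|g| ≤ 2X`, `|g'| ≤ (2+4c)X`.
`K s = -∫_s^∞ (g - avr g)`: `K' = g - avr g`, `C²`; `K s = -∫_0^1∫_0^1∫_s^{s+x+y} g`, so `|K| ≤ 4X`,
`K = 0` for `s ≤ 1` and for `s ≥ T+1` (`∫ avr g = ∫ g`); `|K'| ≤ 4X`, `|K''| ≤ (2+4c)X + 4X`
(AvrC); `∫K'² ≤ 2∫g²+2∫(avr g)² ≤ 4∫g² ≤ 4m`, `m = ∫ θ (Re h)²` (`θ² ≤ θ`).  `Tst.hom` with `S = T+2`,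
`B = (6+4c)X + 2√m`: `‖∫K'l‖ ≤ XB`.  By AvD `∫K'l = ∫ g (l - av l) = ∫ g h`, with real part
`∫θ(Re h)² = m`.  So `m ≤ (6+4c)X² + 2X√m ≤ (6+4c)X² + 2X² + m/2`, `m ≤ (16+8c)X²`.  The same with
`Im h` (imaginary part of `∫ g h`), add. -/
def RA1 : Prop :=
  ∃ C : ℝ, 0 < C ∧ ∀ (l : ℝ → ℂ) (X : ℝ), Tst l X → ∀ T : ℝ, 4 ≤ T →
    ∫ s in (4 : ℝ)..T, ‖l s - av l s‖ ^ 2 ≤ C * X ^ 2

/-- [R7] (uses AvrC, AvD, Cut) The smooth part.  `K` is `C¹`, `0` on `s ≤ 5`.  PROOF: `K₂ = avr K`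
(`K₂' = avr K'`: differentiate under the integral), `0` for `s ≤ 3`, `|K₂| ≤ B`, `|K₂'| ≤ 2B`,
`|K₂''| ≤ 4B` (AvrC), `∫K₂'² ≤ ∫K'² ≤ B²` (AvD).  `K_n = τ(n-s) K₂` (`n ≥ 10`): support in `[3,n]`,
bounds `c'B`, `Tst.hom`: `‖∫K_n' l‖ ≤ c'XB`, `K_n' = τ(n-s)K₂' - τ'(n-s)K₂`; the second part
contributes at most `cBX` (length `1`), the first tends to `∫ K₂' l` (dominated convergence,
`K₂' = avr K'` integrable). -/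
def RA2 : Prop :=
  ∃ C : ℝ, 0 < C ∧ ∀ (l : ℝ → ℂ) (X : ℝ), Tst l X → ∀ (K : ℝ → ℝ) (B : ℝ), 0 < B →
    ContDiff ℝ 1 K → (∀ s : ℝ, s ≤ 5 → K s = 0) → (∀ s : ℝ, |K s| ≤ B) → Integrable (deriv K) →
    Integrable (fun s => deriv K s ^ 2) → ∫ s : ℝ, deriv K s ^ 2 ≤ B ^ 2 →
    ‖∫ s : ℝ, (avr (deriv K) s : ℂ) * l s‖ ≤ C * X * B

/-- [R8] (uses RA1, RA2, AvD, Cut) The general estimate.  PROOF: `K s = -∫_s^∞ κ` (`K' = κ`, `|K| ≤ B`),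
`K₊ s = τ(s-5) K s`, `κ₊ = K₊' = τ(s-5)κ + τ'(s-5)K`: continuous, `0` for `s ≤ 5`, equal to `κ` for
`s ≥ 6`, integrable, `∫κ₊² ≤ (2+2c²)B²`, `|K₊| ≤ B`.  `∫_0^∞ κl = ∫κ₊l + ∫_0^6 (κ-κ₊)l`, the last
`≤ X∫_0^6(|κ|+|κ₊|) ≤ X√6(‖κ‖₂+‖κ₊‖₂)`.  `∫κ₊l = ∫κ₊(l - av l) + ∫ avr κ₊ l` (AvD); the first
`≤ ‖κ₊‖₂ (∫_5^∞‖l-av l‖²)^{1/2} ≤ CXB` (RA1, all `T`), the second RA2. -/
def RA3 : Prop :=
  ∃ C : ℝ, 0 < C ∧ ∀ (l : ℝ → ℂ) (X : ℝ), Tst l X → ∀ (κ : ℝ → ℝ) (B : ℝ), 0 < B →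
    Continuous κ → Integrable κ → Integrable (fun s => κ s ^ 2) →
    (∀ s : ℝ, |∫ x in Ioi s, κ x| ≤ B) → ∫ s : ℝ, κ s ^ 2 ≤ B ^ 2 →
    ‖∫ s in Ioi (0 : ℝ), (κ s : ℂ) * l s‖ ≤ C * X * B

/-! ### A: from `A` to `κ` -/

/-- Real functions `A`, holomorphic in a neighbourhood of the closed disk, bounded by `1`. -/
structure RealA (A : ℂ → ℂ) (ρ : ℝ) : Prop where
  /-- the disk is larger -/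
  rho : 1 < ρ
  /-- holomorphic -/
  dif : DifferentiableOn ℂ A (ball 0 ρ)
  /-- real -/
  sym : ∀ z ∈ ball (0 : ℂ) ρ, A ((starRingEnd ℂ) z) = (starRingEnd ℂ) (A z)
  /-- bounded -/
  bd : ∀ z : ℂ, ‖z‖ ≤ 1 → ‖A z‖ ≤ 1

/-- `C¹` functions on the line with exponential decay. -/
def Dec (v : ℝ → ℝ) (c : ℝ) : Prop :=
  ContDiff ℝ 1 v ∧ ∀ σ : ℝ, |v σ| ≤ c * Real.exp (-|σ|) ∧ |deriv v σ| ≤ c * Real.exp (-|σ|)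

/-- The derivative of `A (phi (e^Ψ))`. -/
noncomputable def fA (A : ℂ → ℂ) (w : ℂ) : ℂ :=
  deriv A (phi (Complex.exp w)) * (2 * Complex.exp w / (Complex.exp w + 1) ^ 2)

/-- [A1] The boundary function.  PROOF: `phi (ie^σ)` has modulus `1`; `A` and `A'` are bounded on the
closed disk, `A(±1)` is real.  `|phi(ie^σ) - 1| = 2/|ie^σ+1| ≤ 2e^{-σ}`, `|phi(ie^σ)+1| ≤ 2e^σ`, `A` is
Lipschitz on the closed disk: `|v| ≤ c e^{-|σ|}`.  `v' = Im (A'(phi(ie^σ)) · 2ie^σ/(ie^σ+1)²) = Im fA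
(σ+iπ/2)` (`phi' = 2/(w+1)²`), `|ie^σ+1|² = 1+e^{2σ} ≥ e^{σ+|σ|}`. -/
def VV : Prop :=
  ∀ (A : ℂ → ℂ) (ρ : ℝ), RealA A ρ → ∃ c : ℝ, Dec (vv A) c ∧ (∀ σ : ℝ, |vv A σ| ≤ 1) ∧
    ∀ σ : ℝ, deriv (vv A) σ = (fA A ((σ : ℂ) + (Real.pi / 2 : ℝ) * I)).im

/-- [A2] (uses VV) `A - A(1)` in terms of `v`.  PROOF: put `ζ = phi(iτ)` on the circle, `τ ∈ ℝ`,
`g(W) = A(phi W) - A 1`.  (i) on the circle: for `|z| < 1`, by Cauchy, `A z = (2πi)^{-1}∮ A(ζ)/(ζ-z) dζ`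
and `0 = ∮ A(ζ) z/(1-zζ) dζ`, so `A z = (2π)^{-1}∫_{-π}^{π} A(e^{iθ})[e^{iθ}/(e^{iθ}-z) -
ze^{iθ}/(1-ze^{iθ})]dθ`, and the bracket is `1 - 2i z sin θ/(1-2z cos θ+z²)`.  By symmetry
(`A(e^{-iθ})` is the conjugate, `sin` odd) `A z - A 0 = (2/π)∫_0^π Im A(e^{iθ}) z sin θ/(1-2z cos θ+z²)
dθ` (the constant part is the mean value).  (ii) substitute `w = cot(θ/2) = e^σ`, `e^{iθ} = phi(iw)`,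
`dθ = -2dw/(1+w²)`, `z = phi W`: `z sin θ/(1-2z cos θ+z²) = (W²-1)w/(2(W²+w²))`.  So `A(phi W) - A 0 =
(2/π)∫_0^∞ v (W²-1)w/((W²+w²)(1+w²))dw`.  (iii) let `W → +∞` real (`A(phi W) → A 1`; dominated, `|v| ≤
c/w`): `A 1 - A 0 = (2/π)∫ v w/(1+w²)dw`, subtract.  Other proof: Cauchy's formula for `g` in the half
plane (`g(W) = O(1/|W|)`): `g(W₀) = (i/π)∫_ℝ g(iτ)τ/(τ²+W₀²)dτ` and `g(-iτ) = conj g(iτ)`. -/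
def Herg : Prop :=
  ∀ (A : ℂ → ℂ) (ρ : ℝ), RealA A ρ → ∀ W ∈ Hp,
    A (phi W) - A 1 = -(2 / Real.pi : ℝ) *
      ∫ σ : ℝ, (vv A σ : ℂ) * ((Real.exp (2 * σ) : ℂ) / ((Real.exp (2 * σ) : ℂ) + W ^ 2))

/-- [A3] A closed form.  PROOF: for `τ ∈ [0,1]` put `F(τ) = ∫_0^∞ (1-e^{-2t})^{-1/2}((1+τce^{-2t})^{-1/2}
- 1)dt` (integrand `≤ C e^{-2t}(1-e^{-2t})^{-1/2}`, uniformly in `τ`, as `1+τce^{-2t}` stays in a compact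
part of the slit plane).  `F'(τ) = -(c/2)∫_0^∞ (1-e^{-2t})^{-1/2}e^{-2t}(1+τce^{-2t})^{-3/2}dt`, and with
`x = e^{-t}` the primitive is explicit: `d/dt [(1-e^{-2t})^{1/2}(1+c'e^{-2t})^{-1/2}] =
(1+c')e^{-2t}(1-e^{-2t})^{-1/2}(1+c'e^{-2t})^{-3/2}`, so the integral is `1/(1+c')`, `c' = τc`, and
`F'(τ) = -(c/2)/(1+τc)`: `F(1) = -(1/2) log(1+c)`. -/
def PhiC : Prop :=
  ∀ c : ℂ, c ∈ slitPlane →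
    IntegrableOn (fun t : ℝ => ((Real.sqrt (1 - Real.exp (-2 * t)))⁻¹ : ℂ) *
      ((1 + c * (Real.exp (-2 * t) : ℂ)) ^ (-(1 / 2) : ℂ) - 1)) (Ioi 0) ∧
    ∫ t in Ioi (0 : ℝ), ((Real.sqrt (1 - Real.exp (-2 * t)))⁻¹ : ℂ) *
      ((1 + c * (Real.exp (-2 * t) : ℂ)) ^ (-(1 / 2) : ℂ) - 1) = -(1 / 2) * Complex.log (1 + c)

/-- [A4] A uniform bound.  PROOF: `W = psi ζ`, `Re W ≥ δ > 0`, `|W| ≤ m` for `‖ζ‖ ≤ r` (compactness).  If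
`e^s ≥ 2m`, `x = W²e^{-2s}`, `|x| ≤ 1/4`, `|(1+x)^{-1/2}-1| ≤ C|x|`, product `≤ Cm²`.  Otherwise
`|1+x| = e^{-2s}|W+ie^s||W-ie^s| ≥ e^{-2s}δ²`, `|1+x|^{-1/2} ≤ e^s/δ`. -/
def EBd : Prop :=
  ∀ r : ℝ, 0 < r → r < 1 → ∃ C : ℝ, ∀ ζ : ℂ, ‖ζ‖ ≤ r → ∀ s : ℝ,
    ‖(Real.exp (2 * s) : ℂ) *
      ((1 + psi ζ ^ 2 * (Real.exp (-2 * s) : ℂ)) ^ (-(1 / 2) : ℂ) - 1)‖ ≤ C

/-- [A5] The kernel `q`.  PROOF: `q ≥ 0`, `∫ q = [√(1-e^{-2t})]_0^∞ = 1`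
(`integrableOn_Ioi_deriv_of_nonneg`, `integral_Ioi_of_hasDerivAt_of_nonneg`).  `q` is decreasing on
`(0,∞)`, `q(t) ≤ t^{-1/2}` (`1-e^{-2t} ≥ 2t/(1+2t)`, `e^{-2t}(1+2t)^{1/2} ≤ 1`).  For `|ξ| ≥ 1` put
`a = 1/|ξ|`: `|∫_0^a q e^{-2πiξt}| ≤ 2a^{1/2}`, and by parts (`q' ≤ 0`)
`|∫_a^∞ q e^{-2πiξt}| ≤ (2π|ξ|)^{-1}·2q(a) ≤ a^{1/2}`; for `|ξ| ≤ 1` use `|𝓕 q| ≤ ∫q = 1`.  So
`‖𝓕 q ξ‖² ≤ 18/(1+|ξ|)`. -/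
def QQ : Prop :=
  Integrable qq ∧ ∫ t : ℝ, qq t = 1 ∧ (∀ t : ℝ, 0 ≤ qq t) ∧
    ∀ ξ : ℝ, ‖𝓕 (fun t : ℝ => (qq t : ℂ)) ξ‖ ^ 2 ≤ 18 / (1 + |ξ|)

/-- [A6] (uses PhiC, QQ, EBd) The kernel identity.  PROOF: `E(s) = e^{2s}((1+W²e^{-2s})^{-1/2}-1)` is bounded
(EBd with `ζ = phi W`) and continuous.  `u = 2v + v'`, `u = e^{-2σ}(e^{2σ}v)'`.  By Fubini
(`∫∫|u(s-t)| q(t)|E(s)| < ∞`) and `s = σ+t`: left side `= (2/π)∫_σ u(σ)∫_{t>0} q(t)E(σ+t)dt dσ`, and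
`q(t)E(σ+t) = e^{2σ}(1-e^{-2t})^{-1/2}((1+W²e^{-2σ}e^{-2t})^{-1/2}-1)`, so by PhiC with `c = W²e^{-2σ}`
the inner integral is `-(1/2)e^{2σ}log(1+W²e^{-2σ})`.  Left side `= -(1/π)∫(e^{2σ}v)'log(1+W²e^{-2σ})dσ`;
by parts (boundary terms `→ 0`) `= (1/π)∫e^{2σ}v(-2W²e^{-2σ})/(1+W²e^{-2σ})dσ`.  Continuity and
integrability of `kap v`: dominated convergence, Fubini. -/
def Rep : Prop :=
  ∀ (v : ℝ → ℝ) (c : ℝ), Dec v c → Continuous (kap v) ∧ Integrable (kap v) ∧ ∀ W ∈ Hp,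
    ∫ s : ℝ, 2 * (kap v s : ℂ) * ((Real.exp (2 * s) : ℂ) *
      ((1 + W ^ 2 * (Real.exp (-2 * s) : ℂ)) ^ (-(1 / 2) : ℂ) - 1)) =
    -(2 / Real.pi : ℝ) * W ^ 2 *
      ∫ σ : ℝ, (v σ : ℂ) * ((Real.exp (2 * σ) : ℂ) / ((Real.exp (2 * σ) : ℂ) + W ^ 2))

/-- [A7] (uses VV) Integrals of `v`.  PROOF: `B(Ψ) = A(phi(e^Ψ))` is holomorphic and `|B| ≤ 1` on the
closed strip `0 ≤ Im Ψ ≤ π/2` (holomorphic in a neighbourhood), real on the real axis.  Cauchy on the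
rectangle `[τ,T] × [0,π/2]` (`Complex.integral_boundary_rect_eq_zero_of_differentiableOn`):
`∫_τ^T B(σ+iπ/2)dσ - ∫_τ^T B(σ)dσ` is the difference of two vertical integrals, each `≤ π/2`; take
imaginary parts (`v = Im B(σ+iπ/2)`), `T → ∞` (`v` integrable). -/
def KV : Prop :=
  ∀ (A : ℂ → ℂ) (ρ : ℝ), RealA A ρ → ∀ τ : ℝ, |∫ σ in Ioi τ, vv A σ| ≤ Real.pi

/-- [A8] (uses QQ) Integrals of `κ`.  PROOF: `∫_s^∞ (2v+v')(x-t)dx = 2∫_{s-t}^∞ v - v(s-t)`; Fubini: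
`|∫_s^∞ kap v| ≤ π^{-1}∫ q(t)(2π+1)dt = (2π+1)/π ≤ 3`. -/
def KapI : Prop :=
  ∀ (v : ℝ → ℝ) (c : ℝ), Dec v c → (∀ σ : ℝ, |v σ| ≤ 1) →
    (∀ τ : ℝ, |∫ σ in Ioi τ, v σ| ≤ Real.pi) → ∀ s : ℝ, |∫ x in Ioi s, kap v x| ≤ 3

/-- [A9] Plancherel for integrable square integrable functions.  PROOF: Mathlib has the `L²` Fourier
transform (`MeasureTheory.Lp.fourierTransformₗᵢ`, `MeasureTheory.Lp.norm_fourier_eq`, file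
`Mathlib/Analysis/Fourier/LpSpace.lean`), and `MeasureTheory.Lp.fourier_toTemperedDistribution_eq`.  For
`f ∈ L¹ ∩ L²` the function `𝓕 f` is bounded and continuous, and both `𝓕 f` and the `L²` transform `g` of
`f` satisfy `∫ g φ = ∫ f 𝓕φ` for Schwartz `φ` (`VectorFourier.integral_fourierIntegral_smul_eq_flip` or
`Real.integral_fourier_mul_eq`-type lemmas), so they agree a.e.
(`ae_eq_of_integral_contDiff_smul_eq`-type lemma).  Alternative: approximate `f` in `L¹` and `L²`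
simultaneously by Schwartz functions (`SchwartzMap.integral_norm_sq_fourier`-type lemma), uniform
convergence of `𝓕` identifies the limit. -/
def Planch : Prop :=
  ∀ f : ℝ → ℂ, Integrable f → MemLp f 2 →
    MemLp (fun ξ : ℝ => 𝓕 f ξ) 2 ∧ ∫ ξ : ℝ, ‖𝓕 f ξ‖ ^ 2 = ∫ x : ℝ, ‖f x‖ ^ 2

/-- [A10] Shift of the line of integration.  PROOF: rectangle `[-N,N] × [0,ψ]` (or `[ψ,0]`) for
`w ↦ f w e^{-2πiξw}`, the vertical sides tend to `0`;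
`∫ f(x+iψ)e^{-2πiξx}dx = e^{-2πξψ}∫ f(x+iψ)e^{-2πiξ(x+iψ)}dx`. -/
def Shift : Prop :=
  ∀ (f : ℂ → ℂ) (b c : ℝ), Real.pi / 2 < b → DifferentiableOn ℂ f {w : ℂ | |w.im| < b} →
    (∀ w : ℂ, |w.im| ≤ Real.pi / 2 → ‖f w‖ ≤ c * Real.exp (-|w.re|)) →
    ∀ ψ : ℝ, |ψ| ≤ Real.pi / 2 → ∀ ξ : ℝ,
      𝓕 (fun x : ℝ => f ((x : ℂ) + (ψ : ℂ) * I)) ξ =
        (Real.exp (-(2 * Real.pi * ξ * ψ)) : ℂ) * 𝓕 (fun x : ℝ => f (x : ℂ)) ξ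

/-- [A11] (uses Planch, Shift) PROOF: `β = 𝓕(f(·))`.  `𝓕 g = β (e^{-π²ξ} - e^{π²ξ})/(2i)`, so `‖𝓕 g‖² =
‖β‖² sinh²(π²ξ)`.  By Planch and Shift `∫‖f(x+iψ)‖²dx = ∫e^{-4πξψ}‖β ξ‖²dξ`; integrate over `ψ ∈
(-π/2,π/2)` (Tonelli): `∫‖β‖² m(ξ)dξ`, `m(ξ) = ∫_{-π/2}^{π/2}e^{-4πξψ}dψ = sinh(2π²ξ)/(2πξ) =
sinh(π²ξ)cosh(π²ξ)/(πξ) ≥ sinh²(π²ξ)/(π(1+|ξ|))`. -/
def Strip2 : Prop :=
  ∀ (f : ℂ → ℂ) (b c : ℝ), Real.pi / 2 < b → DifferentiableOn ℂ f {w : ℂ | |w.im| < b} →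
    (∀ w : ℂ, |w.im| ≤ Real.pi / 2 → ‖f w‖ ≤ c * Real.exp (-|w.re|)) →
    ∫⁻ ξ : ℝ, ENNReal.ofReal (‖𝓕 (fun x : ℝ => (f ((x : ℂ) + (Real.pi / 2 : ℝ) * I) -
        f ((x : ℂ) - (Real.pi / 2 : ℝ) * I)) / (2 * I)) ξ‖ ^ 2 / (1 + |ξ|)) ≤
      ENNReal.ofReal Real.pi * ∫⁻ ψ in Ioo (-(Real.pi / 2)) (Real.pi / 2), ∫⁻ x : ℝ,
        ENNReal.ofReal (‖f ((x : ℂ) + (ψ : ℂ) * I)‖ ^ 2)

/-- [A12] (uses Planch, QQ, Rep) PROOF: `kap v = π^{-1} (2v+v') * q` (convolution), `𝓕(kap v) =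
π^{-1}(2𝓕v + 𝓕v')𝓕q` (`Real.fourier_convolution`-type lemma, or Fubini directly).  `kap v` is bounded
(`‖2v+v'‖_∞ ∫q`) and integrable (Rep), so in `L²`.  Planch: `∫(kap v)² = ∫‖𝓕 kap‖² ≤ 2π^{-2}∫(4‖𝓕v‖² +
‖𝓕v'‖²)·18/(1+|ξ|)`, and `∫‖𝓕v‖²/(1+|ξ|) ≤ ∫‖𝓕v‖² = ∫v²`. -/
def KapL2 : Prop :=
  ∃ C : ℝ, 0 < C ∧ ∀ (v : ℝ → ℝ) (c : ℝ), Dec v c → Integrable (fun s => kap v s ^ 2) ∧
    ENNReal.ofReal (∫ s : ℝ, kap v s ^ 2) ≤ ENNReal.ofReal C *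
      (ENNReal.ofReal (∫ σ : ℝ, v σ ^ 2) +
        ∫⁻ ξ : ℝ, ENNReal.ofReal (‖𝓕 (fun x : ℝ => ((deriv v x : ℝ) : ℂ)) ξ‖ ^ 2 / (1 + |ξ|)))

/-- [A13] The function `fA`.  PROOF: `phi(e^w)` maps the open strip `|Im w| < π/2` injectively into the
disk (`e^w ∈ Hp`, `prfCay`), with derivative `2e^w/(e^w+1)²`, and `|phi(e^w)| < ρ` for `|Im w| < b`, `b`
slightly larger than `π/2` (`|phi(e^w)|² = 1 - 4Re e^w/|e^w+1|²` and `|e^w+1|² ≥ ...`: for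
`Im w = ±(π/2+δ)`, `Re e^w ≥ -sin δ |e^w|`, `|e^w+1|² = 1+2Re e^w+|e^w|² ≥ (1-sin δ)(1+|e^w|²) ≥
2(1-sin δ)|e^w|`, so `|phi|² ≤ 1+2 sin δ/(1-sin δ)`).  Decay: `A'` bounded, `|e^w+1|² ≥ (1-sin δ)(1+
|e^w|²)`.  Integral: change of variables `UB.Chg` (`UB/Chg.lean`) and Fubini (`UB.FubB`, `UB.Fub` style,
horizontal lines inside: `Complex.volume_preserving_equiv_real_prod`, `lintegral_prod_symm`).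
Conjugation: `A'(conj z) = conj A'(z)`. -/
def FA : Prop :=
  ∀ (A : ℂ → ℂ) (ρ : ℝ), RealA A ρ →
    (∃ b c : ℝ, Real.pi / 2 < b ∧ DifferentiableOn ℂ (fA A) {w : ℂ | |w.im| < b} ∧
      ∀ w : ℂ, |w.im| ≤ Real.pi / 2 → ‖fA A w‖ ≤ c * Real.exp (-|w.re|)) ∧
    (∀ w : ℂ, |w.im| ≤ Real.pi / 2 → fA A ((starRingEnd ℂ) w) = (starRingEnd ℂ) (fA A w)) ∧
    ∫⁻ ψ in Ioo (-(Real.pi / 2)) (Real.pi / 2), ∫⁻ x : ℝ,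
        ENNReal.ofReal (‖fA A ((x : ℂ) + (ψ : ℂ) * I)‖ ^ 2) ≤
      ∫⁻ z in ball (0 : ℂ) 1, ENNReal.ofReal (‖deriv A z‖ ^ 2)

/-- [A14] (uses FA, VV) PROOF: `B(Ψ) = A(phi(e^Ψ))`, `B' = fA A` (in a neighbourhood of the closed strip),
`B` real on the real axis: `v σ = Im (B(σ+iπ/2) - B(σ)) = Im ∫_0^{π/2} i fA(σ+iψ)dψ`, so by
Cauchy-Schwarz `v² ≤ (π/2)∫_0^{π/2}‖fA(σ+iψ)‖²dψ`; integrate over `σ` (Tonelli), enlarge the domain. -/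
def VL2 : Prop :=
  ∀ (A : ℂ → ℂ) (ρ : ℝ), RealA A ρ →
    ENNReal.ofReal (∫ σ : ℝ, vv A σ ^ 2) ≤ ENNReal.ofReal (Real.pi / 2) *
      ∫⁻ z in ball (0 : ℂ) 1, ENNReal.ofReal (‖deriv A z‖ ^ 2)

/-- [A15] (uses VV, Strip2, KapL2, FA, VL2) PROOF: `v' = Im fA(σ+iπ/2) = (fA(σ+iπ/2)-fA(σ-iπ/2))/(2i)` (VV,
FA conjugation).  Strip2 with `f = fA A`, KapL2, FA, VL2: `∫(kap v)² ≤ C(π²/2 + π²)`. -/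
def KapA : Prop :=
  ∃ C : ℝ, 0 < C ∧ ∀ (A : ℂ → ℂ) (ρ : ℝ), RealA A ρ →
    ∫⁻ z in ball (0 : ℂ) 1, ENNReal.ofReal (‖deriv A z‖ ^ 2) ≤ ENNReal.ofReal Real.pi →
    Integrable (fun s => kap (vv A) s ^ 2) ∧ ∫ s : ℝ, kap (vv A) s ^ 2 ≤ C

/-- [A16] (uses Ker, LinP, VV, Herg, Rep, EBd) The representation.  PROOF: for `ζ` in the disk, `W = psi ζ`
(`phi W = ζ`), by Herg and Rep (`v = vv A`) `psi ζ²(A ζ - A 1) = ∫ 2 kap(s) e^{2s}((1+W²e^{-2s})^{-1/2}-1)ds`.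
Apply Ker and Fubini (`‖·‖ ≤ 2C|kap s|` on the circle, EBd; `kap` integrable): `L(left) = ∫ 2kap(s)
e^{2s}L((1+psi²e^{-2s})^{-1/2} - 1)ds`, `L(const) = 0`, and `2e^{2s}L(..) = -i ℓ(s)`. -/
def LRep : Prop :=
  ∀ (lam : ℕ → ℂ) (X : ℝ), PX lam X → ∀ z ∈ ball (0 : ℂ) 1, ∀ (A : ℂ → ℂ) (ρ : ℝ), RealA A ρ →
    Integrable (fun s : ℝ => (kap (vv A) s : ℂ) * ell lam z s) ∧
    LL lam (fun ζ => psi ζ ^ 2 * (A ζ - A 1)) z = -I * ∫ s : ℝ, (kap (vv A) s : ℂ) * ell lam z s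

/-- [A17] (uses LRep, TstE, RA3, KapA, KapI, KV, VV, Rep, EllB, UnivB, AreaP, LinP) PROOF: `koe =
(psi²-1)/4`, so `koe A = (1/4)(psi²(A - A 1) + A 1 psi² - A)`.  `‖L(A)‖ ≤ (2X/π)π` (AreaP, `‖A‖ ≤ 1`),
`‖L(psi²)‖ ≤ 4X` (UnivB, `G = W²`).  LRep: `∫_ℝ = ∫_{Ioi 0} + ∫_{Iic 0}`; the second is
`≤ 4X∫_{s<0}|kap|e^{3s} ≤ 4X(∫kap²)^{1/2}` (EllB, Cauchy-Schwarz), the first RA3 with
`B = 3 + √C` (KapA, KapI, KV). -/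
def LBR : Prop :=
  ∃ C : ℝ, 0 < C ∧ ∀ (lam : ℕ → ℂ) (X : ℝ), PX lam X → 0 < X → ∀ z ∈ ball (0 : ℂ) 1,
    ∀ (A : ℂ → ℂ) (ρ : ℝ), RealA A ρ →
    ∫⁻ z in ball (0 : ℂ) 1, ENNReal.ofReal (‖deriv A z‖ ^ 2) ≤ ENNReal.ofReal Real.pi →
    ‖LL lam (fun ζ => koe ζ * A ζ) z‖ ≤ C * X

/-- [A18] (uses LBR, Ker, LinP, UnivB) The main result of the block.  PROOF: for `0 < r < 1` let `A_r z =
A(rz)`, `B z = conj (A_r (conj z))`, `A₁ = (A_r+B)/2`, `A₂ = (A_r-B)/(2i)`: `RealA A_j r⁻¹`, and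
`∫_D ‖A_j'‖² ≤ ∫_D (‖A_r'‖²+‖B'‖²)/2 = ∫_D‖A_r'‖² = ∫_{rD}‖A'‖² ≤ π` (the disk is invariant under
conjugation, `Complex.conj` preserves the measure; scaling `z ↦ rz`, e.g. `UB.Chg`).  So
`‖L(koe A_r)‖ ≤ 2CX` if `X > 0`; if `X = 0` use `PX lam δ` for all `δ > 0`.  As `r → 1`, `koe A_r → koe A`
uniformly on the circle of Ker. -/
def LBMain : Prop :=
  ∃ C : ℝ, 0 < C ∧ ∀ (lam : ℕ → ℂ) (X : ℝ), PX lam X → CX lam (C * X)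

end Pool.Agent.MultS.LB
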