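import Pool.Agent.Work.MP_b17785_an.LB.Defs

/-!
# The explicit form of the Lipschitz norm of multipliers of `S`, lower bound: statements I

MAIN RESULT OF THE BLOCK (`LBMain`, file Stmts2): `PX lam X → CX lam (C X)`, `C` absolute.

NOTATION. `W = psi ζ` (half plane variable), `Z = W²`, `R = e^s`, `L = LL lam · z` (`z` fixed in
the disk).  `y = y_s(W)` the Loewner flow, `ν = y - iκ`, `X = R²(y²-1)`, `a = 1 + |W|/R`,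
`ε = 1/1000` (so `|κ|, |κ'| ≤ ε`), `μ = κ + κ'`.

PLAN.  (F) the flow is univalent in `W` and close to `(1+Z/R²)^{1/2}`.  (K) costs: `L` of a
univalent function is at most `X` times its derivative at `0`; `L(h)` is at most `3X` times a
weighted area integral.  (I) an exact identity for `X_S - Z` gives
`|∫ κ e^{iψ} ℓ ds| ≤ C X` with `ψ' = κ`, `ℓ = ell lam z`.  (R) real analysis: the same for all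
`κ ∈ L²` with bounded integrals.  (A) every real `A ∈ H^∞ ∩ Dirichlet` is such a superposition.

Every item is a `def P : Prop`; prove `theorem prfP : P` in the file `LB/P.lean`.  If the
docstring says (uses P, Q) take `(hP : P) (hQ : Q)` as hypotheses of the theorem.
-/

set_option autoImplicit false

open Complex Metric Set Filter Topology MeasureTheory
open Pool.Agent.MultS.Lip

namespace Pool.Agent.MultS.LB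

/-! ### L: the functional `L h = LL lam h z` -/

/-- [L1] `L` is integration against a continuous kernel on a circle.  PROOF: `ρ = (1+‖z‖)/2`,
`k θ = (2π)⁻¹ ∑' n, (n+1) lam (n+1) z^n (circleMap 0 ρ θ)^{-(n+1)}`; the terms are at most
`(n+1)‖lam (n+1)‖ (‖z‖/ρ)^n/ρ ≤ (n+1)‖lam (n+1)‖/ρ`, so `k` is continuous (`continuous_tsum`).
`tc h (n+1) = (2π)⁻¹ ∫ (circleMap 0 ρ θ)^{-(n+1)} h (circleMap 0 ρ θ) dθ` (Cauchy's formula for the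
Taylor coefficients of a function holomorphic in the disk; see the lemmas in `Lip/Orth.lean`,
`Lip/Hol.lean`), and sum and integral commute
(`intervalIntegral.hasSum_integral_of_summable_norm`, `h` is bounded on the circle). -/
def Ker : Prop :=
  ∀ lam : ℕ → ℂ, Summable (fun n : ℕ => ((n : ℝ) + 1) * ‖lam (n + 1)‖) →
    ∀ z ∈ ball (0 : ℂ) 1, ∃ (ρ : ℝ) (k : ℝ → ℂ), 0 < ρ ∧ ρ < 1 ∧ Continuous k ∧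
      ∀ h : ℂ → ℂ, DifferentiableOn ℂ h (ball 0 1) →
        LL lam h z = ∫ θ in (0 : ℝ)..(2 * Real.pi), k θ * h (circleMap 0 ρ θ)

/-- [L2] (uses Ker) `L` is linear and kills constants.  PROOF: linearity from Ker; `L(c) = 0`
because `tc (fun _ => c) (n+1) = 0` (`iteratedDeriv_const`-type; or `tc_of_hasSum`, file
`Tc.lean`).  Second part: `EqOn` on the circle. -/
def LinP : Prop :=
  ∀ lam : ℕ → ℂ, Summable (fun n : ℕ => ((n : ℝ) + 1) * ‖lam (n + 1)‖) →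
    ∀ z ∈ ball (0 : ℂ) 1,
    (∀ (h₁ h₂ : ℂ → ℂ) (a b c : ℂ), DifferentiableOn ℂ h₁ (ball 0 1) →
      DifferentiableOn ℂ h₂ (ball 0 1) →
      LL lam (fun ζ => a * h₁ ζ + b * h₂ ζ + c) z = a * LL lam h₁ z + b * LL lam h₂ z) ∧
    (∀ h₁ h₂ : ℂ → ℂ, DifferentiableOn ℂ h₁ (ball 0 1) → EqOn h₁ h₂ (ball 0 1) →
      LL lam h₁ z = LL lam h₂ z)

/-- [L3] (uses Ker) `L` commutes with integrals over intervals.  PROOF: (1) holomorphy of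
`∫ h s ζ ds`: differentiation under the integral (`hasDerivAt_integral_of_dominated_loc_of_deriv_le`
with Cauchy estimates of `h s` on a small closed disk, `h` bounded on compact sets), or Morera /
`DifferentiableOn.circleIntegral`-type; see `Lip/Hol.lean` for a similar argument.  (2) By Ker
`L (h s) = ∫ k θ h s (ρe^{iθ}) dθ`: continuous in `s` (`intervalIntegral` of a jointly continuous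
function on `[a,b] × [0,2π]`).  (3) Fubini for continuous functions on `[a,b] × [0,2π]`
(`intervalIntegral_integral_swap` / `MeasureTheory.integral_integral_swap`). -/
def Swap : Prop :=
  ∀ lam : ℕ → ℂ, Summable (fun n : ℕ => ((n : ℝ) + 1) * ‖lam (n + 1)‖) →
    ∀ z ∈ ball (0 : ℂ) 1, ∀ a b : ℝ, a ≤ b → ∀ h : ℝ → ℂ → ℂ,
    ContinuousOn (fun p : ℝ × ℂ => h p.1 p.2) (Icc a b ×ˢ ball (0 : ℂ) 1) →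
    (∀ s ∈ Icc a b, DifferentiableOn ℂ (h s) (ball 0 1)) →
    DifferentiableOn ℂ (fun ζ => ∫ s in a..b, h s ζ) (ball 0 1) ∧
    ContinuousOn (fun s => LL lam (h s) z) (Icc a b) ∧
    LL lam (fun ζ => ∫ s in a..b, h s ζ) z = ∫ s in a..b, LL lam (h s) z

/-- [L4] (uses Swap) The same for a triangle.  PROOF: `h₂ s' ζ = ∫ s in 0..s', h s s' ζ` is
jointly continuous on `[0,S] × ball` (e.g. substitute `s = s' x`: `h₂ s' ζ = s' ∫_0^1 h (s'x) s' ζ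
dx`, and use continuity of integrals depending on a parameter on compact subsets; the functions
may be extended from the compact set `[0,S]`) and holomorphic in `ζ` (Swap with `[0,s']`).  Apply
Swap to `h₂` on `[0,S]` and, for every `s'`, Swap to `h · s'` on `[0,s']`. -/
def Swap2 : Prop :=
  ∀ lam : ℕ → ℂ, Summable (fun n : ℕ => ((n : ℝ) + 1) * ‖lam (n + 1)‖) →
    ∀ z ∈ ball (0 : ℂ) 1, ∀ S : ℝ, 0 ≤ S → ∀ h : ℝ → ℝ → ℂ → ℂ,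
    ContinuousOn (fun p : ℝ × ℝ × ℂ => h p.1 p.2.1 p.2.2)
      (Icc 0 S ×ˢ (Icc 0 S ×ˢ ball (0 : ℂ) 1)) →
    (∀ s ∈ Icc (0 : ℝ) S, ∀ s' ∈ Icc (0 : ℝ) S, DifferentiableOn ℂ (h s s') (ball 0 1)) →
    DifferentiableOn ℂ (fun ζ => ∫ s' in (0 : ℝ)..S, ∫ s in (0 : ℝ)..s', h s s' ζ) (ball 0 1) ∧
    LL lam (fun ζ => ∫ s' in (0 : ℝ)..S, ∫ s in (0 : ℝ)..s', h s s' ζ) z =
      ∫ s' in (0 : ℝ)..S, ∫ s in (0 : ℝ)..s', LL lam (h s s') z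

/-- [L5] (uses LinP) `L` of univalent functions.  PROOF: `h'(0) ≠ 0` (`prfDerNe`, file `A1.lean`);
`(h - h 0)/h'(0) ∈ S`, so `‖L h‖ = ‖h'(0)‖ ‖L ((h - h 0)/h'(0))‖ ≤ X ‖h'(0)‖`.  Second part:
`h = G ∘ psi`, `psi` maps the disk injectively onto `Hp` (`prfCay`, file `Lip/Cay.lean`),
`psi 0 = 1`, `psi'(0) = 2`.  `0 ≤ X`: apply `bx` to `id`. -/
def UnivB : Prop :=
  ∀ (lam : ℕ → ℂ) (X : ℝ), PX lam X → ∀ z ∈ ball (0 : ℂ) 1, 0 ≤ X ∧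
    (∀ h : ℂ → ℂ, DifferentiableOn ℂ h (ball 0 1) → InjOn h (ball 0 1) →
      ‖LL lam h z‖ ≤ X * ‖deriv h 0‖) ∧
    (∀ G : ℂ → ℂ, DifferentiableOn ℂ G Hp → InjOn G Hp →
      ‖LL lam (fun ζ => G (psi ζ)) z‖ ≤ 2 * X * ‖deriv G 1‖)

/-- [L6] The kernel of `L` is bounded.  PROOF: `f = ζ/(1-ζ)²` and `f = ζ/(1-ζ)` belong to `S`
(`koebeQ`-type lemmas exist in `Lip`/`Stmts` files; or directly: injective because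
`ζ/(1-ζ)² = (psi² - 1)/4`, `ζ/(1-ζ) = (psi - 1)/2`), with coefficients `tc f (n+1) = n+1` resp. `1`
(`tc_of_hasSum`, `tsum_coe_mul_geometric...`, `hasSum_coe_mul_geometric_of_norm_lt_one`), so
`∑ (n+1)² lam (n+1) u^n` and `∑ (n+1) lam (n+1) u^n` are bounded by `X`; add them. -/
def PXKer : Prop :=
  ∀ (lam : ℕ → ℂ) (X : ℝ), PX lam X → ∀ u ∈ ball (0 : ℂ) 1,
    ‖∑' n : ℕ, ((n : ℂ) + 1) * ((n : ℂ) + 2) * lam (n + 1) * u ^ n‖ ≤ 2 * X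

/-- [L7] (uses PXKer) The area bound in the disk.  PROOF: this is `prfAreaD` (`Lip/AreaD.lean`)
where `Pack lam B` is used only through `sm`, `sb`, `kb`: copy the file with `kb` replaced by
PXKer (bound `2X`; `sb`: use the sum itself as bound); `Lip.Orth` is proved (`Lip/Orth.lean`). -/
def AreaP : Prop :=
  ∀ (lam : ℕ → ℂ) (X : ℝ), PX lam X → ∀ h : ℂ → ℂ, DifferentiableOn ℂ h (ball 0 1) →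
    ∀ z ∈ ball (0 : ℂ) 1,
      ENNReal.ofReal ‖LL lam h z‖ ≤
        ENNReal.ofReal (2 * X / Real.pi) * ∫⁻ ζ in ball (0 : ℂ) 1, ENNReal.ofReal ‖h ζ‖

/-- [L8] (uses AreaP, LinP) The area bound in the half plane.  PROOF: `L (G ∘ psi) = L (G ∘ psi - c)`
(LinP); AreaP; change of variables `prfChVar : Lip.ChVar` (file `Lip/ChVar.lean`) and `psi (phi w) =
w` on `Hp`; `(2/π) 4 ≤ 3`. -/
def AreaH : Prop :=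
  ∀ (lam : ℕ → ℂ) (X : ℝ), PX lam X → ∀ z ∈ ball (0 : ℂ) 1, ∀ G : ℂ → ℂ,
    DifferentiableOn ℂ G Hp → ∀ c : ℂ,
    ENNReal.ofReal ‖LL lam (fun ζ => G (psi ζ)) z‖ ≤
      ENNReal.ofReal (3 * X) * ∫⁻ w in Hp, ENNReal.ofReal (‖G w - c‖ / ‖w + 1‖ ^ 4)

/-! ### F: the flow -/

/-- [F1] Existence of the flow.  PROOF: fix `W`, `u₀ = (1 + W²)^{1/2}` (principal root; `W² ∉
(-∞,0]`, so `1 + W²` is in the slit plane and `Re u₀ > 0`), `δ = Re u₀`.  For `u` let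
`m(u) = max (Re u) δ + i Im u` (`‖m u - m u'‖ ≤ ‖u - u'‖`) and `f(s,u) = e^{2s}/(m u - i e^s κ s)`:
on `[0,S]` `‖f‖ ≤ e^{2S}/δ`, `f(s,·)` is `e^{2S}/δ²`-Lipschitz, `f(·,u)` is continuous.
Picard-Lindelöf (`IsPicardLindelof` with `tmin = 0`, `tmax = S`, `t₀ = 0`, `x₀ = u₀`,
`a = e^{2S} S/δ`, `r = 0`, `L = e^{2S}/δ`; `exists_eq_forall_mem_Icc_hasDerivWithinAt`-type
theorem) gives `u` on `[0,S]` with `u' = f(s,u)`.  `Re u' > 0`, so `Re u ≥ δ` (monotone) and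
`m u = u`.  Put `y = e^{-s} u`: `y' = -y + e^{-s} e^{2s}/(u - i e^s κ) = -y + 1/(y - iκ)`.  Choose
`y` for every `W ∈ Hp` (arbitrary elsewhere).  Remark: for `S = 0` everything is trivial. -/
def FlEx : Prop :=
  ∀ (κ : ℝ → ℝ) (S : ℝ), Continuous κ → 0 ≤ S → ∃ y : ℝ → ℂ → ℂ, Fl κ S y

/-- [F2] The difference formula and a lower bound.  PROOF: `(e^s Re y)' = e^s Re (1/ν) > 0`
(`Re ν = Re y > 0`), so `e^s Re y(s) ≥ Re y(0)`.  With `Δ = e^s (y s W₁ - y s W₂)` and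
`b = 1/(ν₁ν₂)`: `1/ν₁ - 1/ν₂ = -(y₁-y₂) b`, so `Δ' = -b Δ` on `[0,S]` and
`(Δ exp(∫_0^s b))' = 0` (derivatives within `[0,S]`, `b` continuous there;
`constant_of_derivWithin_zero`). -/
def FlDiff : Prop :=
  ∀ (κ : ℝ → ℝ) (S : ℝ) (y : ℝ → ℂ → ℂ), Continuous κ → 0 ≤ S → Fl κ S y →
    (∀ W ∈ Hp, ∀ s ∈ Icc (0 : ℝ) S, (y 0 W).re ≤ Real.exp s * (y s W).re) ∧
    (∀ W₁ ∈ Hp, ∀ W₂ ∈ Hp, ∀ s ∈ Icc (0 : ℝ) S,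
      (Real.exp s : ℂ) * (y s W₁ - y s W₂) = (y 0 W₁ - y 0 W₂) *
        Complex.exp (-∫ x in (0 : ℝ)..s, 1 / (nu κ y x W₁ * nu κ y x W₂)))

/-- [F3] (uses FlDiff) Injectivity, joint continuity, holomorphy.  PROOF: `y 0 W = (1+W²)^{1/2}`
(the square root with positive real part) is holomorphic and injective in `W ∈ Hp` (`W² = W'²`
and positive real parts give `W = W'`), derivative `W/y 0 W`.  Injectivity of `y s`: FlDiff.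
`‖1/ν‖ ≤ 1/Re y ≤ e^s/Re (y 0 W)`, so by FlDiff `‖y s W - y s W'‖ ≤ ‖y 0 W - y 0 W'‖ exp(S e^{2S}/
(Re (y 0 W) Re (y 0 W')))`: locally Lipschitz in `W` uniformly in `s`, and continuous in `s`:
jointly continuous.  Derivative: by FlDiff `(y s W' - y s W)/(y 0 W' - y 0 W) →
e^{-s} exp(-∫_0^s ν^{-2})` as `W' → W` (`1/ν(x,W') → 1/ν(x,W)` uniformly in `x ∈ [0,s]`). -/
def FlHol : Prop :=
  ∀ (κ : ℝ → ℝ) (S : ℝ) (y : ℝ → ℂ → ℂ), Continuous κ → 0 ≤ S → Fl κ S y →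
    ContinuousOn (fun p : ℝ × ℂ => y p.1 p.2) (Icc 0 S ×ˢ Hp) ∧
    ∀ s ∈ Icc (0 : ℝ) S, InjOn (y s) Hp ∧ ∀ W ∈ Hp,
      HasDerivAt (y s) (W / y 0 W * ((Real.exp (-s) : ℂ) *
        Complex.exp (-∫ x in (0 : ℝ)..s, 1 / nu κ y x W ^ 2))) W

/-- [F4] (uses FlHol) The derivative in terms of `nn`.  PROOF: `κ 0 = 0`, so `ν 0 = y 0`.  The
function `p s = exp(-∫_0^s ν^{-2}) ν(s) e^s / exp(-i∫_0^s μ/ν)` has derivative `0` on `[0,S]`: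
`ν' = y' - iκ' = 1/ν - y - iκ' = 1/ν - ν - iμ`, so the logarithmic derivative of `p` is
`-ν^{-2} + (ν^{-2} - 1 - iμ/ν) + 1 + iμ/ν = 0`.  Hence `exp(-∫ν^{-2}) = y(0) e^{-s} nn/ν(s)`. -/
def FlDer : Prop :=
  ∀ (κ : ℝ → ℝ) (S : ℝ) (y : ℝ → ℂ → ℂ), Drv κ S → Fl κ S y → ∀ s ∈ Icc (0 : ℝ) S, ∀ W ∈ Hp,
    HasDerivAt (y s) (W * nn κ y s W / ((Real.exp (2 * s) : ℂ) * nu κ y s W)) W

/-- [F5] (uses FlDer) The function `X`.  PROOF: (i) `X' = 2e^{2s}(y²-1) + 2e^{2s}y(1/ν - y) =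
2e^{2s}(y/ν - 1) = 2iκ e^{2s}/ν` (`y = ν + iκ`).  (ii) `∂_W X = 2e^{2s} y ∂_W y`.  (iii) both sides
are `1` at `s = 0` and satisfy the same linear equation: log derivative of `nn y/ν` is `-iμ/ν +
(1/(νy) - 1) - (ν^{-2} - 1 - iμ/ν) = 1/(νy) - 1/ν² = -iκ/(ν² y)`. -/
def FlX : Prop :=
  ∀ (κ : ℝ → ℝ) (S : ℝ) (y : ℝ → ℂ → ℂ), Drv κ S → Fl κ S y → ∀ s ∈ Icc (0 : ℝ) S, ∀ W ∈ Hp,
    HasDerivWithinAt (fun x : ℝ => XX y x W)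
      (2 * I * (κ s : ℂ) * (Real.exp (2 * s) : ℂ) / nu κ y s W) (Icc 0 S) s ∧
    HasDerivAt (XX y s) (2 * W * (nn κ y s W * y s W / nu κ y s W)) W ∧
    nn κ y s W * y s W / nu κ y s W =
      Complex.exp (-I * ∫ x in (0 : ℝ)..s, (κ x : ℂ) / (nu κ y x W ^ 2 * y x W))

/-- [F6] Size of `ν`.  PROOF: `N = ν²`, `N₀ = 1 + Z/R²` (`R = e^s`), `D = N - N₀`:
`N' = 2ν(1/ν - ν - iμ) = 2 - 2N - 2iμν`, `N₀' = 2 - 2N₀`, `D(0) = 0`, so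
`D(s) = -∫_0^s e^{-2(s-x)} 2iμν dx` and `|D(s)| ≤ 4ε ∫_0^s e^{-2(s-x)} |ν|`.  Let `a = 1+|W|/R` and
`M = sup_{[0,S]} |ν|/a`; `∫_0^s e^{-2(s-x)} a(x) dx ≤ 1/2 + |W|/R ≤ a(s)`, so `|D| ≤ 4εMa` and
`|ν|² ≤ |N₀| + |D| ≤ a² + 4εMa ≤ a²(1 + 4εM)`, `M² ≤ 1 + 4εM`, hence `M ≤ 1+4ε`, and `|D| ≤
4ε(1+4ε)a ≤ 5εa`. -/
def FlNu : Prop :=
  ∀ (κ : ℝ → ℝ) (S : ℝ) (y : ℝ → ℂ → ℂ), Drv κ S → Fl κ S y → ∀ s ∈ Icc (0 : ℝ) S, ∀ W ∈ Hp,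
    ‖nu κ y s W‖ ≤ (1 + 4 / 1000) * (1 + ‖W‖ / Real.exp s) ∧
    ‖nu κ y s W ^ 2 - (1 + W ^ 2 / (Real.exp s : ℂ) ^ 2)‖ ≤
      5 / 1000 * (1 + ‖W‖ / Real.exp s)

/-- [F7] (uses FlNu) The integral of `1/|ν|` up to the time `R = 4|W|`.  PROOF: let `x ∈ [0,s]`,
`r = |W|/e^x ≥ 1/4`, `N = ν²`, `N₀ = 1+W²e^{-2x}`, `‖N-N₀‖ ≤ 5ε(1+r)`.  We show, for a suitable
point `s*` and the interval `J = {x : 1/4 ≤ |W|/e^x ≤ 4}` (length `log 16 ≤ 2.78`),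
`‖ν(x)‖⁻¹ ≤ √2 e^x/|W| + (√5 + |x-s*|^{-1/2}) 1_J(x)`; then
`∫_0^s ≤ 4√2 + √5·2.78 + 4·√2.78 ≤ 5.66+6.22+6.67 ≤ 20`.
(a) `r ≥ 4`: `‖N‖ ≥ r²-1-5ε(1+r) ≥ r²/2`.  (b) `r ≤ 4` and `‖N₀‖ ≥ 1/4`: `‖N‖ ≥ 1/4 - 25ε ≥ 1/5`.
(c) `I₀ = {x ∈ [0,s] : ‖1 + W²e^{-2x}‖ < 1/4}` is an interval (`τ = e^{-2x}`, a convex condition on
`τ`), contained in `J`.  On `I₀` `φ = Re N` has `φ' = 2 - 2Re N + 2 Im (μν)... ≥ 2 - 2(1/4+1/40) -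
4ε·(3/4) ≥ 1`.  Let `s*` be `sup {x ∈ I₀ : φ x ≤ 0}` if this set is nonempty, otherwise `inf I₀`.
Then `|φ x| ≥ |x - s*|` on `I₀` (mean value inequality), so `‖ν‖⁻¹ = ‖N‖^{-1/2} ≤ |x-s*|^{-1/2}`.
Alternative to (c) without `s*`: on `I₀` `‖N x‖^{-1/2} ≤ |φ x|^{-1/2} ≤ |φ|^{-1/2} φ'` and the
primitive is `2 sign(φ) |φ|^{1/2}`, so the integral over `I₀` is at most `4·(1/3)^{1/2}·...≤ 3`. -/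
def FlInt : Prop :=
  ∀ (κ : ℝ → ℝ) (S : ℝ) (y : ℝ → ℂ → ℂ), Drv κ S → Fl κ S y → ∀ s ∈ Icc (0 : ℝ) S, ∀ W ∈ Hp,
    Real.exp s ≤ 4 * ‖W‖ → ∫ x in (0 : ℝ)..s, ‖nu κ y x W‖⁻¹ ≤ 20

/-- [F8] (uses FlInt) PROOF: `‖∫ μ/ν‖ ≤ 2ε·20 = 1/25` and `‖e^w - 1‖ ≤ 2‖w‖` for `‖w‖ ≤ 1`
(`Complex.norm_exp_sub_one_le`). -/
def FlN1 : Prop :=
  ∀ (κ : ℝ → ℝ) (S : ℝ) (y : ℝ → ℂ → ℂ), Drv κ S → Fl κ S y → ∀ s ∈ Icc (0 : ℝ) S, ∀ W ∈ Hp,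
    Real.exp s ≤ 4 * ‖W‖ → ‖nn κ y s W - 1‖ ≤ 1 / 2

/-- [F9] (uses FlX, FlNu, FlN1) Crude growth.  PROOF: `G s = nn y/ν = exp(-i∫_0^s κ/(ν²y))` (FlX).
Let `s₀ = log (max 1 (4|W|))`, `0 ≤ s₀ ≤ s`.  At `s₀`: if `s₀ = 0`, `G = 1`; otherwise
`e^{s₀} = 4|W|`, `‖nn‖ ≤ 3/2` (FlN1), `y/ν = 1 + iκ/ν`.  For `x ∈ [s₀,s]`, `|W|/e^x ≤ 1/4`, so by
FlNu `‖N‖ ≥ 1 - 1/16 - 7ε ≥ 0.93` (`N = ν²`), `‖ν‖ ≥ 0.96`, `‖y‖ ≥ 0.95`,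
`‖κ/(ν²y)‖ ≤ 2ε`.  So `‖G s₀‖ ≤ 1.52` and `‖G s‖ ≤ 1.52 e^{2ε(s-s₀)} ≤ 2 (e^s/max 1 (4|W|))^{2ε} ≤
2 (e^s/max 1 |W|)^{1/2}`. -/
def FlGr : Prop :=
  ∀ (κ : ℝ → ℝ) (S : ℝ) (y : ℝ → ℂ → ℂ), Drv κ S → Fl κ S y → ∀ s ∈ Icc (0 : ℝ) S, ∀ W ∈ Hp,
    4 * ‖W‖ ≤ Real.exp s →
    ‖nn κ y s W * y s W / nu κ y s W‖ ≤ 2 * Real.sqrt (Real.exp s / max 1 ‖W‖)

/-- [F10] (uses FlX, FlNu, FlGr) Distance to the value at `W = 1`.  PROOF: put `R = e^s`,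
`X = XX y s` (`X(W) - X(1) = R²(y²(W) - y²(1))`).  If `R ≥ 4`: on the segment from `1` to `W`
(inside `Hp` and `|W'| ≤ max 1 |W| ≤ R/4`) by FlX and FlGr `‖∂_W X‖ = 2|W'| ‖nn y/ν‖ ≤
4|W'| √(R/max 1 |W'|) ≤ 4 √R √(max 1 |W|)`, so `‖X(W)-X(1)‖ ≤ 4√R ‖W-1‖ √(max 1 |W|) ≤
4 √R ‖W+1‖^{3/2}` (`‖W-1‖ ≤ ‖W+1‖`, `max 1 |W| ≤ ‖W+1‖`).  If `R < 4`: by FlNu `‖y‖ ≤ 5` at `W` and
at `1`, so the left side is `≤ 50`, and the right side is `≥ C 4^{-3/2}`. -/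
def FlTwo : Prop :=
  ∃ C : ℝ, 0 < C ∧ ∀ (κ : ℝ → ℝ) (S : ℝ) (y : ℝ → ℂ → ℂ), Drv κ S → Fl κ S y →
    ∀ s ∈ Icc (0 : ℝ) S, ∀ W ∈ Hp, 4 * ‖W‖ ≤ Real.exp s →
    ‖y s W ^ 2 - y s 1 ^ 2‖ ≤ C * (‖W + 1‖ / Real.exp s) ^ (3 / 2 : ℝ) ∧
    ‖y s W ^ 2 - 1‖ ≤ 1 / 8

/-- [F11] (uses FlX, FlNu) The point `W = 1`.  PROOF: `R = e^s ≥ 1`, `a ≤ 2`.  By FlNu
`‖ν² - (1+R^{-2})‖ ≤ 10ε`, so `0.99 ≤ ‖ν‖² ≤ 2.01`, and `y² = ν² + 2iκν - κ²` gives the bounds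
for `y²`; `Re y > 0`.  `‖nn‖`: `nn = G ν/y`, `G = nn y/ν = exp(-i∫_0^s κ/(ν²y))`,
`‖G‖ = exp(∫ κ Im(1/(ν²y)))`, and `Im (1/(ν²y)) = Im (1/(ν²y) - 1)`.  `X(s) = 1 + ∫_0^s 2iκe^{2x}/ν`
(FlX, `X(0) = y(0)²-1 = 1`), so `|y²-1| = R^{-2}|X| ≤ R^{-2} + 3 k(s)`,
`k(s) = ∫_0^s e^{-2(s-x)}|κ(x)|dx`; `|y-1| ≤ |y²-1|` (`|y+1| ≥ 1`); `‖1/(ν²y) - 1‖ ≤
C(|y-1| + |κ|)`.  So `|log ‖G‖| ≤ C ∫_0^S |κ|(e^{-2x} + k(x) + |κ(x)|) dx ≤ C' (1 + ∫κ²) ≤ 2C'`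
(`∫|κ|k ≤ ∬_{x'<x} e^{-2(x-x')}(κ(x)²+κ(x')²)/2 ≤ (1/2) ∫κ²`; Fubini on the triangle). -/
def FlOne : Prop :=
  ∃ C : ℝ, 0 < C ∧ ∀ (κ : ℝ → ℝ) (S : ℝ) (y : ℝ → ℂ → ℂ), Drv κ S → Fl κ S y →
    ∀ s ∈ Icc (0 : ℝ) S, ‖nn κ y s 1‖ ≤ C ∧ 1 / 2 ≤ ‖nu κ y s 1‖ ∧ ‖nu κ y s 1‖ ≤ 2 ∧
      1 / 2 ≤ ‖y s 1‖ ∧ ‖y s 1‖ ≤ 2 ∧ 3 / 4 ≤ (y s 1 ^ 2).re ∧ ‖y s 1 ^ 2‖ ≤ 3

/-! ### K: costs -/

/-- [K1] Univalent costs (uses UnivB, FlHol, FlDer, FlX, FlOne).  PROOF: all four functions of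
`W ∈ Hp` are injective and holomorphic: `y s` is (FlHol) and has values in `Hp`, and on `Hp` the
functions `v ↦ (v²-y₁²)(1+y₁²)/(1+v²)` (`= (1+y₁²) - (1+y₁²)²/(1+v²)`; `1 + v² ≠ 0` on `Hp`, `v ↦ v²`
is injective there; `1+y₁² ≠ 0`), `v ↦ 1/(v-iκ)`, `v ↦ 1/(v(v-iκ))` (`v(v-iκ) = v'(v'-iκ)` gives
`(v-v')(v+v'-iκ) = 0` and `Re (v+v') > 0`), `v ↦ e^{2s}(v²-1)` are injective.  By UnivB the costs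
are `2X` times the derivatives at `W = 1`, where `∂_W y = nn/(e^{2s}ν)` (FlDer) and FlOne bounds
everything: `2y₁ ∂_W y`, `-ν^{-2} ∂_W y`, `-(2y-iκ)/(yν)² ∂_W y`, `2 nn y/ν`. -/
def UnivC : Prop :=
  ∃ C : ℝ, 0 < C ∧ ∀ (lam : ℕ → ℂ) (X : ℝ), PX lam X → ∀ z ∈ ball (0 : ℂ) 1,
    ∀ (κ : ℝ → ℝ) (S : ℝ) (y : ℝ → ℂ → ℂ), Drv κ S → Fl κ S y → ∀ s ∈ Icc (0 : ℝ) S,
    Real.exp (2 * s) * ‖LL lam (fun ζ => mo (y s 1) (y s (psi ζ))) z‖ ≤ C * X ∧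
    Real.exp (2 * s) * ‖LL lam (fun ζ => 1 / nu κ y s (psi ζ)) z‖ ≤ C * X ∧
    Real.exp (2 * s) * ‖LL lam (fun ζ => 1 / (y s (psi ζ) * nu κ y s (psi ζ))) z‖ ≤ C * X ∧
    ‖LL lam (fun ζ => XX y s (psi ζ)) z‖ ≤ C * X

/-- [K2] An integral.  PROOF: `(1+‖y‖)^{-3}` is integrable on `ℂ` (`integrable_one_add_norm`,
dimension `2 < 3`); on `‖y-c‖ ≥ 1` `‖y-c‖^{-3/2} ≤ 1`; on `‖y-c‖ ≤ 1` the integrand is at most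
`1 + ‖y-c‖^{-3/2}`, whose integral over the unit disk around `c` is, by translation invariance and
polar coordinates, `π + 2π∫_0^1 r^{-1/2} dr = 5π` (`Complex.lintegral_comp_polarCoord_symm`, see
`Lip/E11.lean`; or `MeasureTheory.integrable_fun_norm_addHaar`-type lemmas). -/
def J2 : Prop :=
  ∃ C : ℝ, 0 < C ∧ ∀ c : ℂ, ∫⁻ y : ℂ, ENNReal.ofReal
    (((1 + ‖y‖) ^ 3)⁻¹ * (1 + ‖y - c‖ ^ (-(3 / 2) : ℝ))) ≤ ENNReal.ofReal C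

/-- [K3] Taylor expansion with a Moebius function.  PROOF: `F Y = h Y - h Y₁ - h'(Y₁) M Y`,
`M Y = (Y-Y₁)(2+Y₁)/(2+Y)`, `M Y₁ = 0`, `M' Y₁ = 1`; `F` is holomorphic and `≤ C M₀` on
`E' = {Re > -1/2, ‖Y‖ < 4}` (`|2+Y| ≥ 3/2`; Cauchy: `|h'(Y₁)| ≤ 5M`), `F Y₁ = F' Y₁ = 0`.  Points of
`E = {Re ≥ -1/4, ‖Y‖ ≤ 3}` have distance `≥ 1/4` from the complement of `E'`, so Cauchy's estimate
twice (radius `1/8`; `Complex.norm_deriv_le_of_forall_mem_sphere_norm_le`) bounds `F''` on `E` by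
`C M`; `E` is convex: `‖F'(Y)‖ ≤ CM‖Y-Y₁‖`, `‖F Y‖ ≤ CM‖Y-Y₁‖²`
(`Convex.norm_image_sub_le_of_norm_deriv_le` on the segment). -/
def TM : Prop :=
  ∃ C : ℝ, 0 < C ∧ ∀ (h : ℂ → ℂ) (M : ℝ),
    DifferentiableOn ℂ h {Y : ℂ | -(1 / 2) < Y.re ∧ ‖Y‖ < 4} →
    (∀ Y : ℂ, -(1 / 2) < Y.re → ‖Y‖ < 4 → ‖h Y‖ ≤ M) →
    ∀ Y₁ : ℂ, -(1 / 4) ≤ Y₁.re → ‖Y₁‖ ≤ 3 → ‖deriv h Y₁‖ ≤ C * M ∧
      ∀ Y : ℂ, -(1 / 4) ≤ Y.re → ‖Y‖ ≤ 3 →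
        ‖h Y - h Y₁ - deriv h Y₁ * ((Y - Y₁) * (2 + Y₁) / (2 + Y))‖ ≤ C * M * ‖Y - Y₁‖ ^ 2

/-- [K4] Bounds for `w`.  `Q = 1 + e^{-2t}(y²-1)`, in the slit plane for `y ∈ Hp`, `t > 0`
(`= (1-e^{-2t}) + e^{-2t}y²`, a positive number plus a positive multiple of `y² ∉ (-∞,0]`).  PROOF:
(i) holomorphic.  (ii) `e^{2t}Q = y²+b²`, `b = √(e^{2t}-1)`, `‖y²+b²‖ = ‖y-ib‖‖y+ib‖` and one of the
factors is `≥ b` (`Re`... `‖y+ib‖ ≥ b` if `Im y ≥ 0`), so `‖w‖ = e^{3t}‖y²+b²‖^{-3/2} ≤ e^{3t}b^{-3/2}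
(‖y-ib‖^{-3/2} + ‖y+ib‖^{-3/2})`, and `e^{3t}b^{-3/2} = e^{3t/2}(1-e^{-2t})^{-3/4}` with
`1-e^{-2t} ≥ 2t/(1+2t)`: `e^{-2t}e^{3t}b^{-3/2} ≤ e^{-t/2}(1+1/(2t))^{3/4} ≤
C e^{-t/4}t^{-3/4}`.  (iii) if `1+‖y‖² ≤ e^{2t}/4`, `‖Q-1‖ ≤ 1/4` and `‖w-1‖ ≤ C‖Q-1‖ ≤
C e^{-2t}(1+‖y‖²)`; otherwise `1 ≤ 4e^{-2t}(1+‖y‖²)` and `‖w-1‖ ≤ 1+‖w‖`.  (iv) on the set
`Re Y > -1/2, ‖Y‖ < 4`: `‖(1+e^{-2t}Y)^{-3/2}-1‖ ≤ C e^{-2t}` (`|derivative in x of (1+x)^{-3/2}| ≤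
C` for `Re x ≥ -1/2`). -/
def WB : Prop :=
  ∃ C : ℝ, 0 < C ∧ ∀ t : ℝ, 0 < t →
    DifferentiableOn ℂ (ww t) Hp ∧
    (∀ y ∈ Hp, ‖ww t y - 1‖ ≤ C * Real.exp (-2 * t) * (1 + ‖y‖) ^ 2 * (1 + ‖ww t y‖)) ∧
    (∀ y ∈ Hp, Real.exp (-2 * t) * ‖ww t y‖ ≤ C * (Real.exp (-(t / 4)) * t ^ (-(3 / 4) : ℝ)) *
      (‖y - I * (Real.sqrt (Real.exp (2 * t) - 1) : ℂ)‖ ^ (-(3 / 2) : ℝ) +
        ‖y + I * (Real.sqrt (Real.exp (2 * t) - 1) : ℂ)‖ ^ (-(3 / 2) : ℝ))) ∧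
    Real.exp (-2 * t) ≤ C * (Real.exp (-(t / 4)) * t ^ (-(3 / 4) : ℝ)) ∧
    DifferentiableOn ℂ (fun Y : ℂ => (1 + (Real.exp (-2 * t) : ℂ) * Y) ^ (-(3 / 2) : ℂ))
      {Y : ℂ | -(1 / 2) < Y.re ∧ ‖Y‖ < 4} ∧
    (∀ Y : ℂ, -(1 / 2) < Y.re → ‖Y‖ < 4 →
      ‖(1 + (Real.exp (-2 * t) : ℂ) * Y) ^ (-(3 / 2) : ℂ) - 1‖ ≤ C * Real.exp (-2 * t))

/-- [K5] (uses TM, WB, J2) The remainder `P` for the function `(w-1)/(y-iκ)`.  PROOF: apply TM to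
`h Y = ((1+e^{-2t}Y)^{-3/2}-1)/((1+Y)^{1/2} - iκ₀)`, bound `C e^{-2t}` (WB; `Re (1+Y)^{1/2} ≥ 1/2`
for `Re Y > -1/2`), `Y₁ = y₁²-1`, `d = h'(Y₁)`.  For `y ∈ Hp`, `(1+(y²-1))^{1/2} = y`, so
`(ww t y - 1)/(y - iκ₀) = h(y²-1)`, `mo y₁ y = (Y-Y₁)(2+Y₁)/(2+Y)`.  If `‖y²-1‖ ≤ 1/8`, `Y = y²-1` is in
the set of TM.  Integral: with `φ = e^{-t/4}t^{-3/4}`, `|y-iκ₀| ≤ 1+‖y‖`:
`‖(w-1)/(y-iκ₀)‖|y-iκ₀|²(1+‖y‖)^{-6} ≤ C e^{-2t}(1+‖w‖)(1+‖y‖)^{-3} ≤ Cφ(1+‖y-ib‖^{-3/2}+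
‖y+ib‖^{-3/2})(1+‖y‖)^{-3}` (WB), and J2 with `c = ±ib`.  The constant `(w₁-1)/(y₁-iκ₀)` is
`≤ C e^{-2t}`.  `mo y₁ y = (1+y₁²) - (1+y₁²)²/(1+y²)`, `‖1+y²‖^{-1} ≤ ‖y-i‖^{-1}+‖y+i‖^{-1} ≤
2 + ‖y-i‖^{-3/2}+‖y+i‖^{-3/2}`: J2 with `c = ±i`. -/
def RemW : Prop :=
  ∃ C : ℝ, 0 < C ∧ ∀ (κ₀ t : ℝ) (y₁ : ℂ), |κ₀| ≤ 1 / 1000 → 0 < t → y₁ ∈ Hp →
    3 / 4 ≤ (y₁ ^ 2).re → ‖y₁ ^ 2‖ ≤ 3 → ∃ d : ℂ, ‖d‖ ≤ C * Real.exp (-2 * t) ∧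
    DifferentiableOn ℂ (fun v => (ww t v - 1) / (v - I * (κ₀ : ℂ)) -
      (ww t y₁ - 1) / (y₁ - I * (κ₀ : ℂ)) - d * mo y₁ v) Hp ∧
    (∀ v ∈ Hp, ‖v ^ 2 - 1‖ ≤ 1 / 8 → ‖(ww t v - 1) / (v - I * (κ₀ : ℂ)) -
      (ww t y₁ - 1) / (y₁ - I * (κ₀ : ℂ)) - d * mo y₁ v‖ ≤
        C * Real.exp (-2 * t) * ‖v ^ 2 - y₁ ^ 2‖ ^ 2) ∧
    ∫⁻ v in Hp, ENNReal.ofReal (‖(ww t v - 1) / (v - I * (κ₀ : ℂ)) -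
      (ww t y₁ - 1) / (y₁ - I * (κ₀ : ℂ)) - d * mo y₁ v‖ * ‖v - I * (κ₀ : ℂ)‖ ^ 2 /
        (1 + ‖v‖) ^ 6) ≤ ENNReal.ofReal (C * (Real.exp (-(t / 4)) * t ^ (-(3 / 4) : ℝ)))

/-- [K6] (uses AreaH, FlHol, FlDer, FlNu, FlN1, FlTwo, J2) The general area estimate along the
flow.  `R = e^s`.  PROOF: AreaH with `G = P ∘ y s`, `c = 0`: `R²|L| ≤ 3X R² ∫_Hp ‖P(y)‖/‖W+1‖⁴`.
PART 1: `‖W‖ ≤ R/4`.  FlTwo: `‖y²-1‖ ≤ 1/8` and `‖P(y)‖ ≤ B‖y²-y₁²‖² ≤ BC²(‖W+1‖/R)³`; so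
`R² ∫ ‖P‖/‖W+1‖⁴ ≤ BC² R^{-1} ∫_{‖W‖≤R/4} ‖W‖^{-1} = BC² π/2` (`‖W+1‖ ≥ ‖W‖` on `Hp`; polar
coordinates).  PART 2: `V = {W ∈ Hp : R/4 < ‖W‖}`.  By FlDer, FlN1 `‖∂_W y‖² ≥
‖W‖²/(4R⁴‖ν‖²)`, and `1+‖y‖ ≤ 10‖W‖/R` (FlNu, `‖y‖ ≤ ‖ν‖+ε`).  So `R²/‖W+1‖⁴ ≤ R²/‖W‖⁴ ≤
4·10⁶ ‖∂_W y‖² ‖ν‖²/(1+‖y‖)⁶` with `‖ν‖ = ‖y-iκ s‖`, and by the change of variables `v = y s W`
(`UB.Chg`, proved in `UB/Chg.lean`; `V ⊆ Hp` measurable) `R² ∫_V ‖P(y)‖/‖W+1‖⁴ ≤ 4·10⁶ ∫_Hp ‖P v‖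
‖v-iκ s‖²/(1+‖v‖)⁶ ≤ 4·10⁶ B`. -/
def AG : Prop :=
  ∃ C : ℝ, 0 < C ∧ ∀ (lam : ℕ → ℂ) (X : ℝ), PX lam X → ∀ z ∈ ball (0 : ℂ) 1,
    ∀ (κ : ℝ → ℝ) (S : ℝ) (y : ℝ → ℂ → ℂ), Drv κ S → Fl κ S y → ∀ s ∈ Icc (0 : ℝ) S,
    ∀ (P : ℂ → ℂ) (B : ℝ), 0 ≤ B → DifferentiableOn ℂ P Hp →
    (∀ v ∈ Hp, ‖v ^ 2 - 1‖ ≤ 1 / 8 → ‖P v‖ ≤ B * ‖v ^ 2 - y s 1 ^ 2‖ ^ 2) →
    ∫⁻ v in Hp, ENNReal.ofReal (‖P v‖ * ‖v - I * (κ s : ℂ)‖ ^ 2 / (1 + ‖v‖) ^ 6) ≤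
      ENNReal.ofReal B →
    Real.exp (2 * s) * ‖LL lam (fun ζ => P (y s (psi ζ))) z‖ ≤ C * X * B

/-- [K7] (uses AG, RemW, UnivC, LinP, FlHol, FlOne, UnivB for `0 ≤ X`) The kernel bound.  PROOF:
`y₁ = y s 1` satisfies the hypotheses of RemW by FlOne; `(w-1)/ν = P(y) + const + d mo y₁ (y)` with
`P` of RemW; `‖L(P(y))‖e^{2s} ≤ C X φ` (AG with `B = C φ`, `φ = e^{-t/4}t^{-3/4}`, note
`e^{-2t} ≤ C φ`), `‖d‖e^{2s}‖L(mo)‖ ≤ C X e^{-2t}` (UnivC). -/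
def KB : Prop :=
  ∃ C : ℝ, 0 < C ∧ ∀ (lam : ℕ → ℂ) (X : ℝ), PX lam X → ∀ z ∈ ball (0 : ℂ) 1,
    ∀ (κ : ℝ → ℝ) (S : ℝ) (y : ℝ → ℂ → ℂ), Drv κ S → Fl κ S y → ∀ s ∈ Icc (0 : ℝ) S,
    ∀ t : ℝ, 0 < t →
    Real.exp (2 * s) * ‖LL lam (fun ζ => (ww t (y s (psi ζ)) - 1) / nu κ y s (psi ζ)) z‖ ≤
      C * X * (Real.exp (-(t / 4)) * t ^ (-(3 / 4) : ℝ))

/-! ### I: the identity -/

/-- [I1] (uses FlX) `d/ds (1 + X_s/R'²)^{-1/2}`.  PROOF: `1 + e^{-2s'}X_s = 1 + e^{-2(s'-s)}(y²-1)` is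
in the slit plane (a nonnegative number plus a positive multiple of `y²`); chain rule with FlX(i):
`-(1/2)(1+e^{-2s'}X)^{-3/2} e^{-2s'} 2iκe^{2s}/ν`; integrate over `[0,s']`; at `s = s'` the value is
`(y²)^{-1/2} = 1/y` (`Re y > 0`), at `s = 0` `X = y(0)²-1 = W²`. -/
def IdA : Prop :=
  ∀ (κ : ℝ → ℝ) (S : ℝ) (y : ℝ → ℂ → ℂ), Drv κ S → Fl κ S y → ∀ W ∈ Hp, ∀ s' ∈ Icc (0 : ℝ) S,
    1 / y s' W = (1 + W ^ 2 * (Real.exp (-2 * s') : ℂ)) ^ (-(1 / 2) : ℂ) -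
      I * ∫ s in (0 : ℝ)..s', (κ s : ℂ) * (Real.exp (-2 * (s' - s)) : ℂ) * ww (s' - s) (y s W) /
        nu κ y s W

/-- [I2] (uses FlX, IdA) The identity, `g s = exp(-i ∫_s^S κ)` (`g = e^{iψ}`, `ψ' = κ`, `ψ(S) = 0`).
PROOF: all functions of `s` (and of `(s,s')`, `s ≤ s'`) are continuous.  Let `J(h) = 2i ∫ κ h e^{2s}/ν
ds`; by FlX(i) `J(1) = X_S - W²`.  As `1/ν = 1/y + iκ/(yν)`: `J(g) = 2i∫κg e^{2s}/y - 2∫κ²g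
e^{2s}/(yν)`.  Insert IdA for `1/y s'` (integration variable `s'`): `2i∫κg e^{2s'}/y = J₀(g) +
2∫_{s'}∫_{s<s'} κ(s')g(s')κ(s)e^{2s} w/ν_s`, `J₀(g) = 2i∫κg e^{2s}(1+W²e^{-2s})^{-1/2}`.  Write
`w = (w-1)+1`; the `1` part is, by Fubini on the triangle, `2∫_s κ(s)e^{2s}/ν_s (∫_s^S κ g)` and
`∫_s^S κg = -i(1-g(s))` (`g' = iκg`, `g(S) = 1`), i.e. `-J(1)+J(g)`.  So `J(g) = J₀(g) - 2∫κ²g
e^{2s}/(yν) + 2∬(w-1)... - J(1) + J(g)`. -/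
def Ident : Prop :=
  ∀ (κ : ℝ → ℝ) (S : ℝ) (y : ℝ → ℂ → ℂ), Drv κ S → Fl κ S y → ∀ g : ℝ → ℂ,
    (∀ s : ℝ, g s = Complex.exp (-I * ((∫ x in s..S, κ x : ℝ) : ℂ))) → ∀ W ∈ Hp,
    XX y S W - W ^ 2 =
      (∫ s in (0 : ℝ)..S, 2 * I * (κ s : ℂ) * g s * (Real.exp (2 * s) : ℂ) *
        (1 + W ^ 2 * (Real.exp (-2 * s) : ℂ)) ^ (-(1 / 2) : ℂ)) -
      (∫ s in (0 : ℝ)..S, 2 * (κ s : ℂ) ^ 2 * g s * (Real.exp (2 * s) : ℂ) *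
        (1 / (y s W * nu κ y s W))) +
      ∫ s' in (0 : ℝ)..S, ∫ s in (0 : ℝ)..s', 2 * (κ s : ℂ) * (κ s' : ℂ) * g s' *
        (Real.exp (2 * s) : ℂ) * ((ww (s' - s) (y s W) - 1) / nu κ y s W)

/-- [I3] (uses Ident, Swap, Swap2, LinP, FlHol) `L` applied to the identity.  PROOF: the three
integrands, as functions of `ζ` with `W = psi ζ`, are jointly continuous (FlHol; cpow on the slit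
plane; in the third one replace `s'-s` by `|s'-s|`, which does not change the integral and makes
the function continuous on the whole square) and holomorphic in `ζ`; apply Swap, Swap2, LinP (`L`
of a constant times `h`). -/
def IdL : Prop :=
  ∀ (lam : ℕ → ℂ) (X : ℝ), PX lam X → ∀ z ∈ ball (0 : ℂ) 1,
    ∀ (κ : ℝ → ℝ) (S : ℝ) (y : ℝ → ℂ → ℂ), Drv κ S → Fl κ S y → ∀ g : ℝ → ℂ,
    (∀ s : ℝ, g s = Complex.exp (-I * ((∫ x in s..S, κ x : ℝ) : ℂ))) →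
    LL lam (fun ζ => XX y S (psi ζ)) z - LL lam (fun ζ => psi ζ ^ 2) z =
      (∫ s in (0 : ℝ)..S, (κ s : ℂ) * g s * ell lam z s) -
      (∫ s in (0 : ℝ)..S, 2 * (κ s : ℂ) ^ 2 * g s * ((Real.exp (2 * s) : ℂ) *
        LL lam (fun ζ => 1 / (y s (psi ζ) * nu κ y s (psi ζ))) z)) +
      ∫ s' in (0 : ℝ)..S, ∫ s in (0 : ℝ)..s', 2 * (κ s : ℂ) * (κ s' : ℂ) * g s' *
        ((Real.exp (2 * s) : ℂ) *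
          LL lam (fun ζ => (ww (s' - s) (y s (psi ζ)) - 1) / nu κ y s (psi ζ)) z)

/-- [I4] A Young type inequality.  PROOF: `|κ s κ s'| ≤ (κ s² + κ s'²)/2`;
`∫_{s'} ∫_{s<s'} κ(s')² k(s'-s) = ∫ κ(s')² (∫_0^{s'} k) ≤ K ∫κ²`, and by Fubini on the triangle the
same for `κ(s)²`.  With `k t = e^{-t/4} t^{-3/4}`, `∫_0^∞ k ≤ 4 + 4 = 8` (`∫_0^1 t^{-3/4} = 4`,
`∫_1^∞ e^{-t/4} ≤ 4`; or `Real.Gamma`). The inner integrand is allowed to be non integrable only if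
the bound fails: state with `M` any function (real interval integrals; if the function of `s'` is
not integrable its integral is `0`). -/
def Young : Prop :=
  ∀ (κ : ℝ → ℝ) (S B : ℝ) (M : ℝ → ℝ → ℂ), Continuous κ → 0 ≤ S → 0 ≤ B →
    (∀ s' ∈ Icc (0 : ℝ) S, ∀ s ∈ Ico (0 : ℝ) s', ‖M s s'‖ ≤
      B * (|κ s| * |κ s'| * (Real.exp (-((s' - s) / 4)) * (s' - s) ^ (-(3 / 4) : ℝ)))) →
    ‖∫ s' in (0 : ℝ)..S, ∫ s in (0 : ℝ)..s', M s s'‖ ≤ 8 * B * ∫ s in (0 : ℝ)..S, κ s ^ 2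

/-- [I5] (uses FlEx, IdL, UnivC, UnivB, KB, Young) The main estimate.  PROOF: take a flow (FlEx),
`‖g‖ = 1`.  IdL and the costs: `‖L(X_S)‖ ≤ CX`, `‖L(psi²)‖ ≤ 4X` (UnivB, `W²` injective on `Hp`,
derivative `2` at `1`), second term `≤ 2CX∫κ² ≤ 2CX` (UnivC), third term by KB and Young. -/
def MainI : Prop :=
  ∃ C : ℝ, 0 < C ∧ ∀ (lam : ℕ → ℂ) (X : ℝ), PX lam X → ∀ z ∈ ball (0 : ℂ) 1,
    ∀ (κ : ℝ → ℝ) (S : ℝ), Drv κ S →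
    ‖∫ s in (0 : ℝ)..S, (κ s : ℂ) * Complex.exp (-I * ((∫ x in s..S, κ x : ℝ) : ℂ)) *
      ell lam z s‖ ≤ C * X

end Pool.Agent.MultS.LB
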