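import Pool.Agent.Work.MP_b17785_an.LB.Stmts2
import Pool.Agent.Work.MP_b17785_an.Lip.Stmts
import Pool.Agent.Work.MP_b17785_an.UB.Stmts

/-!
# The explicit form of the Lipschitz norm of multipliers of `S`: the bridges

`CN mu Y` : the criterion in terms of polynomials.  `z1 mu` : `mu` with the entries `0, 1` replaced
by `0`.
-/

set_option autoImplicit false

open Complex Metric Set Filter Topology MeasureTheory
open Pool.Agent.MultS.Lip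

namespace Pool.Agent.MultS.LB

/-- The coefficients of `koe * A`. -/
noncomputable def kc (A : Polynomial ℂ) (n : ℕ) : ℂ :=
  ∑ m ∈ Finset.range n, ((n : ℂ) - (m : ℂ)) * A.coeff m

/-- Admissible polynomials. -/
def Adm (A : Polynomial ℂ) : Prop :=
  (∀ z ∈ ball (0 : ℂ) 1, ‖A.eval z‖ ≤ 1) ∧ ∑ m ∈ A.support, (m : ℝ) * ‖A.coeff m‖ ^ 2 ≤ 1

/-- The criterion. -/
def CN (mu : ℕ → ℂ) (Y : ℝ) : Prop :=
  ∀ A : Polynomial ℂ, Adm A → ∀ z ∈ ball (0 : ℂ) 1,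
    Summable (fun n : ℕ => ((n : ℂ) + 2) * mu (n + 2) * kc A (n + 2) * z ^ (n + 1)) ∧
    ‖∑' n : ℕ, ((n : ℂ) + 2) * mu (n + 2) * kc A (n + 2) * z ^ (n + 1)‖ ≤ Y

/-- `mu` without the first entries. -/
noncomputable def z1 (mu : ℕ → ℂ) (n : ℕ) : ℂ := if n ≤ 1 then 0 else mu n

/-- [G1] Absolute convergence.  PROOF: let `c n = (n+2)² mu (n+2)`; `h z = ∑ c n z^(n+1)` is
holomorphic in the disk, `‖h‖ ≤ X`, so `∑ ‖c n‖² ≤ X²` (Parseval: `prfParsQ`-type lemma in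
`Lip/ParsQ.lean`, or `UB`/`Lip.Orth`: `∑_{n<N}‖c n‖² r^{2n+2} ≤ X²`), and `2(n+2)‖mu(n+2)‖ ≤
‖c n‖² + (n+2)^{-2}`. -/
def SumB : Prop :=
  ∀ (mu : ℕ → ℂ) (X : ℝ), (∀ z ∈ ball (0 : ℂ) 1,
    Summable (fun n : ℕ => ((n : ℂ) + 2) ^ 2 * mu (n + 2) * z ^ (n + 1)) ∧
    ‖∑' n : ℕ, ((n : ℂ) + 2) ^ 2 * mu (n + 2) * z ^ (n + 1)‖ ≤ X) →
    Summable (fun n : ℕ => ((n : ℝ) + 1) * ‖z1 mu (n + 1)‖)

/-- [G2] (uses SumB) The Lipschitz norm and `PX`.  PROOF: `LL (z1 mu) f z = ∑ (n+1) z1 mu (n+1) tc f (n+1)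
z^n`: the first term vanishes, shift the index: it is the series of `XN`.  `→`: `sm` by SumB and the
Koebe function (`sc_koebe`, `tc_koebe`, used in `XN_koebe`, `Lip/Fin.lean`).  `←`: summability from
`sm`, `littAll` (`‖tc f n‖ ≤ 3n`) and `|z| < 1` (`(n+2)|z|^(n+1)` is bounded). -/
def XNPX : Prop :=
  ∀ (mu : ℕ → ℂ) (X : ℝ), XN mu X ↔ PX (z1 mu) X

/-- [G3] Coefficients of `koe * A`.  PROOF: `koe z = ∑ n z^n`; `tc` of a product is the Cauchy product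
(`tc_of_hasSum`, `hasSum_tc`, file `Tc.lean`; or by linearity in `A` it is enough to treat `A = z^m`:
`koe z * z^m = ∑_{n>m} (n-m) z^n`). -/
def KcT : Prop :=
  ∀ (A : Polynomial ℂ) (n : ℕ), tc (fun z => koe z * A.eval z) n = kc A n

/-- [G4] The Dirichlet integral of a polynomial.  PROOF: `Lip.Orth` (`prfOrth`) with `h = A'` and all
`m`: `∫_{|ζ|<s} ‖A'‖² = π∑ m‖A_m‖² s^{2m} ≤ π`; `s → 1` (monotone convergence, or the polynomial is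
bounded and the ball has finite measure). -/
def PolD : Prop :=
  ∀ A : Polynomial ℂ, Adm A →
    ∫⁻ z in ball (0 : ℂ) 1, ENNReal.ofReal (‖deriv (fun x : ℂ => A.eval x) z‖ ^ 2) ≤
      ENNReal.ofReal Real.pi

/-- [G5] (uses KcT, PolD) PROOF: `bc` with `A.eval`: `LL (z1 mu) (koe * A) z` is the series of `CN` (first
term `0`, shift, KcT).  Summability from `sm` and `‖kc A n‖ ≤ C n`, `|z| < 1`. -/
def CXCN : Prop :=
  ∀ (mu : ℕ → ℂ) (Y : ℝ), CX (z1 mu) Y → CN mu Y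

/-- [G6] (uses SumB, KcT; Ker, proved in `LB/Ker.lean`; `UB.Pars`, proved in `UB/Pars.lean`) PROOF: `sm`:
SumB with `A = 1` (`kc 1 n = n`).  `bc`: let `A` be holomorphic, `|A| ≤ 1`, `∫_D|A'|² ≤ π`; by Pars
`∑_{m<N} m‖tc A m‖² ≤ 1`.  For `0 < r < 1` let `p_N = ∑_{m<N} tc A m r^m z^m`: it converges to `A_r z =
A(rz)` uniformly on the disk (`|tc A m| ≤ 1`, Cauchy, so the error is `≤ δ_N = r^N/(1-r)`), so
`p_N/(1+δ_N)` is `Adm`, and `‖LL (z1 mu) (koe p_N) z‖ ≤ (1+δ_N)Y` (KcT, shift).  `N → ∞` and then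
`r → 1`: by Ker `LL` is continuous for uniform convergence on a circle. -/
def CNCX : Prop :=
  ∀ (mu : ℕ → ℂ) (Y : ℝ), CN mu Y → CX (z1 mu) Y

/-- [G7] The upper bound (helper75; from `UB.Dir`, `Lip.extrAll`, `Lip.growEAll`). -/
def UBMain : Prop :=
  ∃ C : ℝ, 0 < C ∧ ∀ (lam : ℕ → ℂ) (Y : ℝ), CX lam Y → PX lam (C * Y)

/-- [G8] (uses LBMain, UBMain, XNPX, CXCN, CNCX) The two norms are equivalent. -/
def Equ : Prop :=
  ∃ C : ℝ, 1 ≤ C ∧ (∀ (mu : ℕ → ℂ) (X : ℝ), XN mu X → CN mu (C * X)) ∧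
    ∀ (mu : ℕ → ℂ) (Y : ℝ), CN mu Y → XN mu (C * Y)

end Pool.Agent.MultS.LB
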