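import Pool.Agent.Work.MP_b17785_an.LB.Stmts2

/-!
# Duality and the `L²` bound for the averages
-/

set_option autoImplicit false

open Complex Metric Set Filter Topology MeasureTheory

namespace Pool.Agent.MultS.LB

namespace AvDX

/-- one average -/
noncomputable def A1 (f : ℝ → ℝ) (s : ℝ) : ℝ := ∫ y in (0 : ℝ)..1, f (s + y)

/-- the adjoint average -/
noncomputable def B1 (l : ℝ → ℂ) (s : ℝ) : ℂ := ∫ y in (0 : ℝ)..1, l (s - y)

lemma avr_eq (f : ℝ → ℝ) : avr f = A1 (A1 f) := rfl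

lemma av_eq (l : ℝ → ℂ) : av l = B1 (B1 l) := rfl

lemma A1_cont {f : ℝ → ℝ} (hf : Continuous f) : Continuous (A1 f) :=
  intervalIntegral.continuous_parametric_intervalIntegral_of_continuous' (f := fun s y => f (s + y))
    (by fun_prop) 0 1

lemma B1_cont {l : ℝ → ℂ} (hl : Continuous l) : Continuous (B1 l) :=
  intervalIntegral.continuous_parametric_intervalIntegral_of_continuous' (f := fun s y => l (s - y))
    (by fun_prop) 0 1

lemma B1_bound {l : ℝ → ℂ} {X : ℝ} (h : ∀ s, ‖l s‖ ≤ X) (s : ℝ) : ‖B1 l s‖ ≤ X := by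
  have := intervalIntegral.norm_integral_le_of_norm_le_const (a := (0 : ℝ)) (b := 1)
    (f := fun y => l (s - y)) (C := X) fun y _ => h _
  rw [sub_zero, abs_one, mul_one] at this
  exact this

/-- the measure on `[0,1]` -/
noncomputable abbrev μ : Measure ℝ := volume.restrict (Ioc (0 : ℝ) 1)

lemma A1_eq (f : ℝ → ℝ) (s : ℝ) : A1 f s = ∫ y, f (s + y) ∂μ := by
  unfold A1
  rw [intervalIntegral.integral_of_le zero_le_one]

lemma B1_eq (l : ℝ → ℂ) (s : ℝ) : B1 l s = ∫ y, l (s - y) ∂μ := by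
  unfold B1
  rw [intervalIntegral.integral_of_le zero_le_one]

lemma int_prod {f : ℝ → ℝ} (hf : Continuous f) (hi : Integrable f) :
    Integrable (fun z : ℝ × ℝ => f (z.1 + z.2)) (volume.prod μ) := by
  rw [integrable_prod_iff' (Continuous.aestronglyMeasurable (by fun_prop))]
  refine ⟨Eventually.of_forall fun y => hi.comp_add_right y, ?_⟩
  have : (fun y : ℝ => ∫ x : ℝ, ‖f (x + y)‖) = fun _ => ∫ x : ℝ, ‖f x‖ := by
    funext y
    exact integral_add_right_eq_self (fun x => ‖f x‖) y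
  simp only [this]
  exact integrable_const _

lemma A1_int {f : ℝ → ℝ} (hf : Continuous f) (hi : Integrable f) : Integrable (A1 f) := by
  have h := (int_prod hf hi).integral_prod_left
  have e : A1 f = fun s => ∫ y, f (s + y) ∂μ := funext (A1_eq f)
  rw [e]
  exact h

lemma mu_one : ∫ _ : ℝ, (1 : ℝ) ∂μ = 1 := by
  simp [μ]

lemma A1_integral {f : ℝ → ℝ} (hf : Continuous f) (hi : Integrable f) :
    ∫ s, A1 f s = ∫ s, f s := by
  have e : A1 f = fun s => ∫ y, f (s + y) ∂μ := funext (A1_eq f)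
  rw [e]
  have h := integral_integral_swap (f := fun s y => f (s + y)) (int_prod hf hi)
  rw [h]
  have h2 : (fun y : ℝ => ∫ s : ℝ, f (s + y)) = fun _ => ∫ s : ℝ, f s := by
    funext y
    exact integral_add_right_eq_self f y
  simp only [h2]
  rw [integral_const]
  simp [μ]

lemma dual {f : ℝ → ℝ} {l : ℝ → ℂ} {X : ℝ} (hf : Continuous f) (hi : Integrable f)
    (hl : Continuous l) (hX : ∀ s, ‖l s‖ ≤ X) :
    ∫ s : ℝ, (A1 f s : ℂ) * l s = ∫ s : ℝ, (f s : ℂ) * B1 l s := by
  have i1 : Integrable (fun z : ℝ × ℝ => (f (z.1 + z.2) : ℂ) * l z.1) (volume.prod μ) := by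
    refine Integrable.mono' (g := fun z : ℝ × ℝ => ‖f (z.1 + z.2)‖ * X) ?_
      (Continuous.aestronglyMeasurable (by fun_prop)) ?_
    · exact (int_prod hf hi).norm.mul_const X
    · refine Eventually.of_forall fun z => ?_
      rw [norm_mul, norm_real]
      exact mul_le_mul_of_nonneg_left (hX _) (norm_nonneg _)
  have i2 : Integrable (fun z : ℝ × ℝ => (f z.1 : ℂ) * l (z.1 - z.2)) (volume.prod μ) := by
    refine Integrable.mono' (g := fun z : ℝ × ℝ => ‖f z.1‖ * X) ?_
      (Continuous.aestronglyMeasurable (by fun_prop)) ?_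
    · exact hi.norm.mul_prod (integrable_const (μ := μ) X)
    · refine Eventually.of_forall fun z => ?_
      rw [norm_mul, norm_real]
      exact mul_le_mul_of_nonneg_left (hX _) (norm_nonneg _)
  have e1 : ∫ s : ℝ, (A1 f s : ℂ) * l s = ∫ s : ℝ, ∫ y, (f (s + y) : ℂ) * l s ∂μ := by
    congr 1
    funext s
    rw [integral_mul_const, A1_eq, integral_complex_ofReal]
  have e2 : ∫ s : ℝ, (f s : ℂ) * B1 l s = ∫ s : ℝ, ∫ y, (f s : ℂ) * l (s - y) ∂μ := by
    congr 1
    funext s
    rw [integral_const_mul, B1_eq]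
  rw [e1, e2, integral_integral_swap (f := fun s y => (f (s + y) : ℂ) * l s) i1,
    integral_integral_swap (f := fun s y => (f s : ℂ) * l (s - y)) i2]
  congr 1
  funext y
  have := integral_add_right_eq_self (μ := (volume : Measure ℝ))
    (fun s : ℝ => (f s : ℂ) * l (s - y)) y
  rw [← this]
  congr 1
  funext s
  rw [add_sub_cancel_right]

lemma sq_le {g : ℝ → ℝ} (hg : Continuous g) :
    (∫ y in (0 : ℝ)..1, g y) ^ 2 ≤ ∫ y in (0 : ℝ)..1, g y ^ 2 := by
  set c := ∫ y in (0 : ℝ)..1, g y with hc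
  have h0 : 0 ≤ ∫ y in (0 : ℝ)..1, (g y - c) ^ 2 :=
    intervalIntegral.integral_nonneg zero_le_one fun y _ => sq_nonneg _
  have i1 : IntervalIntegrable (fun y => g y ^ 2) volume 0 1 :=
    Continuous.intervalIntegrable (by fun_prop) 0 1
  have i2 : IntervalIntegrable (fun y => 2 * c * g y) volume 0 1 :=
    Continuous.intervalIntegrable (by fun_prop) 0 1
  have i3 : IntervalIntegrable (fun _ : ℝ => c ^ 2) volume 0 1 :=
    Continuous.intervalIntegrable (by fun_prop) 0 1
  have h1 : ∫ y in (0 : ℝ)..1, (g y - c) ^ 2 = (∫ y in (0 : ℝ)..1, g y ^ 2) - 2 * c * c + c ^ 2 := by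
    have e : ∀ y, (g y - c) ^ 2 = g y ^ 2 - 2 * c * g y + c ^ 2 := fun y => by ring
    simp only [e]
    rw [intervalIntegral.integral_add (i1.sub i2) i3, intervalIntegral.integral_sub i1 i2,
      intervalIntegral.integral_const_mul, intervalIntegral.integral_const, ← hc]
    simp
  nlinarith

lemma A1_sq {f : ℝ → ℝ} (hf : Continuous f) (h2 : Integrable (fun s => f s ^ 2)) :
    Integrable (fun s => A1 f s ^ 2) ∧ ∫ s : ℝ, A1 f s ^ 2 ≤ ∫ s : ℝ, f s ^ 2 := by
  have c2 : Continuous fun s => f s ^ 2 := by fun_prop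
  have hle : ∀ s, A1 f s ^ 2 ≤ A1 (fun s => f s ^ 2) s := by
    intro s
    exact sq_le (g := fun y => f (s + y)) (by fun_prop)
  have i1 := A1_int c2 h2
  have i2 : Integrable (fun s => A1 f s ^ 2) := by
    refine Integrable.mono' i1 (Continuous.aestronglyMeasurable ((A1_cont hf).pow 2)) ?_
    refine Eventually.of_forall fun s => ?_
    rw [Real.norm_eq_abs, abs_of_nonneg (sq_nonneg _)]
    exact hle s
  refine ⟨i2, ?_⟩
  rw [← A1_integral c2 h2]
  exact integral_mono i2 i1 hle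

end AvDX

open AvDX in
theorem prfAvD : AvD := by
  intro f l X hf hi hl hX
  rw [avr_eq, av_eq]
  have c1 := A1_cont hf
  have i1 := A1_int hf hi
  have c2 := B1_cont hl
  have b2 := B1_bound hX
  refine ⟨A1_int c1 i1, B1_cont c2, B1_bound b2, ?_, ?_⟩
  · rw [dual c1 i1 hl hX, dual hf hi c2 b2]
  · intro h2
    obtain ⟨j1, k1⟩ := A1_sq hf h2
    obtain ⟨j2, k2⟩ := A1_sq c1 j1
    exact ⟨j2, k2.trans k1⟩

end Pool.Agent.MultS.LB
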