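import Pool.Agent.Work.MP_b17785_an.LB.Stmts2

set_option autoImplicit false

open MeasureTheory Set Filter Topology

namespace Pool.Agent.MultS.LB

namespace AvrCX

/-- primitive -/
noncomputable def P (f : ℝ → ℝ) (t : ℝ) : ℝ := ∫ x in (0 : ℝ)..t, f x

theorem P_der {f : ℝ → ℝ} (hf : Continuous f) (t : ℝ) : HasDerivAt (P f) (f t) t :=
  intervalIntegral.integral_hasDerivAt_right (hf.intervalIntegrable _ _)
    hf.stronglyMeasurable.stronglyMeasurableAtFilter hf.continuousAt

theorem P_cont {f : ℝ → ℝ} (hf : Continuous f) : Continuous (P f) :=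
  continuous_iff_continuousAt.2 fun t => (P_der hf t).continuousAt

theorem P_int {f : ℝ → ℝ} (hf : Continuous f) (c : ℝ) :
    ∫ x in (0 : ℝ)..1, f (c + x) = P f (c + 1) - P f c := by
  rw [intervalIntegral.integral_comp_add_left (fun x => f x) c]
  simp only [add_zero]
  unfold P
  rw [intervalIntegral.integral_interval_sub_left (hf.intervalIntegrable _ _)
    (hf.intervalIntegrable _ _)]

/-- second difference -/
noncomputable def D (h : ℝ → ℝ) (s : ℝ) : ℝ := h (s + 2) - 2 * h (s + 1) + h s

theorem D_der {h h' : ℝ → ℝ} (hd : ∀ t, HasDerivAt h (h' t) t) (s : ℝ) :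
    HasDerivAt (D h) (D h' s) s := by
  have e1 : HasDerivAt (fun t => h (t + 2)) (h' (s + 2)) s := by
    simpa using (hd (s + 2)).comp_add_const s 2
  have e2 : HasDerivAt (fun t => h (t + 1)) (h' (s + 1)) s := by
    simpa using (hd (s + 1)).comp_add_const s 1
  exact (e1.sub (e2.const_mul 2)).add (hd s)

theorem avr_eq {f : ℝ → ℝ} (hf : Continuous f) : avr f = D (P (P f)) := by
  funext s
  unfold avr D
  have e1 : ∀ x : ℝ, ∫ y in (0 : ℝ)..1, f (s + x + y) = P f (s + x + 1) - P f (s + x) :=
    fun x => P_int hf (s + x)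
  simp only [e1]
  have hP := P_cont hf
  have hi1 : Continuous (fun x : ℝ => P f (s + x + 1)) :=
    hP.comp (by fun_prop : Continuous fun x : ℝ => s + x + 1)
  have hi2 : Continuous (fun x : ℝ => P f (s + x)) :=
    hP.comp (by fun_prop : Continuous fun x : ℝ => s + x)
  rw [intervalIntegral.integral_sub (hi1.intervalIntegrable _ _) (hi2.intervalIntegrable _ _)]
  have e2 : ∫ x in (0 : ℝ)..1, P f (s + x + 1) = P (P f) (s + 2) - P (P f) (s + 1) := by
    have := P_int hP (s + 1)
    rw [show s + 2 = s + 1 + 1 by ring, ← this]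
    refine intervalIntegral.integral_congr fun x _ => ?_
    show P f (s + x + 1) = P f (s + 1 + x)
    rw [show s + x + 1 = s + 1 + x by ring]
  rw [e2, P_int hP s]
  ring

theorem D_cont {h : ℝ → ℝ} (hh : Continuous h) : Continuous (D h) := by
  unfold D
  fun_prop

end AvrCX

open AvrCX in
theorem prfAvrC : AvrC := by
  intro f B hf hB
  have h1 : ∀ t, HasDerivAt (P (P f)) (P f t) t := P_der (P_cont hf)
  have h2 : ∀ t, HasDerivAt (P f) (f t) t := P_der hf
  have d1 : deriv (avr f) = D (P f) := by
    rw [avr_eq hf]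
    funext s
    exact (D_der h1 s).deriv
  have d2 : deriv (deriv (avr f)) = D f := by
    rw [d1]
    funext s
    exact (D_der h2 s).deriv
  have hD1 : ∀ s : ℝ, deriv (avr f) s = ∫ x in (0 : ℝ)..1, (f (s + x + 1) - f (s + x)) := by
    intro s
    rw [d1]
    have hi1 : Continuous (fun x : ℝ => f (s + x + 1)) :=
      hf.comp (by fun_prop : Continuous fun x : ℝ => s + x + 1)
    have hi2 : Continuous (fun x : ℝ => f (s + x)) :=
      hf.comp (by fun_prop : Continuous fun x : ℝ => s + x)
    rw [intervalIntegral.integral_sub (hi1.intervalIntegrable _ _) (hi2.intervalIntegrable _ _)]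
    have e2 : ∫ x in (0 : ℝ)..1, f (s + x + 1) = P f (s + 2) - P f (s + 1) := by
      have := P_int hf (s + 1)
      rw [show s + 2 = s + 1 + 1 by ring, ← this]
      refine intervalIntegral.integral_congr fun x _ => ?_
      show f (s + x + 1) = f (s + 1 + x)
      rw [show s + x + 1 = s + 1 + x by ring]
    rw [e2, P_int hf s]
    unfold D
    ring
  have hD2 : ∀ s : ℝ, deriv (deriv (avr f)) s = f (s + 2) - 2 * f (s + 1) + f s := by
    intro s
    rw [d2]
    rfl
  refine ⟨?_, hD1, hD2, ?_, ?_, ?_⟩
  · have hc1 : ContDiff ℝ 1 (deriv (avr f)) := by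
      rw [contDiff_one_iff_deriv]
      refine ⟨?_, ?_⟩
      · rw [d1]
        exact fun s => (D_der h2 s).differentiableAt
      · rw [d2]
        exact D_cont hf
    rw [show (2 : WithTop ℕ∞) = 1 + 1 by norm_num, contDiff_succ_iff_deriv]
    refine ⟨?_, by simp, hc1⟩
    rw [avr_eq hf]
    exact fun s => (D_der h1 s).differentiableAt
  · intro s
    unfold avr
    have hB0 : ∀ x : ℝ, ‖∫ y in (0 : ℝ)..1, f (s + x + y)‖ ≤ B := by
      intro x
      have := intervalIntegral.norm_integral_le_of_norm_le_const (a := (0 : ℝ)) (b := 1) (C := B)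
        (f := fun y => f (s + x + y)) (fun y _ => by simpa using hB (s + x + y))
      simpa using this
    have := intervalIntegral.norm_integral_le_of_norm_le_const (a := (0 : ℝ)) (b := 1) (C := B)
      (f := fun x => ∫ y in (0 : ℝ)..1, f (s + x + y)) (fun x _ => hB0 x)
    simpa using this
  · intro s
    rw [hD1]
    have := intervalIntegral.norm_integral_le_of_norm_le_const (a := (0 : ℝ)) (b := 1) (C := 2 * B)
      (f := fun x => f (s + x + 1) - f (s + x)) (fun x _ => by
        refine (norm_sub_le _ _).trans ?_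
        have e1 := hB (s + x + 1)
        have e2 := hB (s + x)
        rw [Real.norm_eq_abs, Real.norm_eq_abs]
        linarith)
    simpa using this
  · intro s
    rw [hD2]
    have e1 := abs_le.1 (hB (s + 2))
    have e2 := abs_le.1 (hB (s + 1))
    have e3 := abs_le.1 (hB s)
    rw [abs_le]
    constructor <;> linarith [e1.1, e1.2, e2.1, e2.2, e3.1, e3.2]

end Pool.Agent.MultS.LB
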