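import Pool.Agent.Work.MP_b17785_an.LB.Stmts2
import Pool.Agent.Work.MP_b17785_an.Bd.B07

/-!
# [E3] The function `(1 + psi² e^{-2s})^{-3/2}`
-/

set_option autoImplicit false

open Complex Metric Set Filter Topology MeasureTheory
open Pool.Agent.MultS.Lip

namespace Pool.Agent.MultS.LB

namespace Ell3X

/-- The function of `Y`. -/
noncomputable def hh (Y : ℂ) : ℂ := (1 + Y) ^ (-(3 / 2) : ℂ)

/-- The weight. -/
noncomputable def jj (c v : ℂ) : ℝ := ((1 + ‖v‖) ^ 3)⁻¹ * (1 + ‖v - c‖ ^ (-(3 / 2) : ℝ))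

lemma one_mem : (1 : ℂ) ∈ Hp := by
  show 0 < (1 : ℂ).re
  rw [Complex.one_re]; exact one_pos

lemma one_add_sq_ne {v : ℂ} (hv : v ∈ Hp) : 1 + v ^ 2 ≠ 0 := by
  intro h
  have hv' : 0 < v.re := hv
  have h1 := congrArg Complex.im h
  have h2 := congrArg Complex.re h
  simp only [Complex.add_im, Complex.one_im, Complex.add_re, Complex.one_re, Complex.zero_im,
    Complex.zero_re, pow_two, Complex.mul_im, Complex.mul_re] at h1 h2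
  have h3 : v.im = 0 := by
    have : 2 * v.re * v.im = 0 := by linarith
    rcases mul_eq_zero.1 this with h4 | h4
    · linarith
    · exact h4
  rw [h3] at h2
  nlinarith

lemma ne_zero {v : ℂ} (hv : v ∈ Hp) : v ≠ 0 := by
  rintro rfl
  have hv' : 0 < (0 : ℂ).re := hv
  simp at hv'

lemma mo_diff (y₁ : ℂ) : DifferentiableOn ℂ (mo y₁) Hp := by
  intro v hv
  unfold mo
  have h1 : DifferentiableAt ℂ (fun y : ℂ => (y ^ 2 - y₁ ^ 2) * (1 + y₁ ^ 2)) v := by fun_prop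
  have h2 : DifferentiableAt ℂ (fun y : ℂ => 1 + y ^ 2) v := by fun_prop
  exact (h1.div h2 (one_add_sq_ne hv)).differentiableWithinAt

lemma sq_slit {v : ℂ} (hv : v ∈ Hp) : v ^ 2 ∈ slitPlane := by
  have hv' : 0 < v.re := hv
  rw [Complex.mem_slitPlane_iff]
  by_cases h : v.im = 0
  · left
    rw [pow_two, Complex.mul_re, h]
    nlinarith
  · right
    rw [pow_two, Complex.mul_im]
    intro h1
    have : v.re * v.im = 0 := by linarith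
    rcases mul_eq_zero.1 this with h2 | h2
    · linarith
    · exact h h2

lemma one_add_slit {Y : ℂ} (h : -1 < Y.re) : 1 + Y ∈ slitPlane := by
  rw [Complex.mem_slitPlane_iff]
  left
  rw [Complex.add_re, Complex.one_re]
  linarith

lemma norm_cpow {x : ℂ} (h : x ≠ 0) : ‖x ^ (-(3 / 2) : ℂ)‖ = ‖x‖ ^ (-(3 / 2) : ℝ) := by
  have e : (-(3 / 2) : ℂ) = ((-(3 / 2) : ℝ) : ℂ) := by norm_num
  rw [e, Complex.norm_cpow_of_ne_zero h]
  simp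

lemma hh_diff : DifferentiableOn ℂ hh {Y : ℂ | -(1 / 2) < Y.re ∧ ‖Y‖ < 4} := by
  intro Y hY
  unfold hh
  have h1 : DifferentiableAt ℂ (fun Y : ℂ => 1 + Y) Y := by fun_prop
  exact (h1.cpow (differentiableAt_const _)
    (one_add_slit (by linarith [hY.1]))).differentiableWithinAt

lemma hh_le {Y : ℂ} (h : -(1 / 2) < Y.re) : ‖hh Y‖ ≤ 3 := by
  have h0 : 1 + Y ≠ 0 := Complex.slitPlane_ne_zero (one_add_slit (by linarith))
  unfold hh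
  rw [norm_cpow h0]
  have h1 : 1 / 2 ≤ ‖1 + Y‖ := by
    have h2 : (1 + Y).re ≤ ‖1 + Y‖ := Complex.re_le_norm _
    rw [Complex.add_re, Complex.one_re] at h2
    linarith
  calc ‖1 + Y‖ ^ (-(3 / 2) : ℝ) ≤ (1 / 2 : ℝ) ^ (-(3 / 2) : ℝ) :=
        Real.rpow_le_rpow_of_nonpos (by norm_num) h1 (by norm_num)
    _ ≤ 3 := by
        have e : (1 / 2 : ℝ) ^ (-(3 / 2) : ℝ) = (2 : ℝ) ^ (3 / 2 : ℝ) := by
          rw [one_div, Real.inv_rpow (by norm_num), ← Real.rpow_neg (by norm_num), neg_neg]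
        rw [e]
        have h3 : ((2 : ℝ) ^ (3 / 2 : ℝ)) ^ 2 = 8 := by
          rw [← Real.rpow_natCast, ← Real.rpow_mul (by norm_num)]
          norm_num
        have h4 : 0 < (2 : ℝ) ^ (3 / 2 : ℝ) := by positivity
        nlinarith

/-- `v²` to the power `-3/2` has norm `‖v‖⁻³`. -/
lemma norm_cube {v : ℂ} (hv : v ∈ Hp) : ‖(v ^ 2) ^ (-(3 / 2) : ℂ)‖ = (‖v‖ ^ 3)⁻¹ := by
  have h0 := ne_zero hv
  have h1 : 0 < ‖v‖ := norm_pos_iff.2 h0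
  rw [norm_cpow (pow_ne_zero 2 h0), norm_pow, ← Real.rpow_natCast, ← Real.rpow_mul h1.le]
  rw [show ((2 : ℕ) : ℝ) * (-(3 / 2)) = -(3 : ℕ) by norm_num, Real.rpow_neg h1.le,
    Real.rpow_natCast]

/-- `x⁻¹ ≤ 1 + x^{-3/2}`. -/
lemma inv_le {x : ℝ} (hx : 0 < x) : x⁻¹ ≤ 1 + x ^ (-(3 / 2) : ℝ) := by
  have h0 : 0 < x ^ (-(3 / 2) : ℝ) := by positivity
  rcases le_total 1 x with h | h
  · have : x⁻¹ ≤ 1 := inv_le_one_of_one_le₀ h
    linarith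
  · have h1 : x ^ (-1 : ℝ) ≤ x ^ (-(3 / 2) : ℝ) :=
      Real.rpow_le_rpow_of_exponent_ge hx h (by norm_num)
    rw [Real.rpow_neg_one] at h1
    linarith

lemma inv_quad {v : ℂ} (hv : v ∈ Hp) : ‖1 + v ^ 2‖⁻¹ ≤
    (1 + ‖v - I‖ ^ (-(3 / 2) : ℝ)) + (1 + ‖v - (-I)‖ ^ (-(3 / 2) : ℝ)) := by
  have hne := one_add_sq_ne hv
  have e : 1 + v ^ 2 = (v - I) * (v - (-I)) := by
    have : (v - I) * (v - (-I)) = v ^ 2 - I ^ 2 := by ring
    rw [this, Complex.I_sq]; ring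
  rw [e] at hne
  have h1 : 0 < ‖v - I‖ := norm_pos_iff.2 (left_ne_zero_of_mul hne)
  have h2 : 0 < ‖v - (-I)‖ := norm_pos_iff.2 (right_ne_zero_of_mul hne)
  have h3 : 2 ≤ ‖v - I‖ + ‖v - (-I)‖ := by
    have h4 : ‖(v - (-I)) - (v - I)‖ = 2 := by
      have : (v - (-I)) - (v - I) = 2 * I := by ring
      rw [this, norm_mul, Complex.norm_I, mul_one]
      norm_num
    have h5 := norm_sub_le (v - (-I)) (v - I)
    linarith
  rw [e, norm_mul, mul_inv]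
  have k1 := inv_le h1
  have k2 := inv_le h2
  have p1 : 0 < ‖v - I‖ ^ (-(3 / 2) : ℝ) := by positivity
  have p2 : 0 < ‖v - (-I)‖ ^ (-(3 / 2) : ℝ) := by positivity
  rcases le_total 1 ‖v - I‖ with h | h
  · have : ‖v - I‖⁻¹ ≤ 1 := inv_le_one_of_one_le₀ h
    have h6 : ‖v - I‖⁻¹ * ‖v - (-I)‖⁻¹ ≤ 1 * ‖v - (-I)‖⁻¹ :=
      mul_le_mul_of_nonneg_right this (by positivity)
    linarith
  · have h7 : 1 ≤ ‖v - (-I)‖ := by linarith
    have : ‖v - (-I)‖⁻¹ ≤ 1 := inv_le_one_of_one_le₀ h7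
    have h6 : ‖v - I‖⁻¹ * ‖v - (-I)‖⁻¹ ≤ ‖v - I‖⁻¹ * 1 :=
      mul_le_mul_of_nonneg_left this (by positivity)
    linarith

lemma mo_le {y₁ v : ℂ} (hy : ‖y₁ ^ 2‖ ≤ 2) (hv : v ∈ Hp) :
    ‖mo y₁ v‖ ≤ 3 + 9 * ‖1 + v ^ 2‖⁻¹ := by
  have hne := one_add_sq_ne hv
  have e : mo y₁ v = (1 + y₁ ^ 2) - (1 + y₁ ^ 2) ^ 2 / (1 + v ^ 2) := by
    unfold mo
    field_simp
    ring
  have h1 : ‖1 + y₁ ^ 2‖ ≤ 3 := by
    have := norm_add_le (1 : ℂ) (y₁ ^ 2)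
    rw [norm_one] at this
    linarith
  rw [e]
  refine (norm_sub_le _ _).trans ?_
  rw [norm_div, norm_pow, div_eq_mul_inv]
  have h2 : ‖1 + y₁ ^ 2‖ ^ 2 ≤ 9 := by
    have := norm_nonneg (1 + y₁ ^ 2)
    nlinarith
  have h3 : 0 ≤ ‖1 + v ^ 2‖⁻¹ := by positivity
  have h4 := mul_le_mul_of_nonneg_right h2 h3
  linarith

/-- The pointwise estimate. -/
lemma pt {v p m : ℂ} {D : ℝ} (hD : 0 ≤ D) (hv : v ∈ Hp)
    (hp : ‖p‖ ≤ (‖v‖ ^ 3)⁻¹ + 1 + D * ‖m‖) (hm : ‖m‖ ≤ 3 + 9 * ‖1 + v ^ 2‖⁻¹) :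
    ‖p‖ * ‖v - I * ((0 : ℝ) : ℂ)‖ ^ 2 / (1 + ‖v‖) ^ 6 ≤
      (2 + 12 * D) * (jj 0 v + jj I v + jj (-I) v) := by
  have e0 : v - I * ((0 : ℝ) : ℂ) = v := by simp
  rw [e0]
  unfold jj
  have h1 : 0 < ‖v‖ := norm_pos_iff.2 (ne_zero hv)
  have hq := inv_quad hv
  have hi := inv_le h1
  rw [sub_zero]
  set x : ℝ := ‖v‖ with hx
  set a : ℝ := 1 + x ^ (-(3 / 2) : ℝ) with ha
  set b : ℝ := 1 + ‖v - I‖ ^ (-(3 / 2) : ℝ) with hb
  set c : ℝ := 1 + ‖v - (-I)‖ ^ (-(3 / 2) : ℝ) with hc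
  set q : ℝ := ‖1 + v ^ 2‖⁻¹ with hqq
  have a1 : 1 ≤ a := by
    have : 0 < x ^ (-(3 / 2) : ℝ) := by positivity
    linarith
  have b1 : 1 ≤ b := by
    have : 0 ≤ ‖v - I‖ ^ (-(3 / 2) : ℝ) := by positivity
    linarith
  have c1 : 1 ≤ c := by
    have : 0 ≤ ‖v - (-I)‖ ^ (-(3 / 2) : ℝ) := by positivity
    linarith
  have q0 : 0 ≤ q := by positivity
  have hs : (0 : ℝ) < (1 + x) ^ 3 := by positivity
  have hm2 : D * ‖m‖ ≤ D * (3 + 9 * q) := mul_le_mul_of_nonneg_left hm hD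
  -- `‖p‖ x² ≤ x⁻¹ + (1+x)³ (...)`
  have h2 : ‖p‖ * x ^ 2 ≤ (1 + x) ^ 3 * (x⁻¹ + 1 + D * (3 + 9 * q)) := by
    have h3 : ‖p‖ * x ^ 2 ≤ ((x ^ 3)⁻¹ + 1 + D * (3 + 9 * q)) * x ^ 2 :=
      mul_le_mul_of_nonneg_right (by linarith) (by positivity)
    have h4 : (x ^ 3)⁻¹ * x ^ 2 = x⁻¹ := by
      field_simp
    have h5 : x ^ 2 ≤ (1 + x) ^ 3 := by nlinarith [pow_pos h1 3, pow_pos h1 2]
    have h6 : (1 : ℝ) ≤ (1 + x) ^ 3 := one_le_pow₀ (by linarith)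
    have h7 : x⁻¹ ≤ (1 + x) ^ 3 * x⁻¹ := by
      have : 0 ≤ x⁻¹ := by positivity
      nlinarith
    have h8 : (1 + D * (3 + 9 * q)) * x ^ 2 ≤ (1 + D * (3 + 9 * q)) * (1 + x) ^ 3 :=
      mul_le_mul_of_nonneg_left h5 (by positivity)
    calc ‖p‖ * x ^ 2 ≤ ((x ^ 3)⁻¹ + 1 + D * (3 + 9 * q)) * x ^ 2 := h3
      _ = (x ^ 3)⁻¹ * x ^ 2 + (1 + D * (3 + 9 * q)) * x ^ 2 := by ring
      _ = x⁻¹ + (1 + D * (3 + 9 * q)) * x ^ 2 := by rw [h4]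
      _ ≤ (1 + x) ^ 3 * x⁻¹ + (1 + D * (3 + 9 * q)) * (1 + x) ^ 3 := add_le_add h7 h8
      _ = _ := by ring
  have h9 : x⁻¹ + 1 + D * (3 + 9 * q) ≤ (2 + 12 * D) * (a + b + c) := by
    have k1 : D * (3 + 9 * q) ≤ D * (12 * (a + b + c)) := by
      apply mul_le_mul_of_nonneg_left _ hD
      linarith
    have k2 : x⁻¹ + 1 ≤ 2 * (a + b + c) := by linarith
    calc x⁻¹ + 1 + D * (3 + 9 * q) ≤ 2 * (a + b + c) + D * (12 * (a + b + c)) := add_le_add k2 k1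
      _ = _ := by ring
  rw [div_le_iff₀ (by positivity)]
  calc ‖p‖ * x ^ 2 ≤ (1 + x) ^ 3 * (x⁻¹ + 1 + D * (3 + 9 * q)) := h2
    _ ≤ (1 + x) ^ 3 * ((2 + 12 * D) * (a + b + c)) := mul_le_mul_of_nonneg_left h9 hs.le
    _ = (2 + 12 * D) * (((1 + x) ^ 3)⁻¹ * a + ((1 + x) ^ 3)⁻¹ * b + ((1 + x) ^ 3)⁻¹ * c) *
        (1 + x) ^ 6 := by
      field_simp

lemma jj_meas (c : ℂ) : Measurable (jj c) := by
  unfold jj
  fun_prop

lemma jj_nonneg (c v : ℂ) : 0 ≤ jj c v := by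
  unfold jj
  positivity

lemma jint {C₂ K : ℝ} (hC : 0 < C₂) (hK : 0 ≤ K)
    (hJ : ∀ c : ℂ, ∫⁻ y : ℂ, ENNReal.ofReal
    (((1 + ‖y‖) ^ 3)⁻¹ * (1 + ‖y - c‖ ^ (-(3 / 2) : ℝ))) ≤ ENNReal.ofReal C₂) :
    ∫⁻ v in Hp, ENNReal.ofReal (K * (jj 0 v + jj I v + jj (-I) v)) ≤
      ENNReal.ofReal (3 * K * C₂) := by
  have hJ' : ∀ c : ℂ, ∫⁻ y : ℂ, ENNReal.ofReal (jj c y) ≤ ENNReal.ofReal C₂ := hJ
  have hm : ∀ c : ℂ, Measurable (fun v : ℂ => ENNReal.ofReal (jj c v)) := fun c =>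
    (jj_meas c).ennreal_ofReal
  have hs : Measurable (fun v : ℂ => ENNReal.ofReal (jj 0 v) + ENNReal.ofReal (jj I v) +
      ENNReal.ofReal (jj (-I) v)) := ((hm 0).add (hm I)).add (hm (-I))
  calc ∫⁻ v in Hp, ENNReal.ofReal (K * (jj 0 v + jj I v + jj (-I) v))
      ≤ ∫⁻ v, ENNReal.ofReal (K * (jj 0 v + jj I v + jj (-I) v)) := setLIntegral_le_lintegral _ _
    _ = ∫⁻ v, ENNReal.ofReal K * (ENNReal.ofReal (jj 0 v) + ENNReal.ofReal (jj I v) +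
        ENNReal.ofReal (jj (-I) v)) := by
        apply lintegral_congr
        intro v
        rw [ENNReal.ofReal_mul hK, ENNReal.ofReal_add (add_nonneg (jj_nonneg _ _) (jj_nonneg _ _))
          (jj_nonneg _ _), ENNReal.ofReal_add (jj_nonneg _ _) (jj_nonneg _ _)]
    _ = ENNReal.ofReal K * ((∫⁻ v, ENNReal.ofReal (jj 0 v)) + (∫⁻ v, ENNReal.ofReal (jj I v)) +
        ∫⁻ v, ENNReal.ofReal (jj (-I) v)) := by
        rw [lintegral_const_mul _ hs,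
          lintegral_add_right _ (hm (-I)), lintegral_add_right _ (hm I)]
    _ ≤ ENNReal.ofReal K * (ENNReal.ofReal C₂ + ENNReal.ofReal C₂ + ENNReal.ofReal C₂) := by
        gcongr
        · exact hJ' 0
        · exact hJ' I
        · exact hJ' (-I)
    _ = ENNReal.ofReal (3 * K * C₂) := by
        rw [← ENNReal.ofReal_add hC.le hC.le, ← ENNReal.ofReal_add (by positivity) hC.le,
          ← ENNReal.ofReal_mul hK]
        congr 1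
        ring

end Ell3X

open Ell3X

theorem prfEll3 (hTM : TM) (hAG : AG) (hUnivC : UnivC) (hZ : ZFl) (hJ : J2) (hLinP : LinP)
    (hUnivB : UnivB) : Ell3 := by
  obtain ⟨C₁, hC₁, hTM⟩ := hTM
  obtain ⟨CA, hCA, hAG⟩ := hAG
  obtain ⟨CU, hCU, hUnivC⟩ := hUnivC
  obtain ⟨C₂, hC₂, hJ⟩ := hJ
  have hTM := hTM hh 3 hh_diff (fun Y h _ => hh_le h)
  set D : ℝ := C₁ * 3 with hD
  have hD0 : 0 ≤ D := by rw [hD]; positivity
  set K : ℝ := 2 + 12 * D with hK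
  have hK0 : 0 ≤ K := by rw [hK]; positivity
  set B : ℝ := D + 3 * K * C₂ with hB
  have hB0 : 0 ≤ B := by rw [hB]; positivity
  have hBD : D ≤ B := by
    rw [hB]
    have : 0 ≤ 3 * K * C₂ := by positivity
    linarith
  have hBK : 3 * K * C₂ ≤ B := by rw [hB]; linarith
  refine ⟨CA * B + D * CU + 1, by positivity, ?_⟩
  intro lam X hPX z hz s hs
  obtain ⟨hX0, -, -⟩ := hUnivB lam X hPX z hz
  obtain ⟨hDrv, hFl⟩ := hZ (s + 1) (by linarith)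
  set κ : ℝ → ℝ := fun _ => 0 with hκ
  set y : ℝ → ℂ → ℂ := fun s W => (1 + W ^ 2 * (Real.exp (-2 * s) : ℂ)) ^ (1 / 2 : ℂ) with hy
  have hsS : s ∈ Icc (0 : ℝ) (s + 1) := ⟨hs, by linarith⟩
  have hysq : ∀ W : ℂ, y s W ^ 2 = 1 + W ^ 2 * (Real.exp (-2 * s) : ℂ) := by
    intro W
    simp only [hy]
    rw [← Complex.cpow_nat_mul]
    norm_num
  set y₁ : ℂ := y s 1 with hy₁
  have hy₁H : y₁ ∈ Hp := hFl.pos s hsS 1 one_mem
  have hy₁sq : y₁ ^ 2 = 1 + (Real.exp (-2 * s) : ℂ) := by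
    rw [hy₁, hysq]; ring
  have hE1 : Real.exp (-2 * s) ≤ 1 := Real.exp_le_one_iff.2 (by linarith)
  have hE0 : 0 < Real.exp (-2 * s) := Real.exp_pos _
  set Y₁ : ℂ := (Real.exp (-2 * s) : ℂ) with hY₁
  have hY₁n : ‖Y₁‖ = Real.exp (-2 * s) := by
    rw [hY₁, Complex.norm_real, Real.norm_eq_abs, abs_of_pos hE0]
  have hY₁r : Y₁.re = Real.exp (-2 * s) := by rw [hY₁, Complex.ofReal_re]
  obtain ⟨hd, htay⟩ := hTM Y₁ (by rw [hY₁r]; linarith) (by rw [hY₁n]; linarith)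
  set d : ℂ := deriv hh Y₁ with hd'
  have hy₁n : ‖y₁ ^ 2‖ ≤ 2 := by
    rw [hy₁sq]
    refine (norm_add_le _ _).trans ?_
    rw [norm_one, hY₁n]
    linarith
  set c₀ : ℂ := hh Y₁ with hc₀
  have hc₀n : ‖c₀‖ ≤ 1 := by
    have h0 : 1 + Y₁ ≠ 0 := Complex.slitPlane_ne_zero (one_add_slit (by rw [hY₁r]; linarith))
    rw [hc₀]
    unfold hh
    rw [norm_cpow h0]
    apply Real.rpow_le_one_of_one_le_of_nonpos _ (by norm_num)
    have h2 : (1 + Y₁).re ≤ ‖1 + Y₁‖ := Complex.re_le_norm _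
    rw [Complex.add_re, Complex.one_re, hY₁r] at h2
    linarith
  set P : ℂ → ℂ := fun v => (v ^ 2) ^ (-(3 / 2) : ℂ) - c₀ - d * mo y₁ v with hP
  have hPd : DifferentiableOn ℂ P Hp := by
    rw [hP]
    refine DifferentiableOn.sub (DifferentiableOn.sub_const ?_ c₀) ((mo_diff y₁).const_mul d)
    intro v hv
    have h1 : DifferentiableAt ℂ (fun v : ℂ => v ^ 2) v := by fun_prop
    exact (h1.cpow (differentiableAt_const _) (sq_slit hv)).differentiableWithinAt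
  have hPl : ∀ v ∈ Hp, ‖v ^ 2 - 1‖ ≤ 1 / 8 → ‖P v‖ ≤ B * ‖v ^ 2 - y s 1 ^ 2‖ ^ 2 := by
    intro v hv hv1
    have hre : -(1 / 4) ≤ (v ^ 2 - 1).re := by
      have := Complex.abs_re_le_norm (v ^ 2 - 1)
      have h2 := neg_abs_le (v ^ 2 - 1).re
      linarith
    have h1 := htay (v ^ 2 - 1) hre (by linarith)
    have e1 : hh (v ^ 2 - 1) = (v ^ 2) ^ (-(3 / 2) : ℂ) := by
      unfold hh
      congr 1
      ring
    have e2 : (v ^ 2 - 1 - Y₁) = v ^ 2 - y₁ ^ 2 := by rw [hy₁sq]; ring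
    have e3 : (v ^ 2 - 1 - Y₁) * (2 + Y₁) / (2 + (v ^ 2 - 1)) = mo y₁ v := by
      unfold mo
      rw [e2, hy₁sq]
      congr 1
      · ring
      · ring
    rw [e1, e3, e2] at h1
    exact h1.trans (mul_le_mul_of_nonneg_right hBD (by positivity))
  have hPi : ∫⁻ v in Hp, ENNReal.ofReal (‖P v‖ * ‖v - I * (κ s : ℂ)‖ ^ 2 / (1 + ‖v‖) ^ 6) ≤
      ENNReal.ofReal B := by
    refine le_trans (lintegral_mono_ae ?_) ((jint hC₂ hK0 hJ).trans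
      (ENNReal.ofReal_le_ofReal hBK))
    have hHm : MeasurableSet Hp := measurableSet_lt measurable_const Complex.measurable_re
    filter_upwards [ae_restrict_mem hHm] with v hv
    apply ENNReal.ofReal_le_ofReal
    refine pt (m := mo y₁ v) hD0 hv ?_ (mo_le hy₁n hv)
    rw [hP]
    calc ‖(v ^ 2) ^ (-(3 / 2) : ℂ) - c₀ - d * mo y₁ v‖
        ≤ ‖(v ^ 2) ^ (-(3 / 2) : ℂ) - c₀‖ + ‖d * mo y₁ v‖ := norm_sub_le _ _
      _ ≤ (‖(v ^ 2) ^ (-(3 / 2) : ℂ)‖ + ‖c₀‖) + ‖d‖ * ‖mo y₁ v‖ := by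
          rw [norm_mul]
          linarith [norm_sub_le ((v ^ 2) ^ (-(3 / 2) : ℂ)) c₀]
      _ ≤ (‖v‖ ^ 3)⁻¹ + 1 + D * ‖mo y₁ v‖ := by
          rw [norm_cube hv]
          have := mul_le_mul_of_nonneg_right hd (norm_nonneg (mo y₁ v))
          linarith
  have hPA := hAG lam X hPX z hz κ (s + 1) y hDrv hFl s hsS P B hB0 hPd hPl hPi
  obtain ⟨hmo, -, -, -⟩ := hUnivC lam X hPX z hz κ (s + 1) y hDrv hFl s hsS
  -- differentiability of the two functions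
  obtain ⟨hcay1, -, hpsi, -, -, -⟩ := prfCay
  have hslit : ∀ W ∈ Hp, 1 + W ^ 2 * (Real.exp (-2 * s) : ℂ) ∈ slitPlane := by
    intro W hW
    rw [← hysq]
    exact sq_slit (hFl.pos s hsS W hW)
  have hyd : DifferentiableOn ℂ (y s) Hp := by
    intro W hW
    have h1 : DifferentiableAt ℂ (fun W : ℂ => 1 + W ^ 2 * (Real.exp (-2 * s) : ℂ)) W := by
      fun_prop
    exact (h1.cpow (differentiableAt_const _) (hslit W hW)).differentiableWithinAt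
  have hyp : DifferentiableOn ℂ (fun ζ => y s (psi ζ)) (ball (0 : ℂ) 1) :=
    hyd.comp hpsi (fun ζ hζ => (hcay1 ζ hζ).1)
  have hmaps : MapsTo (fun ζ => y s (psi ζ)) (ball (0 : ℂ) 1) Hp := fun ζ hζ =>
    hFl.pos s hsS _ (hcay1 ζ hζ).1
  have hd1 : DifferentiableOn ℂ (fun ζ => P (y s (psi ζ))) (ball (0 : ℂ) 1) :=
    DifferentiableOn.comp (g := P) hPd hyp hmaps
  have hd2 : DifferentiableOn ℂ (fun ζ => mo y₁ (y s (psi ζ))) (ball (0 : ℂ) 1) :=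
    DifferentiableOn.comp (g := mo y₁) (mo_diff y₁) hyp hmaps
  obtain ⟨hlin, heq⟩ := hLinP lam hPX.sm z hz
  have h1 := hlin (fun ζ => P (y s (psi ζ))) (fun ζ => mo y₁ (y s (psi ζ))) 1 d c₀ hd1 hd2
  have hd3 : DifferentiableOn ℂ (fun ζ => 1 * P (y s (psi ζ)) + d * mo y₁ (y s (psi ζ)) + c₀)
      (ball (0 : ℂ) 1) :=
    ((hd1.const_mul 1).add (hd2.const_mul d)).add_const c₀
  have h2 := heq (fun ζ => 1 * P (y s (psi ζ)) + d * mo y₁ (y s (psi ζ)) + c₀)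
    (fun ζ => (1 + psi ζ ^ 2 * (Real.exp (-2 * s) : ℂ)) ^ (-(3 / 2) : ℂ)) hd3 (by
      intro ζ _
      show 1 * P (y s (psi ζ)) + d * mo y₁ (y s (psi ζ)) + c₀ =
        (1 + psi ζ ^ 2 * (Real.exp (-2 * s) : ℂ)) ^ (-(3 / 2) : ℂ)
      rw [← hysq (psi ζ), hP]
      ring)
  rw [← h2, h1, one_mul]
  have hE : 0 < Real.exp (2 * s) := Real.exp_pos _
  calc Real.exp (2 * s) * ‖LL lam (fun ζ => P (y s (psi ζ))) z +
        d * LL lam (fun ζ => mo y₁ (y s (psi ζ))) z‖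
      ≤ Real.exp (2 * s) * (‖LL lam (fun ζ => P (y s (psi ζ))) z‖ +
        ‖d‖ * ‖LL lam (fun ζ => mo y₁ (y s (psi ζ))) z‖) := by
        apply mul_le_mul_of_nonneg_left _ hE.le
        refine (norm_add_le _ _).trans ?_
        rw [norm_mul]
    _ = Real.exp (2 * s) * ‖LL lam (fun ζ => P (y s (psi ζ))) z‖ +
        ‖d‖ * (Real.exp (2 * s) * ‖LL lam (fun ζ => mo y₁ (y s (psi ζ))) z‖) := by ring
    _ ≤ CA * X * B + D * (CU * X) := by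
        apply add_le_add hPA
        exact mul_le_mul hd hmo (by positivity) hD0
    _ ≤ (CA * B + D * CU + 1) * X := by linarith

end Pool.Agent.MultS.LB
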