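import Pool.Agent.Work.MP_b17785_an.LB.Stmts

/-!
# Existence of the Loewner flow (item F1)
-/

set_option autoImplicit false

open Complex Metric Set Filter Topology MeasureTheory
open Pool.Agent.MultS.Lip

namespace Pool.Agent.MultS.LB

namespace FlExX

/-- Truncation of the real part. -/
noncomputable def mm (δ : ℝ) (u : ℂ) : ℂ := ⟨max u.re δ, u.im⟩

lemma mm_lip (δ : ℝ) (u v : ℂ) : ‖mm δ u - mm δ v‖ ≤ ‖u - v‖ := by
  have h1 : |max u.re δ - max v.re δ| ≤ |u.re - v.re| := abs_max_sub_max_le_abs _ _ _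
  have e1 : ‖mm δ u - mm δ v‖ ^ 2 = |max u.re δ - max v.re δ| ^ 2 + (u.im - v.im) ^ 2 := by
    rw [← Complex.normSq_eq_norm_sq, Complex.normSq_apply, sq_abs]
    simp only [mm, Complex.sub_re, Complex.sub_im]
    ring
  have e2 : ‖u - v‖ ^ 2 = |u.re - v.re| ^ 2 + (u.im - v.im) ^ 2 := by
    rw [← Complex.normSq_eq_norm_sq, Complex.normSq_apply, sq_abs]
    simp only [Complex.sub_re, Complex.sub_im]
    ring
  have h2 : ‖mm δ u - mm δ v‖ ^ 2 ≤ ‖u - v‖ ^ 2 := by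
    rw [e1, e2]
    have := pow_le_pow_left₀ (abs_nonneg _) h1 2
    linarith
  exact le_of_sq_le_sq h2 (norm_nonneg _)

/-- The denominator. -/
noncomputable def dn (κ : ℝ → ℝ) (δ s : ℝ) (u : ℂ) : ℂ :=
  mm δ u - I * ((Real.exp s * κ s : ℝ) : ℂ)

lemma dn_re (κ : ℝ → ℝ) (δ s : ℝ) (u : ℂ) : (dn κ δ s u).re = max u.re δ := by
  have h : (I * ((Real.exp s * κ s : ℝ) : ℂ)).re = 0 := by
    rw [Complex.I_mul_re, Complex.ofReal_im]
    simp
  rw [dn, Complex.sub_re, h]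
  simp [mm]

lemma dn_norm {κ : ℝ → ℝ} {δ s : ℝ} (u : ℂ) : δ ≤ ‖dn κ δ s u‖ :=
  calc δ ≤ max u.re δ := le_max_right _ _
    _ = (dn κ δ s u).re := (dn_re _ _ _ _).symm
    _ ≤ ‖dn κ δ s u‖ := Complex.re_le_norm _

lemma dn_ne {κ : ℝ → ℝ} {δ s : ℝ} (hδ : 0 < δ) (u : ℂ) : dn κ δ s u ≠ 0 := by
  rw [← norm_pos_iff]
  exact lt_of_lt_of_le hδ (dn_norm u)

/-- The vector field. -/
noncomputable def ff (κ : ℝ → ℝ) (δ s : ℝ) (u : ℂ) : ℂ := (Real.exp (2 * s) : ℂ) / dn κ δ s u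

lemma nexp (x : ℝ) : ‖(Real.exp x : ℂ)‖ = Real.exp x := by
  rw [Complex.norm_real, Real.norm_of_nonneg (Real.exp_pos x).le]

lemma ff_norm {κ : ℝ → ℝ} {δ s S : ℝ} (hδ : 0 < δ) (hs : s ≤ S) (u : ℂ) :
    ‖ff κ δ s u‖ ≤ Real.exp (2 * S) / δ := by
  rw [ff, norm_div, nexp]
  exact div_le_div₀ (Real.exp_pos _).le (Real.exp_le_exp.2 (by linarith)) hδ (dn_norm u)

lemma ff_lip {κ : ℝ → ℝ} {δ s S : ℝ} (hδ : 0 < δ) (hs : s ≤ S) (u v : ℂ) :
    ‖ff κ δ s u - ff κ δ s v‖ ≤ Real.exp (2 * S) / δ ^ 2 * ‖u - v‖ := by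
  have e : ff κ δ s u - ff κ δ s v =
      (Real.exp (2 * s) : ℂ) * (mm δ v - mm δ u) / (dn κ δ s u * dn κ δ s v) := by
    have h1 := dn_ne (κ := κ) (s := s) hδ u
    have h2 := dn_ne (κ := κ) (s := s) hδ v
    have h3 : mm δ v - mm δ u = dn κ δ s v - dn κ δ s u := by rw [dn, dn]; ring
    rw [ff, ff, h3]
    field_simp
  rw [e, norm_div, norm_mul, norm_mul, nexp]
  have h1 := dn_norm (κ := κ) (s := s) (δ := δ) u
  have h2 := dn_norm (κ := κ) (s := s) (δ := δ) v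
  have h3 : δ ^ 2 ≤ ‖dn κ δ s u‖ * ‖dn κ δ s v‖ := by
    rw [sq]
    exact mul_le_mul h1 h2 hδ.le (norm_nonneg _)
  have h4 : ‖mm δ v - mm δ u‖ ≤ ‖u - v‖ := by
    rw [norm_sub_rev u v]
    exact mm_lip _ _ _
  have h5 : Real.exp (2 * s) * ‖mm δ v - mm δ u‖ ≤ Real.exp (2 * S) * ‖u - v‖ :=
    mul_le_mul (Real.exp_le_exp.2 (by linarith)) h4 (norm_nonneg _) (Real.exp_pos _).le
  calc _ ≤ Real.exp (2 * S) * ‖u - v‖ / δ ^ 2 :=
        div_le_div₀ (by positivity) h5 (by positivity) h3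
    _ = _ := by ring

lemma ff_cont {κ : ℝ → ℝ} {δ : ℝ} (hκ : Continuous κ) (hδ : 0 < δ) (u : ℂ) :
    Continuous (fun s => ff κ δ s u) := by
  unfold ff
  refine Continuous.div (by fun_prop) ?_ (fun s => dn_ne hδ u)
  unfold dn
  fun_prop

lemma ff_re {κ : ℝ → ℝ} {δ s : ℝ} (hδ : 0 < δ) (u : ℂ) : 0 ≤ (ff κ δ s u).re := by
  rw [ff, Complex.div_re, Complex.ofReal_re, Complex.ofReal_im, dn_re]
  have h : 0 ≤ max u.re δ := le_trans hδ.le (le_max_right _ _)
  have h2 : 0 ≤ Complex.normSq (dn κ δ s u) := Complex.normSq_nonneg _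
  have h3 : 0 ≤ Real.exp (2 * s) := (Real.exp_pos _).le
  simp only [zero_mul, zero_div, add_zero]
  positivity

/-- The flow through one point. -/
lemma one {κ : ℝ → ℝ} {S : ℝ} (hκ : Continuous κ) (hS : 0 ≤ S) {u₀ : ℂ} (hu : 0 < u₀.re) :
    ∃ u : ℝ → ℂ, u 0 = u₀ ∧ ∀ s ∈ Icc (0 : ℝ) S, 0 < (u s).re ∧
      HasDerivWithinAt u ((Real.exp (2 * s) : ℂ) / (u s - I * ((Real.exp s * κ s : ℝ) : ℂ)))
        (Icc 0 S) s := by
  set δ := u₀.re with hδd
  have hE : 0 < Real.exp (2 * S) := Real.exp_pos _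
  have hPL : IsPicardLindelof (ff κ δ) (tmin := 0) (tmax := S) ⟨0, left_mem_Icc.2 hS⟩ u₀
      ⟨Real.exp (2 * S) / δ * S, by positivity⟩ 0 ⟨Real.exp (2 * S) / δ, by positivity⟩
      ⟨Real.exp (2 * S) / δ ^ 2, by positivity⟩ := by
    constructor
    · intro t ht
      refine LipschitzOnWith.of_dist_le_mul ?_
      intro x _ y _
      rw [dist_eq_norm, dist_eq_norm]
      exact ff_lip hu ht.2 x y
    · intro x _
      exact (ff_cont hκ hu x).continuousOn
    · intro t ht x _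
      exact ff_norm hu ht.2 x
    · have h : max (S - 0) ((0 : ℝ) - 0) = S := by
        rw [sub_zero, sub_zero]
        exact max_eq_left hS
      rw [h, NNReal.coe_zero, sub_zero]
      exact le_refl _
  obtain ⟨u, hu0, hd⟩ := hPL.exists_eq_forall_mem_Icc_hasDerivWithinAt₀
  have hcont : ContinuousOn u (Icc 0 S) := fun s hs => (hd s hs).continuousWithinAt
  have hmono : MonotoneOn (fun s => (u s).re) (Icc 0 S) := by
    have hre : ∀ s ∈ Ioo (0 : ℝ) S, HasDerivAt (fun s => (u s).re) (ff κ δ s (u s)).re s := by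
      intro s hs
      have h := (hd s (Ioo_subset_Icc_self hs)).hasDerivAt (Icc_mem_nhds hs.1 hs.2)
      have h2 := (Complex.reCLM.hasFDerivAt (x := u s)).comp_hasDerivAt s h
      exact h2
    refine monotoneOn_of_deriv_nonneg (convex_Icc 0 S)
      (Complex.continuous_re.comp_continuousOn hcont) ?_ ?_
    · intro s hs
      rw [interior_Icc] at hs
      exact (hre s hs).differentiableAt.differentiableWithinAt
    · intro s hs
      rw [interior_Icc] at hs
      rw [(hre s hs).deriv]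
      exact ff_re hu _
  refine ⟨u, hu0, fun s hs => ?_⟩
  have h1 : δ ≤ (u s).re := by
    have := hmono (left_mem_Icc.2 hS) hs hs.1
    simp only at this
    rw [hu0] at this
    exact this
  refine ⟨lt_of_lt_of_le hu h1, ?_⟩
  have h2 : mm δ (u s) = u s := by
    apply Complex.ext
    · exact max_eq_left h1
    · rfl
  have h3 := hd s hs
  rw [ff, dn, h2] at h3
  exact h3

/-- The initial value. -/
lemma ini {W : ℂ} (hW : W ∈ Hp) : ∃ u₀ : ℂ, 0 < u₀.re ∧ u₀ ^ 2 = 1 + W ^ 2 := by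
  have hW' : 0 < W.re := hW
  have hs : 1 + W ^ 2 ∈ Complex.slitPlane := by
    rw [Complex.mem_slitPlane_iff]
    by_cases h : W.im = 0
    · left
      have : (1 + W ^ 2).re = 1 + W.re ^ 2 - W.im ^ 2 := by
        rw [sq, Complex.add_re, Complex.mul_re, Complex.one_re]; ring
      rw [this, h]
      have := sq_nonneg W.re
      linarith
    · right
      have : (1 + W ^ 2).im = 2 * W.re * W.im := by
        rw [sq, Complex.add_im, Complex.mul_im, Complex.one_im]; ring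
      rw [this]
      exact mul_ne_zero (by positivity) h
  have hne : 1 + W ^ 2 ≠ 0 := Complex.slitPlane_ne_zero hs
  have harg := (Complex.mem_slitPlane_iff_arg.mp hs).1
  refine ⟨Complex.exp (Complex.log (1 + W ^ 2) / 2), ?_, ?_⟩
  · rw [Complex.exp_re]
    refine mul_pos (Real.exp_pos _) ?_
    have h2 : (Complex.log (1 + W ^ 2) / 2).im = (1 + W ^ 2).arg / 2 := by
      simp [Complex.log_im]
    rw [h2]
    apply Real.cos_pos_of_mem_Ioo
    constructor
    · have := Complex.neg_pi_lt_arg (1 + W ^ 2)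
      linarith
    · have := lt_of_le_of_ne (Complex.arg_le_pi (1 + W ^ 2)) harg
      linarith
  · rw [← Complex.exp_nat_mul]
    have : ((2 : ℕ) : ℂ) * (Complex.log (1 + W ^ 2) / 2) = Complex.log (1 + W ^ 2) := by
      push_cast; ring
    rw [this, Complex.exp_log hne]

/-- The flow through one point in the original form. -/
lemma fl1 {κ : ℝ → ℝ} {S : ℝ} (hκ : Continuous κ) (hS : 0 ≤ S) {W : ℂ} (hW : W ∈ Hp) :
    ∃ v : ℝ → ℂ, v 0 ^ 2 = 1 + W ^ 2 ∧ ∀ s ∈ Icc (0 : ℝ) S, 0 < (v s).re ∧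
      HasDerivWithinAt v (1 / (v s - I * (κ s : ℂ)) - v s) (Icc 0 S) s := by
  obtain ⟨u₀, hu, hu2⟩ := ini hW
  obtain ⟨u, hu0, hd⟩ := one hκ hS hu
  refine ⟨fun s => (Real.exp (-s) : ℂ) * u s, ?_, fun s hs => ?_⟩
  · simp only [neg_zero, Real.exp_zero, Complex.ofReal_one, one_mul]
    rw [hu0, hu2]
  · obtain ⟨hp, hds⟩ := hd s hs
    refine ⟨?_, ?_⟩
    · rw [Complex.re_ofReal_mul]
      exact mul_pos (Real.exp_pos _) hp
    · have he : HasDerivWithinAt (fun s : ℝ => (Real.exp (-s) : ℂ)) (-(Real.exp (-s) : ℂ))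
          (Icc 0 S) s := by
        have h1 : HasDerivAt (fun s : ℝ => Real.exp (-s)) (Real.exp (-s) * -1) s :=
          (hasDerivAt_neg s).exp
        have h2 := h1.ofReal_comp
        have h3 : ((Real.exp (-s) * -1 : ℝ) : ℂ) = -(Real.exp (-s) : ℂ) := by push_cast; ring
        rw [h3] at h2
        exact h2.hasDerivWithinAt
      have h := he.mul hds
      refine h.congr_deriv ?_
      have hE : (Real.exp (-s) : ℂ) * (Real.exp s : ℂ) = 1 := by
        rw [← Complex.ofReal_mul, ← Real.exp_add]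
        simp
      have hE2 : (Real.exp (2 * s) : ℂ) = (Real.exp s : ℂ) * (Real.exp s : ℂ) := by
        rw [← Complex.ofReal_mul, ← Real.exp_add]
        ring_nf
      have hne : u s - I * ((Real.exp s * κ s : ℝ) : ℂ) ≠ 0 := by
        intro h0
        have h1 : (u s - I * ((Real.exp s * κ s : ℝ) : ℂ)).re = (u s).re := by
          rw [Complex.sub_re, Complex.I_mul_re, Complex.ofReal_im]
          simp
        rw [h0] at h1
        simp only [Complex.zero_re] at h1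
        linarith
      have hd2 : (Real.exp (-s) : ℂ) * u s - I * (κ s : ℂ) =
          (Real.exp (-s) : ℂ) * (u s - I * ((Real.exp s * κ s : ℝ) : ℂ)) := by
        rw [Complex.ofReal_mul]
        linear_combination (I * (κ s : ℂ)) * hE
      have hEn : (Real.exp (-s) : ℂ) ≠ 0 := by
        exact_mod_cast (Real.exp_pos (-s)).ne'
      rw [hd2, hE2]
      field_simp
      linear_combination ((Real.exp (-s) : ℂ) * (Real.exp s : ℂ) + 1) * hE

end FlExX

/-- [F1] Existence of the flow. -/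
theorem prfFlEx : FlEx := by
  intro κ S hκ hS
  classical
  have hch : ∀ W : ℂ, ∃ v : ℝ → ℂ, W ∈ Hp → (v 0 ^ 2 = 1 + W ^ 2 ∧
      ∀ s ∈ Icc (0 : ℝ) S, 0 < (v s).re ∧
      HasDerivWithinAt v (1 / (v s - I * (κ s : ℂ)) - v s) (Icc 0 S) s) := by
    intro W
    by_cases hW : W ∈ Hp
    · obtain ⟨v, hv⟩ := FlExX.fl1 hκ hS hW
      exact ⟨v, fun _ => hv⟩
    · exact ⟨fun _ => 0, fun h => absurd h hW⟩
  choose Y hY using hch
  exact ⟨fun s W => Y W s, fun W hW => (hY W hW).1, fun s hs W hW => ((hY W hW).2 s hs).1,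
    fun W hW s hs => ((hY W hW).2 s hs).2⟩

end Pool.Agent.MultS.LB
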