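import Pool.Agent.Work.MP_b17785_an.LB.Stmts

/-!
# The Loewner flow at the point `W = 1`
-/

set_option autoImplicit false

open Complex Metric Set Filter Topology MeasureTheory
open Pool.Agent.MultS.Lip

namespace Pool.Agent.MultS.LB

namespace FlOneX

lemma one_mem : (1 : ℂ) ∈ Hp := by
  change 0 < (1 : ℂ).re
  simp

/-- size of `ν²` -/
lemma nu_sq (hNu : FlNu) {κ : ℝ → ℝ} {S : ℝ} {y : ℝ → ℂ → ℂ} (hκ : Drv κ S) (hy : Fl κ S y)
    {s : ℝ} (hs : s ∈ Icc (0 : ℝ) S) :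
    ‖nu κ y s 1‖ ^ 2 ≤ 201 / 100 ∧ 99 / 100 ≤ ‖nu κ y s 1‖ ^ 2 ∧
      99 / 100 ≤ (nu κ y s 1 ^ 2).re := by
  have h := (hNu κ S y hκ hy s hs 1 one_mem).2
  have he : 1 ≤ Real.exp s := Real.one_le_exp hs.1
  have he0 : 0 < Real.exp s := Real.exp_pos s
  set t : ℝ := 1 / Real.exp s ^ 2 with ht
  have ht0 : 0 < t := by positivity
  have ht1 : t ≤ 1 := by
    rw [ht, div_le_one (by positivity)]
    exact one_le_pow₀ he
  have h1 : (1 : ℂ) + 1 ^ 2 / (Real.exp s : ℂ) ^ 2 = ((1 + t : ℝ) : ℂ) := by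
    rw [ht]
    push_cast
    ring
  rw [h1, norm_one] at h
  have h2 : (5 : ℝ) / 1000 * (1 + 1 / Real.exp s) ≤ 1 / 100 := by
    have : 1 / Real.exp s ≤ 1 := by
      rw [div_le_one he0]
      exact he
    linarith
  have h3 : ‖nu κ y s 1 ^ 2 - ((1 + t : ℝ) : ℂ)‖ ≤ 1 / 100 := h.trans h2
  have h4 : ‖((1 + t : ℝ) : ℂ)‖ = 1 + t := by
    rw [Complex.norm_real, Real.norm_of_nonneg (by linarith)]
  have h5 : ‖nu κ y s 1 ^ 2‖ ≤ ‖nu κ y s 1 ^ 2 - ((1 + t : ℝ) : ℂ)‖ + ‖((1 + t : ℝ) : ℂ)‖ := by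
    have := norm_add_le (nu κ y s 1 ^ 2 - ((1 + t : ℝ) : ℂ)) ((1 + t : ℝ) : ℂ)
    rwa [sub_add_cancel] at this
  have h6 : ‖((1 + t : ℝ) : ℂ)‖ ≤ ‖nu κ y s 1 ^ 2 - ((1 + t : ℝ) : ℂ)‖ + ‖nu κ y s 1 ^ 2‖ := by
    have := norm_sub_le (nu κ y s 1 ^ 2) (nu κ y s 1 ^ 2 - ((1 + t : ℝ) : ℂ))
    rw [sub_sub_cancel] at this
    linarith
  have h7 : |(nu κ y s 1 ^ 2 - ((1 + t : ℝ) : ℂ)).re| ≤ 1 / 100 :=
    (Complex.abs_re_le_norm _).trans h3
  rw [Complex.sub_re, Complex.ofReal_re] at h7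
  have h8 := (abs_le.1 h7).1
  rw [norm_pow] at h5 h6
  refine ⟨by linarith, by linarith, by linarith⟩

lemma cont_y {κ : ℝ → ℝ} {S : ℝ} {y : ℝ → ℂ → ℂ} (hy : Fl κ S y) :
    ContinuousOn (fun x => y x 1) (Icc 0 S) :=
  fun x hx => (hy.ode 1 one_mem x hx).continuousWithinAt

lemma cont_nu {κ : ℝ → ℝ} {S : ℝ} {y : ℝ → ℂ → ℂ} (hκ : Drv κ S) (hy : Fl κ S y) :
    ContinuousOn (fun x => nu κ y x 1) (Icc 0 S) := by
  unfold nu
  refine (cont_y hy).sub ?_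
  exact (continuous_const.mul (Complex.continuous_ofReal.comp hκ.c1.continuous)).continuousOn

/-- all pointwise bounds -/
lemma bounds (hNu : FlNu) {κ : ℝ → ℝ} {S : ℝ} {y : ℝ → ℂ → ℂ} (hκ : Drv κ S) (hy : Fl κ S y)
    {s : ℝ} (hs : s ∈ Icc (0 : ℝ) S) :
    1 / 2 ≤ ‖nu κ y s 1‖ ∧ ‖nu κ y s 1‖ ≤ 2 ∧
      1 / 2 ≤ ‖y s 1‖ ∧ ‖y s 1‖ ≤ 2 ∧ 3 / 4 ≤ (y s 1 ^ 2).re ∧ ‖y s 1 ^ 2‖ ≤ 3 := by
  obtain ⟨h1, h2, h3⟩ := nu_sq hNu hκ hy hs
  have hk := hκ.b0 s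
  set v := nu κ y s 1 with hv
  have hyv : y s 1 = v + I * (κ s : ℂ) := by
    rw [hv]
    unfold nu
    ring
  have hn : ‖I * (κ s : ℂ)‖ = |κ s| := by
    rw [norm_mul, Complex.norm_I, one_mul, Complex.norm_real, Real.norm_eq_abs]
  have h0 : 0 ≤ ‖v‖ := norm_nonneg v
  have hu : ‖v‖ ≤ 3 / 2 := by nlinarith
  have hl : 9 / 10 ≤ ‖v‖ := by nlinarith
  have hy1 : ‖y s 1‖ ≤ ‖v‖ + |κ s| := by
    rw [hyv, ← hn]
    exact norm_add_le _ _
  have hy2 : ‖v‖ ≤ ‖y s 1‖ + |κ s| := by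
    have := norm_sub_le (y s 1) (I * (κ s : ℂ))
    rw [hn, hyv, add_sub_cancel_right, ← hyv] at this
    exact this
  have hd : ‖y s 1 ^ 2 - v ^ 2‖ ≤ 1 / 100 := by
    have : y s 1 ^ 2 - v ^ 2 = (I * (κ s : ℂ)) * (2 * v + I * (κ s : ℂ)) := by
      rw [hyv]
      ring
    rw [this, norm_mul, hn]
    have h4 : ‖2 * v + I * (κ s : ℂ)‖ ≤ 2 * ‖v‖ + |κ s| := by
      refine (norm_add_le _ _).trans ?_
      rw [hn, norm_mul]
      simp
    have h5 : 2 * ‖v‖ + |κ s| ≤ 4 := by linarith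
    calc |κ s| * ‖2 * v + I * (κ s : ℂ)‖ ≤ 1 / 1000 * 4 :=
          mul_le_mul hk (h4.trans h5) (norm_nonneg _) (by norm_num)
      _ ≤ 1 / 100 := by norm_num
  have hre : |(y s 1 ^ 2 - v ^ 2).re| ≤ 1 / 100 := (Complex.abs_re_le_norm _).trans hd
  rw [Complex.sub_re] at hre
  have hre' := (abs_le.1 hre).1
  refine ⟨by linarith, by linarith, by linarith, by linarith, by linarith, ?_⟩
  have h6 : ‖y s 1 ^ 2‖ ≤ ‖y s 1 ^ 2 - v ^ 2‖ + ‖v ^ 2‖ := by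
    have := norm_add_le (y s 1 ^ 2 - v ^ 2) (v ^ 2)
    rwa [sub_add_cancel] at this
  rw [norm_pow v] at h6
  linarith

/-- `D = y² - 1` at `W = 1` -/
noncomputable def D (y : ℝ → ℂ → ℂ) (x : ℝ) : ℂ := y x 1 ^ 2 - 1

lemma D_zero {κ : ℝ → ℝ} {S : ℝ} {y : ℝ → ℂ → ℂ} (hy : Fl κ S y) : D y 0 = 1 := by
  unfold D
  rw [hy.ini 1 one_mem]
  ring

lemma cont_D {κ : ℝ → ℝ} {S : ℝ} {y : ℝ → ℂ → ℂ} (hy : Fl κ S y) :
    ContinuousOn (D y) (Icc 0 S) :=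
  ((cont_y hy).pow 2).sub continuousOn_const

lemma D_deriv {κ : ℝ → ℝ} {S : ℝ} {y : ℝ → ℂ → ℂ} (hy : Fl κ S y)
    {s : ℝ} (hs : s ∈ Icc (0 : ℝ) S) (h0 : nu κ y s 1 ≠ 0) :
    HasDerivWithinAt (D y) (2 * I * (κ s : ℂ) / nu κ y s 1 - 2 * D y s) (Icc 0 S) s := by
  have h := ((hy.ode 1 one_mem s hs).pow 2).sub_const 1
  refine h.congr_deriv ?_
  have hyv : y s 1 = nu κ y s 1 + I * (κ s : ℂ) := by
    unfold nu
    ring
  unfold D
  push_cast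
  simp only [pow_one]
  have : y s 1 * (1 / nu κ y s 1) = 1 + I * (κ s : ℂ) / nu κ y s 1 := by
    conv_lhs => rw [hyv]
    field_simp
  linear_combination 2 * this

/-- the energy inequality -/
lemma int_D (hNu : FlNu) {κ : ℝ → ℝ} {S : ℝ} {y : ℝ → ℂ → ℂ} (hκ : Drv κ S) (hy : Fl κ S y)
    {s : ℝ} (hs : s ∈ Icc (0 : ℝ) S) :
    2 * ∫ x in (0 : ℝ)..s, ‖D y x‖ ^ 2 ≤ 1 + 8 * ∫ x in (0 : ℝ)..s, κ x ^ 2 := by
  have hsub : Icc (0 : ℝ) s ⊆ Icc 0 S := Icc_subset_Icc le_rfl hs.2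
  have hcD : ContinuousOn (fun x => ‖D y x‖ ^ 2) (Icc 0 s) :=
    (((cont_D hy).mono hsub).norm.pow 2)
  have hcκ : Continuous fun x => κ x ^ 2 := hκ.c1.continuous.pow 2
  have hiD : IntervalIntegrable (fun x => ‖D y x‖ ^ 2) volume 0 s :=
    hcD.intervalIntegrable_of_Icc hs.1
  have hiκ : IntervalIntegrable (fun x => κ x ^ 2) volume 0 s := hcκ.intervalIntegrable _ _
  have hne : ∀ x ∈ Icc (0 : ℝ) S, nu κ y x 1 ≠ 0 := fun x hx h => by
    have := (bounds hNu hκ hy hx).1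
    rw [h, norm_zero] at this
    norm_num at this
  have hcν : ContinuousOn (fun x => 2 * I * (κ x : ℂ) / nu κ y x 1) (Icc 0 s) :=
    ((continuous_const.mul (Complex.continuous_ofReal.comp hκ.c1.continuous)).continuousOn).div
      ((cont_nu hκ hy).mono hsub) fun x hx => hne x (hsub hx)
  set f' : ℝ → ℝ := fun x => 2 * inner ℝ (D y x) (2 * I * (κ x : ℂ) / nu κ y x 1 - 2 * D y x)
    with hf'
  have hcf' : ContinuousOn f' (Icc 0 s) := by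
    refine continuousOn_const.mul ?_
    exact ContinuousOn.inner (𝕜 := ℝ) ((cont_D hy).mono hsub)
      (hcν.sub (continuousOn_const.mul ((cont_D hy).mono hsub)))
  have hftc : ∫ x in (0 : ℝ)..s, f' x = ‖D y s‖ ^ 2 - ‖D y 0‖ ^ 2 := by
    refine intervalIntegral.integral_eq_sub_of_hasDerivAt_of_le hs.1 hcD ?_
      (hcf'.intervalIntegrable_of_Icc hs.1)
    intro x hx
    have hx' : x ∈ Icc (0 : ℝ) S := hsub ⟨hx.1.le, hx.2.le⟩
    have h1 := (D_deriv hy hx' (hne x hx')).hasDerivAt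
      (Icc_mem_nhds hx.1 (lt_of_lt_of_le hx.2 hs.2))
    exact h1.norm_sq
  have hle : ∫ x in (0 : ℝ)..s, f' x ≤ ∫ x in (0 : ℝ)..s, (8 * κ x ^ 2 - 2 * ‖D y x‖ ^ 2) := by
    refine intervalIntegral.integral_mono_on hs.1 (hcf'.intervalIntegrable_of_Icc hs.1)
      ((hiκ.const_mul 8).sub (hiD.const_mul 2)) ?_
    intro x hx
    have hb := (bounds hNu hκ hy (hsub hx)).1
    have h1 : ‖2 * I * (κ x : ℂ) / nu κ y x 1‖ ≤ 4 * |κ x| := by
      rw [norm_div, norm_mul, norm_mul, Complex.norm_I, Complex.norm_real, Real.norm_eq_abs,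
        Complex.norm_ofNat, div_le_iff₀ (by linarith)]
      nlinarith [abs_nonneg (κ x)]
    have h2 : inner ℝ (D y x) (2 * I * (κ x : ℂ) / nu κ y x 1) ≤ ‖D y x‖ * (4 * |κ x|) :=
      (real_inner_le_norm _ _).trans (mul_le_mul_of_nonneg_left h1 (norm_nonneg _))
    have h3 : inner ℝ (D y x) (2 * D y x) = 2 * ‖D y x‖ ^ 2 := by
      have : (2 : ℂ) * D y x = (2 : ℝ) • D y x := by
        rw [Complex.real_smul]
        norm_num
      rw [this, inner_smul_right, real_inner_self_eq_norm_sq]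
    simp only [hf', inner_sub_right, h3]
    nlinarith [sq_nonneg (‖D y x‖ - 2 * |κ x|), sq_abs (κ x)]
  rw [hftc, D_zero hy, intervalIntegral.integral_sub (hiκ.const_mul 8) (hiD.const_mul 2),
    intervalIntegral.integral_const_mul, intervalIntegral.integral_const_mul] at hle
  have := sq_nonneg ‖D y s‖
  rw [norm_one] at hle
  linarith

lemma l2s {κ : ℝ → ℝ} {S : ℝ} (hκ : Drv κ S) {s : ℝ} (hs : s ∈ Icc (0 : ℝ) S) :
    ∫ x in (0 : ℝ)..s, κ x ^ 2 ≤ 1 := by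
  refine le_trans ?_ hκ.l2
  refine intervalIntegral.integral_mono_interval le_rfl hs.1 hs.2 ?_
    ((hκ.c1.continuous.pow 2).intervalIntegrable _ _)
  exact Filter.Eventually.of_forall fun x => sq_nonneg (κ x)

/-- the integrand is close to `κ` -/
lemma ptw (hNu : FlNu) {κ : ℝ → ℝ} {S : ℝ} {y : ℝ → ℂ → ℂ} (hκ : Drv κ S) (hy : Fl κ S y)
    {s : ℝ} (hs : s ∈ Icc (0 : ℝ) S) :
    ‖(κ s : ℂ) * (1 / (nu κ y s 1 ^ 2 * y s 1) - 1)‖ ≤
      108 * κ s ^ 2 + 36 * ‖D y s‖ ^ 2 := by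
  obtain ⟨h1, h2, h3, h4, h5, h6⟩ := bounds hNu hκ hy hs
  have hk := hκ.b0 s
  have hν0 : nu κ y s 1 ≠ 0 := fun h => by rw [h, norm_zero] at h1; norm_num at h1
  have hy0 : y s 1 ≠ 0 := fun h => by rw [h, norm_zero] at h3; norm_num at h3
  have hpos : 0 < (y s 1).re := hy.pos s hs 1 one_mem
  have hnk : ‖(κ s : ℂ)‖ = |κ s| := by rw [Complex.norm_real, Real.norm_eq_abs]
  have ha : ‖y s 1 - 1‖ ≤ ‖D y s‖ := by
    have e1 : D y s = (y s 1 - 1) * (y s 1 + 1) := by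
      unfold D
      ring
    have e2 : 1 ≤ ‖y s 1 + 1‖ := by
      have := Complex.re_le_norm (y s 1 + 1)
      rw [Complex.add_re, Complex.one_re] at this
      linarith
    rw [e1, norm_mul]
    nlinarith [norm_nonneg (y s 1 - 1)]
  have hb : ‖1 - nu κ y s 1 ^ 2 * y s 1‖ ≤ 7 * ‖y s 1 - 1‖ + 9 * |κ s| := by
    have e1 : 1 - nu κ y s 1 ^ 2 * y s 1 =
        (y s 1 - 1) * (-(1 + y s 1 + y s 1 ^ 2)) + (κ s : ℂ) * (2 * I * y s 1 ^ 2 +
          (κ s : ℂ) * y s 1) := by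
      unfold nu
      linear_combination (κ s : ℂ) ^ 2 * y s 1 * (-I_sq)
    have e2 : ‖-(1 + y s 1 + y s 1 ^ 2)‖ ≤ 7 := by
      rw [norm_neg]
      refine (norm_add_le _ _).trans ?_
      have := norm_add_le (1 : ℂ) (y s 1)
      rw [norm_one] at this
      linarith
    have e3 : ‖2 * I * y s 1 ^ 2 + (κ s : ℂ) * y s 1‖ ≤ 9 := by
      refine (norm_add_le _ _).trans ?_
      rw [norm_mul, norm_mul, norm_mul, Complex.norm_I, hnk, Complex.norm_ofNat]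
      nlinarith [abs_nonneg (κ s), norm_nonneg (y s 1)]
    rw [e1]
    refine (norm_add_le _ _).trans ?_
    rw [norm_mul, norm_mul, hnk]
    have e4 := mul_le_mul_of_nonneg_left e2 (norm_nonneg (y s 1 - 1))
    have e5 := mul_le_mul_of_nonneg_left e3 (abs_nonneg (κ s))
    linarith
  have hc : ‖1 / (nu κ y s 1 ^ 2 * y s 1) - 1‖ ≤ 72 * (‖D y s‖ + |κ s|) := by
    have e1 : 1 / (nu κ y s 1 ^ 2 * y s 1) - 1 =
        (1 - nu κ y s 1 ^ 2 * y s 1) / (nu κ y s 1 ^ 2 * y s 1) := by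
      field_simp
    have e2 : 1 / 8 ≤ ‖nu κ y s 1 ^ 2 * y s 1‖ := by
      rw [norm_mul, norm_pow]
      have : (1 / 2 : ℝ) ^ 2 ≤ ‖nu κ y s 1‖ ^ 2 := pow_le_pow_left₀ (by norm_num) h1 2
      calc (1 / 8 : ℝ) = (1 / 2) ^ 2 * (1 / 2) := by norm_num
        _ ≤ _ := mul_le_mul this h3 (by norm_num) (by positivity)
    rw [e1, norm_div, div_le_iff₀ (by linarith)]
    have e3 : 0 ≤ 72 * (‖D y s‖ + |κ s|) := by positivity
    have e4 := mul_le_mul_of_nonneg_left e2 e3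
    have e5 := abs_nonneg (κ s)
    have e6 := norm_nonneg (D y s)
    linarith
  rw [norm_mul, hnk]
  have hd := mul_le_mul_of_nonneg_left hc (abs_nonneg (κ s))
  nlinarith [sq_nonneg (‖D y s‖ - |κ s|), sq_abs (κ s)]

/-- the real part of the exponent -/
lemma expo (hNu : FlNu) {κ : ℝ → ℝ} {S : ℝ} {y : ℝ → ℂ → ℂ} (hκ : Drv κ S) (hy : Fl κ S y)
    {s : ℝ} (hs : s ∈ Icc (0 : ℝ) S) :
    (-I * ∫ x in (0 : ℝ)..s, (κ x : ℂ) / (nu κ y x 1 ^ 2 * y x 1)).re ≤ 300 := by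
  have hsub : Icc (0 : ℝ) s ⊆ Icc 0 S := Icc_subset_Icc le_rfl hs.2
  have hne : ∀ x ∈ Icc (0 : ℝ) s, nu κ y x 1 ^ 2 * y x 1 ≠ 0 := fun x hx => by
    obtain ⟨h1, -, h3, -⟩ := bounds hNu hκ hy (hsub hx)
    have hν0 : nu κ y x 1 ≠ 0 := fun h => by rw [h, norm_zero] at h1; norm_num at h1
    have hy0 : y x 1 ≠ 0 := fun h => by rw [h, norm_zero] at h3; norm_num at h3
    exact mul_ne_zero (pow_ne_zero 2 hν0) hy0
  have hcκ : Continuous fun x => (κ x : ℂ) := Complex.continuous_ofReal.comp hκ.c1.continuous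
  have hcg : ContinuousOn (fun x => (κ x : ℂ) * (1 / (nu κ y x 1 ^ 2 * y x 1) - 1))
      (Icc 0 s) := by
    refine hcκ.continuousOn.mul (ContinuousOn.sub ?_ continuousOn_const)
    exact continuousOn_const.div ((((cont_nu hκ hy).mono hsub).pow 2).mul
      ((cont_y hy).mono hsub)) hne
  have hi1 : IntervalIntegrable (fun x => (κ x : ℂ) * (1 / (nu κ y x 1 ^ 2 * y x 1) - 1))
      volume 0 s := hcg.intervalIntegrable_of_Icc hs.1
  have hi2 : IntervalIntegrable (fun x => (κ x : ℂ)) volume 0 s := hcκ.intervalIntegrable _ _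
  have e1 : ∫ x in (0 : ℝ)..s, (κ x : ℂ) / (nu κ y x 1 ^ 2 * y x 1) =
      (∫ x in (0 : ℝ)..s, (κ x : ℂ) * (1 / (nu κ y x 1 ^ 2 * y x 1) - 1)) +
        ((∫ x in (0 : ℝ)..s, κ x : ℝ) : ℂ) := by
    rw [← intervalIntegral.integral_ofReal, ← intervalIntegral.integral_add hi1 hi2]
    refine intervalIntegral.integral_congr fun x _ => ?_
    ring
  have hcD : ContinuousOn (fun x => ‖D y x‖ ^ 2) (Icc 0 s) :=
    (((cont_D hy).mono hsub).norm.pow 2)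
  have hiD : IntervalIntegrable (fun x => ‖D y x‖ ^ 2) volume 0 s :=
    hcD.intervalIntegrable_of_Icc hs.1
  have hiκ : IntervalIntegrable (fun x => κ x ^ 2) volume 0 s :=
    (hκ.c1.continuous.pow 2).intervalIntegrable _ _
  have e2 : ‖∫ x in (0 : ℝ)..s, (κ x : ℂ) * (1 / (nu κ y x 1 ^ 2 * y x 1) - 1)‖ ≤
      ∫ x in (0 : ℝ)..s, (108 * κ x ^ 2 + 36 * ‖D y x‖ ^ 2) := by
    refine intervalIntegral.norm_integral_le_of_norm_le hs.1 ?_
      ((hiκ.const_mul 108).add (hiD.const_mul 36))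
    exact Filter.Eventually.of_forall fun x hx => ptw hNu hκ hy (hsub ⟨hx.1.le, hx.2⟩)
  rw [intervalIntegral.integral_add (hiκ.const_mul 108) (hiD.const_mul 36),
    intervalIntegral.integral_const_mul, intervalIntegral.integral_const_mul] at e2
  have e3 := int_D hNu hκ hy hs
  have e4 := l2s hκ hs
  have e5 : ‖∫ x in (0 : ℝ)..s, (κ x : ℂ) * (1 / (nu κ y x 1 ^ 2 * y x 1) - 1)‖ ≤ 300 := by
    linarith
  rw [e1, mul_add, Complex.add_re]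
  have e6 : (-I * ((∫ x in (0 : ℝ)..s, κ x : ℝ) : ℂ)).re = 0 := by
    simp
  rw [e6, add_zero]
  refine (Complex.re_le_norm _).trans ?_
  rw [norm_mul, norm_neg, Complex.norm_I, one_mul]
  exact e5

end FlOneX

open FlOneX in
theorem prfFlOne (hX : FlX) (hNu : FlNu) : FlOne := by
  refine ⟨4 * Real.exp 300, by positivity, ?_⟩
  intro κ S y hκ hy s hs
  obtain ⟨h1, h2, h3, h4, h5, h6⟩ := bounds hNu hκ hy hs
  refine ⟨?_, h1, h2, h3, h4, h5, h6⟩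
  have h := (hX κ S y hκ hy s hs 1 one_mem).2.2
  have hν0 : nu κ y s 1 ≠ 0 := fun h => by rw [h, norm_zero] at h1; norm_num at h1
  have hy0 : y s 1 ≠ 0 := fun h => by rw [h, norm_zero] at h3; norm_num at h3
  have e1 : nn κ y s 1 = (nn κ y s 1 * y s 1 / nu κ y s 1) * (nu κ y s 1 / y s 1) := by
    field_simp
  rw [e1, h, norm_mul, Complex.norm_exp, norm_div]
  have e2 : ‖nu κ y s 1‖ / ‖y s 1‖ ≤ 4 := by
    rw [div_le_iff₀ (by linarith)]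
    linarith
  have e3 := Real.exp_le_exp.2 (expo hNu hκ hy hs)
  calc _ ≤ Real.exp 300 * 4 := mul_le_mul e3 e2 (by positivity) (by positivity)
    _ = _ := by ring

end Pool.Agent.MultS.LB
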