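import Pool.Agent.Work.MP_b17785_an.LB.Stmts
import Pool.Agent.Work.MP_b17785_an.Bd.B07

/-!
# `L` is integration against a continuous kernel on a circle
-/

set_option autoImplicit false

open Complex Metric Set Filter Topology MeasureTheory
open Pool.Agent.MultS.Lip

namespace Pool.Agent.MultS.LB

namespace KerX

theorem tcI {f : ℂ → ℂ} {ρ : ℝ} (hρ : 0 < ρ) (hρ1 : ρ < 1)
    (hf : DifferentiableOn ℂ f (ball 0 1)) (n : ℕ) :
    tc f (n + 1) = ∫ θ in (0 : ℝ)..2 * Real.pi,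
      ((2 * Real.pi : ℂ))⁻¹ * (circleMap 0 ρ θ ^ (n + 1))⁻¹ * f (circleMap 0 ρ θ) := by
  rw [Hol'.tc_eq hρ hρ1 hf (n + 1), ← intervalIntegral.integral_const_mul]
  refine intervalIntegral.integral_congr fun θ _ => ?_
  have h1 : circleMap 0 ρ θ ≠ 0 := circleMap_ne_center hρ.ne'
  have h2 : (Real.pi : ℂ) ≠ 0 := by exact_mod_cast Real.pi_ne_zero
  have h3 : I ≠ 0 := I_ne_zero
  simp only [deriv_circleMap, smul_eq_mul, sub_zero]
  rw [pow_succ (circleMap 0 ρ θ) (n + 1)]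
  field_simp

/-- the terms of the kernel -/
noncomputable def e (lam : ℕ → ℂ) (z : ℂ) (ρ : ℝ) (n : ℕ) (θ : ℝ) : ℂ :=
  ((n : ℂ) + 1) * lam (n + 1) * z ^ n *
    (((2 * Real.pi : ℂ))⁻¹ * (circleMap 0 ρ θ ^ (n + 1))⁻¹)

theorem e_cont (lam : ℕ → ℂ) (z : ℂ) {ρ : ℝ} (hρ : 0 < ρ) (n : ℕ) :
    Continuous (e lam z ρ n) := by
  unfold e
  refine continuous_const.mul (continuous_const.mul (Continuous.inv₀ ?_ fun θ => ?_))
  · exact (continuous_circleMap 0 ρ).pow _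
  · exact pow_ne_zero _ (circleMap_ne_center hρ.ne')

theorem e_le (lam : ℕ → ℂ) {z : ℂ} {ρ : ℝ} (hρ : 0 < ρ) (hz : ‖z‖ ≤ ρ) (n : ℕ) (θ : ℝ) :
    ‖e lam z ρ n θ‖ ≤ ((n : ℝ) + 1) * ‖lam (n + 1)‖ * ((2 * Real.pi)⁻¹ * ρ⁻¹) := by
  have hpi := Real.pi_pos
  have h1 : ‖((n : ℂ) + 1)‖ = (n : ℝ) + 1 := by
    have : ((n : ℂ) + 1) = ((n + 1 : ℕ) : ℂ) := by push_cast; rfl
    rw [this, Complex.norm_natCast]
    push_cast
    rfl
  have h2 : ‖((2 * Real.pi : ℂ))⁻¹‖ = (2 * Real.pi)⁻¹ := by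
    rw [norm_inv, norm_mul, Complex.norm_real, Real.norm_eq_abs, abs_of_pos hpi]
    norm_num
  have h3 : ‖(circleMap 0 ρ θ ^ (n + 1))⁻¹‖ = (ρ ^ (n + 1))⁻¹ := by
    rw [norm_inv, norm_pow, norm_circleMap_zero, abs_of_pos hρ]
  have h4 : ‖z‖ ^ n ≤ ρ ^ n := pow_le_pow_left₀ (norm_nonneg z) hz n
  have h5 : ‖z‖ ^ n * (ρ ^ (n + 1))⁻¹ ≤ ρ⁻¹ := by
    calc ‖z‖ ^ n * (ρ ^ (n + 1))⁻¹ ≤ ρ ^ n * (ρ ^ (n + 1))⁻¹ :=
          mul_le_mul_of_nonneg_right h4 (by positivity)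
      _ = ρ⁻¹ := by
          rw [pow_succ]
          field_simp
  unfold e
  rw [norm_mul, norm_mul, norm_mul, norm_mul, norm_pow, h1, h2, h3]
  calc ((n : ℝ) + 1) * ‖lam (n + 1)‖ * ‖z‖ ^ n * ((2 * Real.pi)⁻¹ * (ρ ^ (n + 1))⁻¹)
      = (((n : ℝ) + 1) * ‖lam (n + 1)‖ * (2 * Real.pi)⁻¹) * (‖z‖ ^ n * (ρ ^ (n + 1))⁻¹) := by ring
    _ ≤ (((n : ℝ) + 1) * ‖lam (n + 1)‖ * (2 * Real.pi)⁻¹) * ρ⁻¹ :=
        mul_le_mul_of_nonneg_left h5 (by positivity)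
    _ = _ := by ring

end KerX

open KerX

theorem prfKer : Ker := by
  intro lam hlam z hz
  rw [mem_ball_zero_iff] at hz
  have hz0 := norm_nonneg z
  set ρ : ℝ := (1 + ‖z‖) / 2 with hρdef
  have hρ : 0 < ρ := by rw [hρdef]; linarith
  have hρ1 : ρ < 1 := by rw [hρdef]; linarith
  have hzρ : ‖z‖ ≤ ρ := by rw [hρdef]; linarith
  clear_value ρ
  have hsm : Summable fun n : ℕ =>
      ((n : ℝ) + 1) * ‖lam (n + 1)‖ * ((2 * Real.pi)⁻¹ * ρ⁻¹) := hlam.mul_right _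
  refine ⟨ρ, fun θ => ∑' n, e lam z ρ n θ, hρ, hρ1,
    continuous_tsum (e_cont lam z hρ) hsm (e_le lam hρ hzρ), ?_⟩
  intro h hh
  have hsub : closedBall (0 : ℂ) ρ ⊆ ball 0 1 := closedBall_subset_ball hρ1
  obtain ⟨M, hM⟩ := (isCompact_closedBall (0 : ℂ) ρ).exists_bound_of_continuousOn
    (hh.continuousOn.mono hsub)
  have hmem : ∀ θ : ℝ, circleMap 0 ρ θ ∈ closedBall (0 : ℂ) ρ := fun θ => by
    rw [mem_closedBall_zero_iff, norm_circleMap_zero, abs_of_pos hρ]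
  have hcont : Continuous fun θ : ℝ => h (circleMap 0 ρ θ) :=
    hh.continuousOn.comp_continuous (continuous_circleMap 0 ρ) fun θ => hsub (hmem θ)
  have key := intervalIntegral.hasSum_integral_of_dominated_convergence (μ := volume)
    (a := 0) (b := 2 * Real.pi) (F := fun n θ => e lam z ρ n θ * h (circleMap 0 ρ θ))
    (f := fun θ => (∑' n, e lam z ρ n θ) * h (circleMap 0 ρ θ))
    (fun n _ => ((n : ℝ) + 1) * ‖lam (n + 1)‖ * ((2 * Real.pi)⁻¹ * ρ⁻¹) * M)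
    (fun n => ((e_cont lam z hρ n).mul hcont).aestronglyMeasurable)
    (fun n => Eventually.of_forall fun θ _ => by
      rw [norm_mul]
      exact mul_le_mul (e_le lam hρ hzρ n θ) (hM _ (hmem θ)) (norm_nonneg _)
        (le_trans (norm_nonneg _) (e_le lam hρ hzρ n θ)))
    (Eventually.of_forall fun θ _ => hsm.mul_right M)
    intervalIntegrable_const
    (Eventually.of_forall fun θ _ =>
      (Summable.of_norm_bounded hsm fun n => e_le lam hρ hzρ n θ).hasSum.mul_right _)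
  rw [← key.tsum_eq, LL]
  refine tsum_congr fun n => ?_
  rw [tcI hρ hρ1 hh n]
  have e1 : ((n : ℂ) + 1) * lam (n + 1) * (∫ θ in (0 : ℝ)..2 * Real.pi,
      ((2 * Real.pi : ℂ))⁻¹ * (circleMap 0 ρ θ ^ (n + 1))⁻¹ * h (circleMap 0 ρ θ)) * z ^ n
      = (((n : ℂ) + 1) * lam (n + 1) * z ^ n) * ∫ θ in (0 : ℝ)..2 * Real.pi,
      ((2 * Real.pi : ℂ))⁻¹ * (circleMap 0 ρ θ ^ (n + 1))⁻¹ * h (circleMap 0 ρ θ) := by ring
  rw [e1, ← intervalIntegral.integral_const_mul]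
  refine intervalIntegral.integral_congr fun θ _ => ?_
  simp only [e]
  ring

end Pool.Agent.MultS.LB
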