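import Pool.Agent.Work.MP_b17785_an.LB.Stmts2
import Pool.Agent.Work.MP_b17785_an.Bd.B09
import Pool.Agent.Work.MP_b17785_an.Bd.B07

set_option autoImplicit false

open Complex Metric Set Filter Topology MeasureTheory
open Pool.Agent.MultS.Lip

namespace Pool.Agent.MultS.LB

namespace LRepX

/-- the kernel `E(s)` as a function of `ζ`. -/
noncomputable def EE (s : ℝ) (ζ : ℂ) : ℂ :=
  (Real.exp (2 * s) : ℂ) * ((1 + psi ζ ^ 2 * (Real.exp (-2 * s) : ℂ)) ^ (-(1 / 2) : ℂ) - 1)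

theorem EE_diff (s : ℝ) : DifferentiableOn ℂ (EE s) (ball 0 1) :=
  ((IdLX.fA_diff s).sub_const 1).const_mul _

theorem circ_mem {ρ : ℝ} (h0 : 0 < ρ) (h1 : ρ < 1) (θ : ℝ) : circleMap 0 ρ θ ∈ ball (0 : ℂ) 1 := by
  rw [mem_ball_zero_iff, norm_circleMap_zero, abs_of_pos h0]
  exact h1

theorem EE_cont {ρ : ℝ} (h0 : 0 < ρ) (h1 : ρ < 1) :
    Continuous fun p : ℝ × ℝ => EE p.2 (circleMap 0 ρ p.1) := by
  have h2 : Continuous (fun p : ℝ × ℝ => psi (circleMap 0 ρ p.1)) :=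
    IdLX.psi_diff.continuousOn.comp_continuous ((continuous_circleMap 0 ρ).comp continuous_fst)
      fun p => circ_mem h0 h1 p.1
  have h3 : Continuous (fun p : ℝ × ℝ => (Real.exp (-2 * p.2) : ℂ)) :=
    Complex.continuous_ofReal.comp (Real.continuous_exp.comp (continuous_const.mul continuous_snd))
  have h4 : Continuous (fun p : ℝ × ℝ => (Real.exp (2 * p.2) : ℂ)) :=
    Complex.continuous_ofReal.comp (Real.continuous_exp.comp (continuous_const.mul continuous_snd))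
  exact h4.mul ((Continuous.cpow (continuous_const.add ((h2.pow 2).mul h3)) continuous_const
    fun p => IdLX.slitA (IdLX.psi_mem (circ_mem h0 h1 p.1)) p.2).sub continuous_const)

theorem ell_eq (hLin : LinP) {lam : ℕ → ℂ}
    (hsm : Summable (fun n : ℕ => ((n : ℝ) + 1) * ‖lam (n + 1)‖)) {z : ℂ}
    (hz : z ∈ ball (0 : ℂ) 1) (s : ℝ) : ell lam z s = 2 * I * LL lam (EE s) z := by
  have h1 := (hLin lam hsm z hz).1 _ _ (Real.exp (2 * s) : ℂ) 0 (-(Real.exp (2 * s) : ℂ))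
    (IdLX.fA_diff s) (IdLX.fA_diff s)
  have h2 : (fun ζ => (Real.exp (2 * s) : ℂ) *
      (1 + psi ζ ^ 2 * (Real.exp (-2 * s) : ℂ)) ^ (-(1 / 2) : ℂ) +
      0 * (1 + psi ζ ^ 2 * (Real.exp (-2 * s) : ℂ)) ^ (-(1 / 2) : ℂ) +
      -(Real.exp (2 * s) : ℂ)) = EE s := by
    funext ζ
    unfold EE
    ring
  rw [h2] at h1
  rw [h1]
  unfold ell
  ring

end LRepX

open LRepX

theorem prfLRep (hKer : Ker) (hLin : LinP) (hVV : VV) (hHerg : Herg) (hRep : Rep) (hEBd : EBd) :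
    LRep := by
  intro lam X hPX z hz A ρA hA
  obtain ⟨ρ, k, h0, h1, hk, hL⟩ := hKer lam hPX.sm z hz
  obtain ⟨c, hdec, -, -⟩ := hVV A ρA hA
  obtain ⟨hκc, hκi, hrep⟩ := hRep (vv A) c hdec
  obtain ⟨C, hC⟩ := hEBd ρ h0 h1
  have hC' : ∀ θ s : ℝ, ‖EE s (circleMap 0 ρ θ)‖ ≤ C := by
    intro θ s
    apply hC
    rw [norm_circleMap_zero, abs_of_pos h0]
  -- pointwise representation
  have hpt : ∀ ζ ∈ ball (0 : ℂ) 1, psi ζ ^ 2 * (A ζ - A 1) =
      ∫ s : ℝ, 2 * (kap (vv A) s : ℂ) * EE s ζ := by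
    intro ζ hζ
    have hW : psi ζ ∈ Hp := IdLX.psi_mem hζ
    have e1 : phi (psi ζ) = ζ := (prfCay.1 ζ hζ).2.1
    have e2 := hHerg A ρA hA (psi ζ) hW
    rw [e1] at e2
    have e3 := hrep (psi ζ) hW
    show _ = ∫ s : ℝ, 2 * (kap (vv A) s : ℂ) * ((Real.exp (2 * s) : ℂ) *
      ((1 + psi ζ ^ 2 * (Real.exp (-2 * s) : ℂ)) ^ (-(1 / 2) : ℂ) - 1))
    rw [e3, e2]
    ring
  set f : ℝ → ℝ → ℂ := fun θ s => k θ * (2 * (kap (vv A) s : ℂ) * EE s (circleMap 0 ρ θ)) with hf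
  have hfc : Continuous (Function.uncurry f) := by
    have h2 : Continuous fun p : ℝ × ℝ => (kap (vv A) p.2 : ℂ) :=
      Complex.continuous_ofReal.comp (hκc.comp continuous_snd)
    exact (hk.comp continuous_fst).mul ((continuous_const.mul h2).mul (EE_cont h0 h1))
  have hfi : Integrable (Function.uncurry f)
      ((volume.restrict (Ioc 0 (2 * Real.pi))).prod volume) := by
    have h2 : Integrable (fun θ => ‖k θ‖) (volume.restrict (Ioc 0 (2 * Real.pi))) :=
      (hk.norm.integrableOn_Icc (a := 0) (b := 2 * Real.pi)).mono_set Ioc_subset_Icc_self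
    have h3 : Integrable (fun s => 2 * C * ‖kap (vv A) s‖) := hκi.norm.const_mul _
    refine (h2.mul_prod h3).mono' hfc.aestronglyMeasurable (Eventually.of_forall ?_)
    rintro ⟨θ, s⟩
    show ‖k θ * (2 * (kap (vv A) s : ℂ) * EE s (circleMap 0 ρ θ))‖ ≤
      ‖k θ‖ * (2 * C * ‖kap (vv A) s‖)
    rw [norm_mul, norm_mul, norm_mul, Complex.norm_real]
    refine mul_le_mul_of_nonneg_left ?_ (norm_nonneg _)
    have h4 := hC' θ s
    have h5 : ‖(2 : ℂ)‖ = 2 := by norm_num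
    rw [h5]
    calc 2 * ‖kap (vv A) s‖ * ‖EE s (circleMap 0 ρ θ)‖ ≤ 2 * ‖kap (vv A) s‖ * C := by
          gcongr
      _ = 2 * C * ‖kap (vv A) s‖ := by ring
  have hin : ∀ s : ℝ, ∫ θ in Ioc 0 (2 * Real.pi), f θ s = -I * ((kap (vv A) s : ℂ) * ell lam z s) := by
    intro s
    have h2 : ∫ θ in Ioc 0 (2 * Real.pi), f θ s =
        2 * (kap (vv A) s : ℂ) * ∫ θ in Ioc 0 (2 * Real.pi), k θ * EE s (circleMap 0 ρ θ) := by
      rw [← integral_const_mul]
      congr 1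
      funext θ
      simp only [hf]
      ring
    have h3 := hL (EE s) (EE_diff s)
    rw [intervalIntegral.integral_of_le (by positivity)] at h3
    rw [h2, ← h3, ell_eq hLin hPX.sm hz s]
    have hI : I * I = -1 := Complex.I_mul_I
    linear_combination (2 * (kap (vv A) s : ℂ) * LL lam (EE s) z) * hI
  constructor
  · have h2 := hfi.integral_prod_right
    have h3 : (fun s : ℝ => (kap (vv A) s : ℂ) * ell lam z s) =
        fun s => I * ∫ θ in Ioc 0 (2 * Real.pi), Function.uncurry f (θ, s) := by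
      funext s
      have h4 := hin s
      show _ = I * ∫ θ in Ioc 0 (2 * Real.pi), f θ s
      rw [h4, ← mul_assoc, mul_neg, Complex.I_mul_I, neg_neg, one_mul]
    rw [h3]
    exact h2.const_mul I
  · have hd : DifferentiableOn ℂ (fun ζ => psi ζ ^ 2 * (A ζ - A 1)) (ball 0 1) := by
      refine (IdLX.psi_diff.pow 2).mul (DifferentiableOn.sub_const ?_ _)
      exact hA.dif.mono (ball_subset_ball hA.rho.le)
    rw [hL _ hd, intervalIntegral.integral_of_le (by positivity)]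
    have h2 : ∀ θ : ℝ, k θ * (psi (circleMap 0 ρ θ) ^ 2 * (A (circleMap 0 ρ θ) - A 1)) =
        ∫ s : ℝ, f θ s := by
      intro θ
      rw [hpt _ (circ_mem h0 h1 θ), ← integral_const_mul]
    simp only [h2]
    rw [integral_integral_swap hfi]
    simp only [hin]
    rw [integral_const_mul]

end Pool.Agent.MultS.LB
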