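import Pool.Agent.Work.MP_b17785_an.LB.Stmts2

/-!
# Item PhiC: a closed form, by an explicit primitive

With `u = (1 - e^{-2t})^{1/2}`, `s = (1 + c e^{-2t})^{1/2}` the primitive is
`log (s + u) - log (1 + u)`.
-/

set_option autoImplicit false

open Complex Metric Set Filter Topology MeasureTheory
open Pool.Agent.MultS.Lip

namespace Pool.Agent.MultS.LB

namespace PhiCX

/-- `u` -/
noncomputable def uu (t : ℝ) : ℝ := Real.sqrt (1 - Real.exp (-2 * t))

/-- `1 + c e^{-2t}` -/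
noncomputable def zz (c : ℂ) (t : ℝ) : ℂ := 1 + c * (Real.exp (-2 * t) : ℂ)

/-- `s` -/
noncomputable def sq2 (c : ℂ) (t : ℝ) : ℂ := zz c t ^ (1 / 2 : ℂ)

/-- the primitive -/
noncomputable def GG (c : ℂ) (t : ℝ) : ℂ :=
  Complex.log (sq2 c t + (uu t : ℂ)) - Complex.log (1 + (uu t : ℂ))

theorem slit_x {c : ℂ} (hc : c ∈ slitPlane) {x : ℝ} (hx : 0 ≤ x) : 1 + c * (x : ℂ) ∈ slitPlane := by
  rw [mem_slitPlane_iff] at hc ⊢
  rcases hc with h | h
  · left
    simp only [add_re, one_re, mul_re, ofReal_re, ofReal_im, mul_zero, sub_zero]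
    have := mul_nonneg h.le hx
    linarith
  · rcases hx.eq_or_lt with h0 | h0
    · left
      simp [← h0]
    · right
      simp only [add_im, one_im, mul_im, ofReal_re, ofReal_im, mul_zero, zero_add]
      exact mul_ne_zero h h0.ne'

theorem slit_zz {c : ℂ} (hc : c ∈ slitPlane) (t : ℝ) : zz c t ∈ slitPlane :=
  slit_x hc (Real.exp_pos _).le

theorem re_sqrt_pos {z : ℂ} (hz : z ∈ slitPlane) : 0 < (z ^ (1 / 2 : ℂ)).re := by
  rw [mem_slitPlane_iff_arg] at hz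
  rw [Complex.cpow_def_of_ne_zero hz.2, Complex.exp_re]
  apply mul_pos (Real.exp_pos _)
  have h1 : (Complex.log z * (1 / 2)).im = z.arg / 2 := by
    have : (Complex.log z * (1 / 2)) = Complex.log z / 2 := by ring
    rw [this]
    rw [show (2 : ℂ) = ((2 : ℝ) : ℂ) by norm_num, Complex.div_ofReal_im, Complex.log_im]
  rw [h1]
  apply Real.cos_pos_of_mem_Ioo
  have h2 := Complex.neg_pi_lt_arg z
  have h3 := lt_of_le_of_ne (Complex.arg_le_pi z) hz.1
  constructor <;> linarith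

theorem sqrt_sq {z : ℂ} (hz : z ≠ 0) : z ^ (1 / 2 : ℂ) * z ^ (1 / 2 : ℂ) = z := by
  rw [← Complex.cpow_add _ _ hz]
  norm_num

theorem cpow_neg_half (z : ℂ) : z ^ (-(1 / 2) : ℂ) = (z ^ (1 / 2 : ℂ))⁻¹ := by
  rw [Complex.cpow_neg]

theorem sq2_mul {c : ℂ} (hc : c ∈ slitPlane) (t : ℝ) : sq2 c t * sq2 c t = zz c t :=
  sqrt_sq (slitPlane_ne_zero (slit_zz hc t))

theorem sq2_re {c : ℂ} (hc : c ∈ slitPlane) (t : ℝ) : 0 < (sq2 c t).re :=
  re_sqrt_pos (slit_zz hc t)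

theorem uu_nonneg (t : ℝ) : 0 ≤ uu t := Real.sqrt_nonneg _

theorem exp_lt {t : ℝ} (ht : 0 < t) : Real.exp (-2 * t) < 1 := by
  rw [Real.exp_lt_one_iff]
  linarith

theorem uu_pos {t : ℝ} (ht : 0 < t) : 0 < uu t := Real.sqrt_pos.mpr (by linarith [exp_lt ht])

theorem uu_sq {t : ℝ} (ht : 0 < t) : uu t * uu t = 1 - Real.exp (-2 * t) :=
  Real.mul_self_sqrt (by linarith [exp_lt ht])

theorem hasDerivAt_exp2 (t : ℝ) :
    HasDerivAt (fun t : ℝ => Real.exp (-2 * t)) (-2 * Real.exp (-2 * t)) t := by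
  have h1 : HasDerivAt (fun t : ℝ => -2 * t) (-2) t := by
    simpa using (hasDerivAt_id t).const_mul (-2)
  have h2 := h1.exp
  rw [mul_comm] at h2
  exact h2

theorem hasDerivAt_uu {t : ℝ} (ht : 0 < t) :
    HasDerivAt uu (Real.exp (-2 * t) * (uu t)⁻¹) t := by
  have h1 := (hasDerivAt_exp2 t).const_sub 1
  have h2 := h1.sqrt (by linarith [exp_lt ht])
  have e : -(-2 * Real.exp (-2 * t)) / (2 * Real.sqrt (1 - Real.exp (-2 * t))) =
      Real.exp (-2 * t) * (uu t)⁻¹ := by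
    unfold uu
    rw [div_eq_mul_inv, mul_inv]
    ring
  rw [e] at h2
  exact h2

theorem hasDerivAt_zz (c : ℂ) (t : ℝ) :
    HasDerivAt (zz c) (c * ((-2 * Real.exp (-2 * t) : ℝ) : ℂ)) t := by
  have h1 := (hasDerivAt_exp2 t).ofReal_comp
  exact (h1.const_mul c).const_add 1

theorem hasDerivAt_sq2 {c : ℂ} (hc : c ∈ slitPlane) (t : ℝ) :
    HasDerivAt (sq2 c) (-c * (Real.exp (-2 * t) : ℂ) * (sq2 c t)⁻¹) t := by
  have hz := slit_zz hc t
  have h1 : HasDerivAt (fun z : ℂ => z ^ (1 / 2 : ℂ)) ((1 / 2 : ℂ) * zz c t ^ ((1 / 2 : ℂ) - 1))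
      (zz c t) := by
    have := (hasDerivAt_id (zz c t)).cpow_const (c := (1 / 2 : ℂ)) hz
    simpa using this
  have h2 := h1.comp_of_eq t (hasDerivAt_zz c t) rfl
  have e1 : zz c t ^ ((1 / 2 : ℂ) - 1) = (sq2 c t)⁻¹ := by
    have : ((1 / 2 : ℂ) - 1) = -(1 / 2) := by norm_num
    rw [this, cpow_neg_half]
    rfl
  have e : (1 / 2 : ℂ) * zz c t ^ ((1 / 2 : ℂ) - 1) * (c * ((-2 * Real.exp (-2 * t) : ℝ) : ℂ)) =
      -c * (Real.exp (-2 * t) : ℂ) * (sq2 c t)⁻¹ := by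
    rw [e1]
    push_cast
    ring
  rw [e] at h2
  exact h2

theorem re_su {c : ℂ} (hc : c ∈ slitPlane) (t : ℝ) : 0 < (sq2 c t + (uu t : ℂ)).re := by
  rw [add_re, ofReal_re]
  linarith [sq2_re hc t, uu_nonneg t]

theorem re_1u (t : ℝ) : 0 < (1 + (uu t : ℂ)).re := by
  rw [add_re, ofReal_re, one_re]
  linarith [uu_nonneg t]

theorem slit_of_re {z : ℂ} (h : 0 < z.re) : z ∈ slitPlane := Or.inl h

theorem ne_of_re {z : ℂ} (h : 0 < z.re) : z ≠ 0 := slitPlane_ne_zero (slit_of_re h)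

/-- the integrand -/
noncomputable def ff (c : ℂ) (t : ℝ) : ℂ :=
  ((Real.sqrt (1 - Real.exp (-2 * t)))⁻¹ : ℂ) *
    ((1 + c * (Real.exp (-2 * t) : ℂ)) ^ (-(1 / 2) : ℂ) - 1)

theorem ff_eq (c : ℂ) (t : ℝ) : ff c t = ((uu t : ℝ) : ℂ)⁻¹ * ((sq2 c t)⁻¹ - 1) := by
  unfold ff
  rw [cpow_neg_half]
  rfl

theorem hasDerivAt_GG {c : ℂ} (hc : c ∈ slitPlane) {t : ℝ} (ht : 0 < t) :
    HasDerivAt (GG c) (ff c t) t := by
  have h1 := (hasDerivAt_uu ht).ofReal_comp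
  have h2 := ((hasDerivAt_sq2 hc t).add h1).clog_real (slit_of_re (re_su hc t))
  have h3 := (h1.const_add 1).clog_real (slit_of_re (re_1u t))
  have h4 := h2.sub h3
  have hs := ne_of_re (sq2_re hc t)
  have hu : (uu t : ℂ) ≠ 0 := by exact_mod_cast (uu_pos ht).ne'
  have hsu := ne_of_re (re_su hc t)
  have h1u := ne_of_re (re_1u t)
  have q1 := sq2_mul hc t
  have q2 : (uu t : ℂ) * (uu t : ℂ) = 1 - (Real.exp (-2 * t) : ℂ) := by
    have := uu_sq ht
    exact_mod_cast this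
  unfold zz at q1
  obtain ⟨s, hsd⟩ : ∃ s : ℂ, s = sq2 c t := ⟨_, rfl⟩
  obtain ⟨u, hud⟩ : ∃ u : ℂ, u = (uu t : ℂ) := ⟨_, rfl⟩
  obtain ⟨e, hed⟩ : ∃ e : ℂ, e = (Real.exp (-2 * t) : ℂ) := ⟨_, rfl⟩
  have key : (-c * e * s⁻¹ + e * u⁻¹) / (s + u) - e * u⁻¹ / (1 + u) = u⁻¹ * (s⁻¹ - 1) := by
    rw [← hsd, ← hed] at q1
    rw [← hud, ← hed] at q2
    rw [← hsd, ← hud] at hsu
    rw [← hsd] at hs
    rw [← hud] at hu h1u
    have q3 : e = 1 - u * u := by rw [q2]; ring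
    have q4 : c * e = s * s - 1 := by rw [q1]; ring
    have a1 : (-c * e * s⁻¹ + e * u⁻¹) / (s + u) = u⁻¹ * s⁻¹ * (1 - u * s) := by
      rw [div_eq_iff hsu]
      have : -c * e * s⁻¹ + e * u⁻¹ = u⁻¹ * s⁻¹ * (e * s - u * (c * e)) := by
        field_simp
        ring
      rw [this, q4, q3]
      ring
    have a2 : e * u⁻¹ / (1 + u) = u⁻¹ * (1 - u) := by
      rw [div_eq_iff h1u, q3]
      ring
    rw [a1, a2]
    field_simp
    ring
  have e2 : ff c t = (-c * (Real.exp (-2 * t) : ℂ) * (sq2 c t)⁻¹ +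
      ((Real.exp (-2 * t) * (uu t)⁻¹ : ℝ) : ℂ)) / (sq2 c t + (uu t : ℂ)) -
      ((Real.exp (-2 * t) * (uu t)⁻¹ : ℝ) : ℂ) / (1 + (uu t : ℂ)) := by
    rw [ff_eq]
    push_cast
    push_cast at hed
    rw [← hsd, ← hud, ← hed, key]
  rw [e2]
  exact h4

theorem continuous_uu : Continuous uu := by
  unfold uu
  fun_prop

theorem continuous_zz (c : ℂ) : Continuous (zz c) := by
  unfold zz
  fun_prop

theorem continuous_sq2 {c : ℂ} (hc : c ∈ slitPlane) : Continuous (sq2 c) := by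
  rw [continuous_iff_continuousAt]
  intro t
  exact (hasDerivAt_sq2 hc t).continuousAt

theorem continuous_GG {c : ℂ} (hc : c ∈ slitPlane) : Continuous (GG c) := by
  have h1 : Continuous (fun t : ℝ => ((uu t : ℝ) : ℂ)) :=
    Complex.continuous_ofReal.comp continuous_uu
  refine Continuous.sub ?_ ?_
  · exact ((continuous_sq2 hc).add h1).clog (fun t => slit_of_re (re_su hc t))
  · exact (continuous_const.add h1).clog (fun t => slit_of_re (re_1u t))

theorem tendsto_exp2 : Tendsto (fun t : ℝ => Real.exp (-2 * t)) atTop (𝓝 0) := by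
  apply Real.tendsto_exp_atBot.comp
  exact tendsto_id.const_mul_atTop_of_neg (by norm_num)

theorem tendsto_uu : Tendsto uu atTop (𝓝 1) := by
  have h1 : Tendsto (fun t : ℝ => 1 - Real.exp (-2 * t)) atTop (𝓝 (1 - 0)) :=
    tendsto_const_nhds.sub tendsto_exp2
  have h2 := (Real.continuous_sqrt.tendsto (1 - 0)).comp h1
  rw [sub_zero, Real.sqrt_one] at h2
  exact h2

theorem tendsto_sq2 (c : ℂ) : Tendsto (sq2 c) atTop (𝓝 1) := by
  have h0 : Tendsto (fun t : ℝ => (Real.exp (-2 * t) : ℂ)) atTop (𝓝 ((0 : ℝ) : ℂ)) :=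
    (Complex.continuous_ofReal.tendsto 0).comp tendsto_exp2
  have h1 : Tendsto (zz c) atTop (𝓝 (1 + c * ((0 : ℝ) : ℂ))) :=
    tendsto_const_nhds.add (tendsto_const_nhds.mul h0)
  rw [ofReal_zero, mul_zero, add_zero] at h1
  have h2 : ContinuousAt (fun z : ℂ => z ^ (1 / 2 : ℂ)) 1 :=
    continuousAt_cpow_const (slit_of_re (by simp))
  have h3 := h2.tendsto.comp h1
  rw [Complex.one_cpow] at h3
  exact h3

theorem tendsto_GG (c : ℂ) : Tendsto (GG c) atTop (𝓝 0) := by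
  have h0 : Tendsto (fun t : ℝ => ((uu t : ℝ) : ℂ)) atTop (𝓝 ((1 : ℝ) : ℂ)) :=
    (Complex.continuous_ofReal.tendsto 1).comp tendsto_uu
  rw [ofReal_one] at h0
  have h1 : Tendsto (fun t : ℝ => sq2 c t + (uu t : ℂ)) atTop (𝓝 (1 + 1)) := (tendsto_sq2 c).add h0
  have h2 : Tendsto (fun t : ℝ => 1 + (uu t : ℂ)) atTop (𝓝 (1 + 1)) :=
    tendsto_const_nhds.add h0
  have hs : (1 + 1 : ℂ) ∈ slitPlane := slit_of_re (by norm_num)
  have h3 := (h1.clog hs).sub (h2.clog hs)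
  rw [sub_self] at h3
  exact h3

theorem GG_zero {c : ℂ} (hc : c ∈ slitPlane) : GG c 0 = 1 / 2 * Complex.log (1 + c) := by
  have hz : (1 + c) ∈ slitPlane := by
    have := slit_x hc zero_le_one
    simpa using this
  have h1 : uu 0 = 0 := by
    unfold uu
    simp
  have h2 : zz c 0 = 1 + c := by
    unfold zz
    simp
  unfold GG sq2
  rw [h1, h2, ofReal_zero, add_zero, add_zero, Complex.log_one, sub_zero,
    Complex.cpow_def_of_ne_zero (slitPlane_ne_zero hz)]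
  have h3 : (Complex.log (1 + c) * (1 / 2)).im = (1 + c).arg / 2 := by
    have : (Complex.log (1 + c) * (1 / 2)) = Complex.log (1 + c) / 2 := by ring
    rw [this]
    rw [show (2 : ℂ) = ((2 : ℝ) : ℂ) by norm_num, Complex.div_ofReal_im, Complex.log_im]
  have h4 := Complex.neg_pi_lt_arg (1 + c)
  have h5 := Complex.arg_le_pi (1 + c)
  have h6 := Real.pi_pos
  rw [Complex.log_exp (by rw [h3]; linarith) (by rw [h3]; linarith)]
  ring

theorem integrable_q : IntegrableOn (fun t : ℝ => Real.exp (-2 * t) * (uu t)⁻¹) (Ioi 0) := by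
  refine integrableOn_Ioi_deriv_of_nonneg (g := uu) (l := 1) continuous_uu.continuousWithinAt
    (fun t ht => hasDerivAt_uu ht) (fun t ht => ?_) tendsto_uu
  exact mul_nonneg (Real.exp_pos _).le (inv_nonneg.mpr (uu_nonneg t))

theorem low_bound {c : ℂ} (hc : c ∈ slitPlane) : ∃ m : ℝ, 0 < m ∧
    ∀ x ∈ Icc (0 : ℝ) 1, m ≤ ‖(1 + c * (x : ℂ)) ^ (1 / 2 : ℂ)‖ := by
  have hcont : ContinuousOn (fun x : ℝ => ‖(1 + c * (x : ℂ)) ^ (1 / 2 : ℂ)‖) (Icc 0 1) := by
    apply ContinuousOn.norm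
    apply ContinuousOn.cpow_const
    · fun_prop
    · intro x hx
      exact slit_x hc hx.1
  obtain ⟨x0, hx0, hmin⟩ := isCompact_Icc.exists_isMinOn (nonempty_Icc.mpr zero_le_one) hcont
  refine ⟨_, ?_, fun x hx => hmin hx⟩
  rw [norm_pos_iff]
  exact ne_of_re (re_sqrt_pos (slit_x hc hx0.1))

theorem ff_bound {c : ℂ} (hc : c ∈ slitPlane) : ∃ C : ℝ, ∀ t ∈ Ioi (0 : ℝ),
    ‖ff c t‖ ≤ C * (Real.exp (-2 * t) * (uu t)⁻¹) := by
  obtain ⟨m, hm, hb⟩ := low_bound hc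
  refine ⟨‖c‖ / m, fun t ht => ?_⟩
  have hu := uu_pos ht
  have he := Real.exp_pos (-2 * t)
  have hs : m ≤ ‖sq2 c t‖ := hb _ ⟨he.le, (exp_lt ht).le⟩
  have hsn := ne_of_re (sq2_re hc t)
  have h1s : 1 ≤ ‖1 + sq2 c t‖ := by
    have h1 := Complex.re_le_norm (1 + sq2 c t)
    rw [add_re, one_re] at h1
    linarith [sq2_re hc t]
  have h1sn : 1 + sq2 c t ≠ 0 := by
    intro h
    rw [h, norm_zero] at h1s
    linarith
  have e1 : (sq2 c t)⁻¹ - 1 = -(c * (Real.exp (-2 * t) : ℂ)) / (sq2 c t * (1 + sq2 c t)) := by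
    have q1 := sq2_mul hc t
    unfold zz at q1
    have q2 : c * (Real.exp (-2 * t) : ℂ) = sq2 c t * sq2 c t - 1 := by rw [q1]; ring
    rw [q2]
    field_simp
    ring
  rw [ff_eq, norm_mul, norm_inv, Complex.norm_real, Real.norm_eq_abs, abs_of_pos hu, e1, norm_div,
    norm_neg, norm_mul, norm_mul, Complex.norm_real, Real.norm_eq_abs, abs_of_pos he]
  have h2 : ‖c‖ * Real.exp (-2 * t) / (‖sq2 c t‖ * ‖1 + sq2 c t‖) ≤ ‖c‖ * Real.exp (-2 * t) / m := by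
    apply div_le_div_of_nonneg_left (by positivity) hm
    calc m = m * 1 := (mul_one m).symm
      _ ≤ ‖sq2 c t‖ * ‖1 + sq2 c t‖ := mul_le_mul hs h1s zero_le_one (norm_nonneg _)
  calc (uu t)⁻¹ * (‖c‖ * Real.exp (-2 * t) / (‖sq2 c t‖ * ‖1 + sq2 c t‖))
      ≤ (uu t)⁻¹ * (‖c‖ * Real.exp (-2 * t) / m) :=
        mul_le_mul_of_nonneg_left h2 (inv_nonneg.mpr hu.le)
    _ = ‖c‖ / m * (Real.exp (-2 * t) * (uu t)⁻¹) := by ring

theorem integrable_ff {c : ℂ} (hc : c ∈ slitPlane) : IntegrableOn (ff c) (Ioi 0) := by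
  obtain ⟨C, hC⟩ := ff_bound hc
  refine Integrable.mono' (integrable_q.const_mul C) ?_ ?_
  · apply ContinuousOn.aestronglyMeasurable _ measurableSet_Ioi
    have h1 : ContinuousOn (fun t : ℝ => ((uu t : ℝ) : ℂ)⁻¹ * ((sq2 c t)⁻¹ - 1)) (Ioi 0) := by
      refine ContinuousOn.mul ?_ ?_
      · apply ContinuousOn.inv₀
        · exact (Complex.continuous_ofReal.comp continuous_uu).continuousOn
        · intro t ht
          exact_mod_cast (uu_pos ht).ne'
      · refine ContinuousOn.sub ?_ continuousOn_const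
        apply ContinuousOn.inv₀ (continuous_sq2 hc).continuousOn
        intro t _
        exact ne_of_re (sq2_re hc t)
    exact h1.congr (fun t _ => ff_eq c t)
  · exact (ae_restrict_iff' measurableSet_Ioi).mpr (Eventually.of_forall hC)

end PhiCX

open PhiCX in
theorem prfPhiC : PhiC := by
  intro c hc
  refine ⟨integrable_ff hc, ?_⟩
  have h := integral_Ioi_of_hasDerivAt_of_tendsto (f := GG c) (f' := ff c) (a := 0) (m := 0)
    (continuous_GG hc).continuousWithinAt (fun t ht => hasDerivAt_GG hc ht) (integrable_ff hc)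
    (tendsto_GG c)
  rw [GG_zero hc] at h
  have e : -(1 / 2) * Complex.log (1 + c) = 0 - 1 / 2 * Complex.log (1 + c) := by ring
  rw [e, ← h]
  rfl

end Pool.Agent.MultS.LB
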