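import Pool.Agent.Work.MP_b17785_an.LB.Stmts2

/-!
# The explicit form of the Lipschitz norm of multipliers of `S`, lower bound: the kernel `q`
-/

set_option autoImplicit false

open Complex Metric Set Filter Topology MeasureTheory
open scoped FourierTransform

namespace Pool.Agent.MultS.LB

namespace QQX

/-- the primitive of the kernel -/
noncomputable def Q (t : ℝ) : ℝ := Real.sqrt (1 - Real.exp (-2 * t))

/-- the kernel without the cut off -/
noncomputable def q (t : ℝ) : ℝ := Real.exp (-2 * t) * (Real.sqrt (1 - Real.exp (-2 * t)))⁻¹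

theorem exp_lt {t : ℝ} (ht : 0 < t) : Real.exp (-2 * t) < 1 := by
  rw [Real.exp_lt_one_iff]
  linarith

theorem q_nonneg (t : ℝ) : 0 ≤ q t := by
  unfold q
  positivity

theorem qq_nonneg (t : ℝ) : 0 ≤ qq t := by
  unfold qq
  split_ifs
  · positivity
  · exact le_rfl

theorem qq_eq : qq = indicator (Ioi (0 : ℝ)) q := by
  funext t
  by_cases h : 0 < t
  · rw [indicator_of_mem (mem_Ioi.mpr h)]
    unfold qq q
    rw [if_pos h]
  · rw [indicator_of_notMem (by simpa using h)]
    unfold qq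
    rw [if_neg h]

theorem hasDerivAt_Q {t : ℝ} (ht : 0 < t) : HasDerivAt Q (q t) t := by
  have h1 : HasDerivAt (fun t : ℝ => 1 - Real.exp (-2 * t)) (-(Real.exp (-2 * t) * (-2))) t := by
    have h2 : HasDerivAt (fun t : ℝ => -2 * t) (-2) t := by
      simpa using (hasDerivAt_id t).const_mul (-2 : ℝ)
    exact h2.exp.const_sub 1
  have h3 := h1.sqrt (by have := exp_lt ht; linarith)
  unfold Q q
  convert! h3 using 1
  rw [div_eq_mul_inv, mul_inv]
  ring

theorem continuous_Q : Continuous Q := by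
  unfold Q
  fun_prop

theorem Q_zero : Q 0 = 0 := by
  unfold Q
  simp

theorem tendsto_Q : Tendsto Q atTop (𝓝 1) := by
  have h1 : Tendsto (fun t : ℝ => -2 * t) atTop atBot :=
    tendsto_id.const_mul_atTop_of_neg (by norm_num)
  have h2 : Tendsto (fun t : ℝ => 1 - Real.exp (-2 * t)) atTop (𝓝 (1 - 0)) :=
    (Real.tendsto_exp_atBot.comp h1).const_sub 1
  have h3 := (Real.continuous_sqrt.tendsto (1 - 0)).comp h2
  rw [sub_zero, Real.sqrt_one] at h3
  exact h3

theorem integrableOn_q {a : ℝ} (ha : 0 ≤ a) : IntegrableOn q (Ioi a) :=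
  integrableOn_Ioi_deriv_of_nonneg (g := Q) continuous_Q.continuousWithinAt
    (fun _ hx => hasDerivAt_Q (lt_of_le_of_lt ha hx)) (fun x _ => q_nonneg x) tendsto_Q

theorem integral_q {a : ℝ} (ha : 0 ≤ a) : ∫ t in Ioi a, q t = 1 - Q a :=
  integral_Ioi_of_hasDerivAt_of_nonneg (g := Q) continuous_Q.continuousWithinAt
    (fun _ hx => hasDerivAt_Q (lt_of_le_of_lt ha hx)) (fun x _ => q_nonneg x) tendsto_Q

theorem integrable_qq : Integrable qq := by
  rw [qq_eq, integrable_indicator_iff measurableSet_Ioi]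
  exact integrableOn_q le_rfl

theorem integral_qq : ∫ t, qq t = 1 := by
  rw [qq_eq, integral_indicator measurableSet_Ioi, integral_q le_rfl, Q_zero, sub_zero]

theorem anti {s t : ℝ} (hs : 0 < s) (hst : s ≤ t) : qq t ≤ qq s := by
  have ht : 0 < t := lt_of_lt_of_le hs hst
  unfold qq
  rw [if_pos hs, if_pos ht]
  have h1 : Real.exp (-2 * t) ≤ Real.exp (-2 * s) := Real.exp_le_exp.mpr (by linarith)
  have h2 : 0 < Real.sqrt (1 - Real.exp (-2 * s)) :=
    Real.sqrt_pos.mpr (by have := exp_lt hs; linarith)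
  have h3 : Real.sqrt (1 - Real.exp (-2 * s)) ≤ Real.sqrt (1 - Real.exp (-2 * t)) :=
    Real.sqrt_le_sqrt (by linarith)
  exact mul_le_mul h1 (inv_anti₀ h2 h3) (by positivity) (Real.exp_pos _).le

theorem qq_of_nonpos {t : ℝ} (ht : t ≤ 0) : qq t = 0 := by
  unfold qq
  rw [if_neg (not_lt.mpr ht)]

/-- the `L¹` modulus of continuity for positive shifts -/
theorem modulus_pos {h : ℝ} (hh : 0 < h) : ∫ t, |qq t - qq (t + h)| ≤ 2 * Q h := by
  have h1 : Integrable (fun t => qq (t + h)) := integrable_qq.comp_add_right h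
  have h2 : Integrable (indicator (Iic (0 : ℝ)) fun t => qq (t + h)) :=
    h1.indicator measurableSet_Iic
  have hpt : ∀ t, |qq t - qq (t + h)| =
      (qq t - qq (t + h)) + 2 * indicator (Iic (0 : ℝ)) (fun t => qq (t + h)) t := by
    intro t
    by_cases ht : 0 < t
    · rw [indicator_of_notMem (by simpa using ht), mul_zero, add_zero,
        abs_of_nonneg (sub_nonneg.mpr (anti ht (by linarith)))]
    · rw [indicator_of_mem (mem_Iic.mpr (not_lt.mp ht)), qq_of_nonpos (not_lt.mp ht), zero_sub,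
        abs_neg, abs_of_nonneg (qq_nonneg _)]
      ring
  have h3 : ∫ t, indicator (Iic (0 : ℝ)) (fun t => qq (t + h)) t = Q h := by
    rw [integral_indicator measurableSet_Iic]
    have h4 : ∫ t in Iic (0 : ℝ), qq (t + h) = (∫ t, qq (t + h)) - ∫ t in Ioi (0 : ℝ), qq (t + h) := by
      rw [← intervalIntegral.integral_Iic_add_Ioi (b := (0 : ℝ)) h1.integrableOn h1.integrableOn]
      ring
    have h5 : ∫ t in Ioi (0 : ℝ), qq (t + h) = 1 - Q h := by
      rw [← integral_q hh.le]
      have h6 : ∫ t in Ioi (0 : ℝ), qq (t + h) = ∫ t in Ioi (0 : ℝ), q (t + h) := by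
        refine setIntegral_congr_fun measurableSet_Ioi fun t ht => ?_
        have ht' : 0 < t := ht
        have : 0 < t + h := by linarith
        rw [qq_eq, indicator_of_mem (mem_Ioi.mpr this)]
      rw [h6, ← integral_indicator measurableSet_Ioi, ← integral_indicator measurableSet_Ioi,
        ← integral_add_right_eq_self (indicator (Ioi h) q) h]
      refine integral_congr_ae (Eventually.of_forall fun t => ?_)
      show indicator (Ioi (0 : ℝ)) (fun t => q (t + h)) t = indicator (Ioi h) q (t + h)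
      by_cases ht : 0 < t
      · rw [indicator_of_mem (mem_Ioi.mpr ht), indicator_of_mem (mem_Ioi.mpr (by linarith))]
      · rw [indicator_of_notMem (by simpa using ht), indicator_of_notMem (by simpa using ht)]
    rw [h4, h5, integral_add_right_eq_self qq h, integral_qq]
    ring
  have h7 : ∫ t, |qq t - qq (t + h)| = 2 * Q h := by
    simp_rw [hpt]
    rw [integral_add (f := fun t => qq t - qq (t + h)) (integrable_qq.sub h1)
      (h2.const_mul 2), integral_sub (f := fun t => qq t) (g := fun t => qq (t + h))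
      integrable_qq h1, integral_add_right_eq_self qq h, sub_self, zero_add, integral_const_mul,
      h3]
  exact h7.le

theorem modulus {h : ℝ} (hh : h ≠ 0) : ∫ t, |qq t - qq (t + h)| ≤ 2 * Q |h| := by
  rcases lt_or_gt_of_ne hh with h0 | h0
  · rw [abs_of_neg h0]
    have h1 := modulus_pos (h := -h) (by linarith)
    have h2 : ∫ t, |qq t - qq (t + h)| = ∫ t, |qq t - qq (t + -h)| := by
      rw [← integral_add_right_eq_self (fun t => |qq t - qq (t + h)|) (-h)]
      refine integral_congr_ae (Eventually.of_forall fun t => ?_)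
      show |qq (t + -h) - qq (t + -h + h)| = |qq t - qq (t + -h)|
      rw [neg_add_cancel_right, abs_sub_comm]
    rw [h2]
    exact h1
  · rw [abs_of_pos h0]
    exact modulus_pos h0

theorem Q_le {h : ℝ} (_ : 0 ≤ h) : Q h ≤ Real.sqrt (2 * h) := by
  unfold Q
  refine Real.sqrt_le_sqrt ?_
  have := Real.add_one_le_exp (-2 * h)
  linarith

theorem norm_fourier_le_one (ξ : ℝ) : ‖𝓕 (fun t : ℝ => (qq t : ℂ)) ξ‖ ≤ 1 := by
  rw [Real.fourier_eq]
  refine (norm_integral_le_integral_norm _).trans ?_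
  simp_rw [Circle.norm_smul, Complex.norm_real, Real.norm_eq_abs]
  have h1 : ∀ t, |qq t| = qq t := fun t => abs_of_nonneg (qq_nonneg t)
  simp_rw [h1]
  exact integral_qq.le

theorem norm_fourier_le {ξ : ℝ} (hξ : ξ ≠ 0) :
    ‖𝓕 (fun t : ℝ => (qq t : ℂ)) ξ‖ ≤ Real.sqrt (1 / |ξ|) := by
  have hint : Integrable (fun t : ℝ => (qq t : ℂ)) := integrable_qq.ofReal
  rw [Real.fourier_eq, fourierIntegral_eq_half_sub_half_period_translate hξ hint]
  set h : ℝ := (1 / (2 * ‖ξ‖ ^ 2) : ℝ) • ξ with hh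
  have habs : 0 < |ξ| := abs_pos.mpr hξ
  have hh0 : |h| = 1 / (2 * |ξ|) := by
    rw [hh, smul_eq_mul, abs_mul, Real.norm_eq_abs, abs_of_pos (by positivity)]
    field_simp
  have hne : h ≠ 0 := by
    rw [← abs_pos, hh0]
    positivity
  rw [norm_smul]
  have h1 : ‖∫ v : ℝ, 𝐞 (-inner ℝ v ξ) • ((qq v : ℂ) - (qq (v + h) : ℂ))‖ ≤ 2 * Q |h| := by
    refine (norm_integral_le_integral_norm _).trans ?_
    refine le_trans (le_of_eq ?_) (modulus hne)
    refine integral_congr_ae (Eventually.of_forall fun v => ?_)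
    show ‖𝐞 (-inner ℝ v ξ) • ((qq v : ℂ) - (qq (v + h) : ℂ))‖ = |qq v - qq (v + h)|
    rw [Circle.norm_smul, ← Complex.ofReal_sub, Complex.norm_real, Real.norm_eq_abs]
  have h2 : Q |h| ≤ Real.sqrt (1 / |ξ|) := by
    refine (Q_le (abs_nonneg h)).trans (le_of_eq ?_)
    rw [hh0]
    congr 1
    field_simp
  have h3 : ‖(1 / (2 : ℂ))‖ = 1 / 2 := by simp
  rw [h3]
  calc 1 / 2 * ‖∫ v : ℝ, 𝐞 (-inner ℝ v ξ) • ((qq v : ℂ) - (qq (v + h) : ℂ))‖
      ≤ 1 / 2 * (2 * Q |h|) := mul_le_mul_of_nonneg_left h1 (by norm_num)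
    _ = Q |h| := by ring
    _ ≤ _ := h2

end QQX

theorem prfQQ : QQ := by
  refine ⟨QQX.integrable_qq, QQX.integral_qq, QQX.qq_nonneg, ?_⟩
  intro ξ
  rcases le_or_gt |ξ| 1 with h | h
  · have h1 := QQX.norm_fourier_le_one ξ
    have h2 : ‖𝓕 (fun t : ℝ => (qq t : ℂ)) ξ‖ ^ 2 ≤ 1 := pow_le_one₀ (norm_nonneg _) h1
    refine h2.trans ?_
    rw [le_div_iff₀ (by positivity)]
    linarith
  · have hξ : ξ ≠ 0 := by
      intro h0
      rw [h0, abs_zero] at h
      linarith
    have hpos : 0 < |ξ| := abs_pos.mpr hξ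
    have h1 := QQX.norm_fourier_le hξ
    have h2 : ‖𝓕 (fun t : ℝ => (qq t : ℂ)) ξ‖ ^ 2 ≤ 1 / |ξ| := by
      have := pow_le_pow_left₀ (norm_nonneg _) h1 2
      rwa [Real.sq_sqrt (by positivity)] at this
    refine h2.trans ?_
    rw [div_le_div_iff₀ hpos (by positivity)]
    linarith

end Pool.Agent.MultS.LB
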