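import Pool.Agent.Work.MP_b17785_an.LB.Stmts

/-!
# The remainder for the function `(w - 1)/(y - i kappa)` (item K5)
-/

set_option autoImplicit false

open Complex Metric Set Filter Topology MeasureTheory
open Pool.Agent.MultS.Lip

namespace Pool.Agent.MultS.LB

namespace RemWX

/-- The domain of the Taylor expansion. -/
def EE : Set ℂ := {Y : ℂ | -(1 / 2) < Y.re ∧ ‖Y‖ < 4}

/-- The square root. -/
noncomputable def rt (Y : ℂ) : ℂ := (1 + Y) ^ (2⁻¹ : ℂ)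

lemma rt_sq (Y : ℂ) : rt Y ^ 2 = 1 + Y := by
  rw [rt]
  exact Complex.cpow_ofNat_inv_pow _ 2

lemma slit {Y : ℂ} (hY : Y ∈ EE) : 1 + Y ∈ Complex.slitPlane := by
  rw [Complex.mem_slitPlane_iff]
  left
  rw [Complex.add_re, Complex.one_re]
  have := hY.1
  linarith

lemma rt_pos {Y : ℂ} (hY : Y ∈ EE) : 0 < (rt Y).re := by
  have hs := slit hY
  have hne : 1 + Y ≠ 0 := Complex.slitPlane_ne_zero hs
  have harg := (Complex.mem_slitPlane_iff_arg.mp hs).1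
  rw [rt, Complex.cpow_def_of_ne_zero hne, Complex.exp_re]
  refine mul_pos (Real.exp_pos _) ?_
  have h2 : (Complex.log (1 + Y) * 2⁻¹).im = (1 + Y).arg / 2 := by
    have h : Complex.log (1 + Y) * 2⁻¹ = Complex.log (1 + Y) / 2 := by ring
    rw [h]
    simp [Complex.log_im]
  rw [h2]
  apply Real.cos_pos_of_mem_Ioo
  constructor
  · have := Complex.neg_pi_lt_arg (1 + Y)
    linarith
  · have := lt_of_le_of_ne (Complex.arg_le_pi (1 + Y)) harg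
    linarith

lemma rt_half {Y : ℂ} (hY : Y ∈ EE) : 1 / 2 ≤ (rt Y).re := by
  have h1 := rt_pos hY
  have h2 := congrArg Complex.re (rt_sq Y)
  rw [sq, Complex.mul_re, Complex.add_re, Complex.one_re] at h2
  have h3 := hY.1
  by_contra hc
  push Not at hc
  have h4 : (rt Y).re * (rt Y).re < 1 / 2 * (1 / 2) :=
    mul_self_lt_mul_self h1.le hc
  have h5 := mul_self_nonneg (rt Y).im
  linarith

lemma rt_eq {y : ℂ} (hy : y ∈ Hp) : rt (y ^ 2 - 1) = y := by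
  rw [rt]
  have : 1 + (y ^ 2 - 1) = y ^ 2 := by ring
  rw [this]
  exact Complex.sq_cpow_two_inv hy

lemma rt_diff : DifferentiableOn ℂ rt EE := by
  intro Y hY
  have h : DifferentiableAt ℂ (fun Y : ℂ => 1 + Y) Y := by fun_prop
  exact (h.cpow_const (slit hY)).differentiableWithinAt

/-- The function of `Y`. -/
noncomputable def hh (t κ₀ : ℝ) (Y : ℂ) : ℂ :=
  ((1 + (Real.exp (-2 * t) : ℂ) * Y) ^ (-(3 / 2) : ℂ) - 1) / (rt Y - I * (κ₀ : ℂ))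

lemma den_re (κ₀ : ℝ) (z : ℂ) : (z - I * (κ₀ : ℂ)).re = z.re := by
  rw [Complex.sub_re, Complex.I_mul_re, Complex.ofReal_im]
  simp

lemma den_ne (κ₀ : ℝ) {z : ℂ} (hz : 0 < z.re) : z - I * (κ₀ : ℂ) ≠ 0 := by
  intro h
  have := den_re κ₀ z
  rw [h, Complex.zero_re] at this
  linarith

lemma hh_eq {t κ₀ : ℝ} {y : ℂ} (hy : y ∈ Hp) :
    hh t κ₀ (y ^ 2 - 1) = (ww t y - 1) / (y - I * (κ₀ : ℂ)) := by
  rw [hh, rt_eq hy, ww]

lemma hh_norm {t κ₀ A : ℝ} {Y : ℂ} (hY : Y ∈ EE)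
    (h : ‖(1 + (Real.exp (-2 * t) : ℂ) * Y) ^ (-(3 / 2) : ℂ) - 1‖ ≤ A) :
    ‖hh t κ₀ Y‖ ≤ 2 * A := by
  have hA : 0 ≤ A := le_trans (norm_nonneg _) h
  have h1 : 1 / 2 ≤ ‖rt Y - I * (κ₀ : ℂ)‖ :=
    calc 1 / 2 ≤ (rt Y).re := rt_half hY
      _ = (rt Y - I * (κ₀ : ℂ)).re := (den_re _ _).symm
      _ ≤ _ := Complex.re_le_norm _
  rw [hh, norm_div, div_le_iff₀ (by linarith)]
  calc _ ≤ A := h
    _ = 2 * A * (1 / 2) := by ring
    _ ≤ _ := mul_le_mul_of_nonneg_left h1 (by linarith)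

lemma onep {v : ℂ} (hv : v ∈ Hp) : 1 + v ^ 2 ≠ 0 := by
  intro h
  have hv' : 0 < v.re := hv
  have h1 : (v - I) * (v + I) = 0 := by
    have : (v - I) * (v + I) = 1 + v ^ 2 - (1 + I ^ 2) := by ring
    rw [this, h, Complex.I_sq]
    ring
  rcases mul_eq_zero.1 h1 with h2 | h2
  · have := congrArg Complex.re h2
    simp at this
    linarith
  · have := congrArg Complex.re h2
    simp at this
    linarith

/-- The standard integrand. -/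
noncomputable def gg (c : ℂ) (v : ℂ) : ℝ := ((1 + ‖v‖) ^ 3)⁻¹ * (1 + ‖v - c‖ ^ (-(3 / 2) : ℝ))

lemma gg_nonneg (c v : ℂ) : 0 ≤ gg c v := by
  unfold gg
  have : 0 ≤ ‖v - c‖ ^ (-(3 / 2) : ℝ) := Real.rpow_nonneg (norm_nonneg _) _
  positivity

lemma gg_meas (c : ℂ) : Measurable (fun v => ENNReal.ofReal (gg c v)) := by
  unfold gg
  fun_prop

/-- `x^{-1} ≤ 1 + x^{-3/2}`. -/
lemma invx {x : ℝ} (hx : 0 < x) : x⁻¹ ≤ 1 + x ^ (-(3 / 2) : ℝ) := by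
  rcases le_total 1 x with h | h
  · have h1 : x⁻¹ ≤ 1 := inv_le_one_of_one_le₀ h
    have h2 : 0 ≤ x ^ (-(3 / 2) : ℝ) := Real.rpow_nonneg hx.le _
    linarith
  · have h1 : x ^ (-1 : ℝ) ≤ x ^ (-(3 / 2) : ℝ) :=
      Real.rpow_le_rpow_of_exponent_ge hx h (by norm_num)
    rw [Real.rpow_neg_one] at h1
    linarith

lemma invq {v : ℂ} (hv : v ∈ Hp) : ‖(1 + v ^ 2)⁻¹‖ ≤
    (1 + ‖v - I‖ ^ (-(3 / 2) : ℝ)) + (1 + ‖v - -I‖ ^ (-(3 / 2) : ℝ)) := by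
  have hv' : 0 < v.re := hv
  have h1 : v - I ≠ 0 := by
    intro h
    have := congrArg Complex.re h
    simp at this
    linarith
  have h2 : v - -I ≠ 0 := by
    intro h
    have := congrArg Complex.re h
    simp at this
    linarith
  have e : (1 + v ^ 2)⁻¹ = (-(I / 2)) * ((v - I)⁻¹ - (v - -I)⁻¹) := by
    have h3 : 1 + v ^ 2 = (v - I) * (v - -I) := by
      have : (v - I) * (v - -I) = v ^ 2 - I ^ 2 := by ring
      rw [this, Complex.I_sq]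
      ring
    rw [h3]
    field_simp
    ring_nf
    rw [Complex.I_sq]
    ring
  rw [e, norm_mul]
  have h4 : ‖-(I / 2)‖ = 1 / 2 := by
    rw [norm_neg, norm_div, Complex.norm_I]
    norm_num
  rw [h4]
  have h5 : ‖(v - I)⁻¹ - (v - -I)⁻¹‖ ≤ ‖v - I‖⁻¹ + ‖v - -I‖⁻¹ := by
    refine le_trans (norm_sub_le _ _) ?_
    rw [norm_inv, norm_inv]
  have h6 := invx (norm_pos_iff.2 h1)
  have h7 := invx (norm_pos_iff.2 h2)
  have h8 : 0 ≤ ‖(v - I)⁻¹ - (v - -I)⁻¹‖ := norm_nonneg _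
  linarith

lemma mo_norm {y₁ v : ℂ} (hv : v ∈ Hp) (h3 : ‖y₁ ^ 2‖ ≤ 3) : ‖mo y₁ v‖ ≤
    18 * ((1 + ‖v - I‖ ^ (-(3 / 2) : ℝ)) + (1 + ‖v - -I‖ ^ (-(3 / 2) : ℝ))) := by
  have e : mo y₁ v = (1 + y₁ ^ 2) - (1 + y₁ ^ 2) ^ 2 * (1 + v ^ 2)⁻¹ := by
    have h := onep hv
    rw [mo]
    field_simp
    ring
  have h1 : ‖1 + y₁ ^ 2‖ ≤ 4 := by
    refine le_trans (norm_add_le _ _) ?_
    rw [norm_one]
    linarith
  have h2 := invq hv
  have h4 : ‖(1 + y₁ ^ 2) ^ 2‖ ≤ 16 := by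
    rw [norm_pow]
    calc _ ≤ (4 : ℝ) ^ 2 := pow_le_pow_left₀ (norm_nonneg _) h1 2
      _ = 16 := by norm_num
  have h5 : ‖(1 + y₁ ^ 2) ^ 2 * (1 + v ^ 2)⁻¹‖ ≤
      16 * ((1 + ‖v - I‖ ^ (-(3 / 2) : ℝ)) + (1 + ‖v - -I‖ ^ (-(3 / 2) : ℝ))) := by
    rw [norm_mul]
    exact mul_le_mul h4 h2 (norm_nonneg _) (by norm_num)
  have h6 : 0 ≤ ‖v - I‖ ^ (-(3 / 2) : ℝ) := Real.rpow_nonneg (norm_nonneg _) _
  have h7 : 0 ≤ ‖v - -I‖ ^ (-(3 / 2) : ℝ) := Real.rpow_nonneg (norm_nonneg _) _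
  rw [e]
  have h8 := norm_sub_le (1 + y₁ ^ 2) ((1 + y₁ ^ 2) ^ 2 * (1 + v ^ 2)⁻¹)
  linarith

/-- The pointwise bound. -/
lemma ptw {A T ε φ κ₀ : ℝ} {v W c c₁ d y₁ : ℂ} (hA : 0 < A) (hT : 0 < T) (hε : 0 < ε)
    (hφ : 0 < φ) (heφ : ε ≤ A * φ) (hκ : |κ₀| ≤ 1 / 1000) (hv : v ∈ Hp)
    (hW : ‖W - 1‖ ≤ A * ε * (1 + ‖v‖) ^ 2 * (1 + ‖W‖))
    (hW2 : ε * ‖W‖ ≤ A * φ * (‖v - c‖ ^ (-(3 / 2) : ℝ) + ‖v - -c‖ ^ (-(3 / 2) : ℝ)))
    (hc : ‖c₁‖ ≤ 2 * (A * ε)) (hd : ‖d‖ ≤ T * (2 * (A * ε))) (h3 : ‖y₁ ^ 2‖ ≤ 3) :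
    ‖(W - 1) / (v - I * (κ₀ : ℂ)) - c₁ - d * mo y₁ v‖ * ‖v - I * (κ₀ : ℂ)‖ ^ 2 /
      (1 + ‖v‖) ^ 6 ≤ (A ^ 2 * (3 + 36 * T)) * φ * (gg c v + gg (-c) v + (gg I v + gg (-I) v)) := by
  have hv' : 0 < v.re := hv
  set n := ‖v - I * (κ₀ : ℂ)‖ with hn
  set m := 1 + ‖v‖ with hm
  have hm1 : 1 ≤ m := by have := norm_nonneg v; linarith
  have hm0 : 0 < m := by linarith
  have hn0 : 0 < n := norm_pos_iff.2 (den_ne κ₀ hv')
  have hnm : n ≤ m := by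
    have h1 : ‖I * (κ₀ : ℂ)‖ = |κ₀| := by
      rw [norm_mul, Complex.norm_I, one_mul, Complex.norm_real, Real.norm_eq_abs]
    have h2 := norm_sub_le v (I * (κ₀ : ℂ))
    rw [h1] at h2
    linarith
  set p := ‖v - c‖ ^ (-(3 / 2) : ℝ) with hp
  set q := ‖v - -c‖ ^ (-(3 / 2) : ℝ) with hq
  set p' := ‖v - I‖ ^ (-(3 / 2) : ℝ) with hp'
  set q' := ‖v - -I‖ ^ (-(3 / 2) : ℝ) with hq'
  have hp0 : 0 ≤ p := Real.rpow_nonneg (norm_nonneg _) _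
  have hq0 : 0 ≤ q := Real.rpow_nonneg (norm_nonneg _) _
  have hp0' : 0 ≤ p' := Real.rpow_nonneg (norm_nonneg _) _
  have hq0' : 0 ≤ q' := Real.rpow_nonneg (norm_nonneg _) _
  have hg1 : gg c v = (m ^ 3)⁻¹ * (1 + p) := rfl
  have hg2 : gg (-c) v = (m ^ 3)⁻¹ * (1 + q) := rfl
  have hg3 : gg I v = (m ^ 3)⁻¹ * (1 + p') := rfl
  have hg4 : gg (-I) v = (m ^ 3)⁻¹ * (1 + q') := rfl
  have hs : 0 < (m ^ 3)⁻¹ := by positivity
  -- first term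
  have t1 : ‖(W - 1) / (v - I * (κ₀ : ℂ))‖ * (n ^ 2 / m ^ 6) ≤
      A ^ 2 * φ * ((m ^ 3)⁻¹ * ((1 + p) + (1 + q))) := by
    have e1 : ‖(W - 1) / (v - I * (κ₀ : ℂ))‖ * (n ^ 2 / m ^ 6) = ‖W - 1‖ * (n / m ^ 6) := by
      rw [norm_div, ← hn]
      field_simp
    rw [e1]
    have h1 : ‖W - 1‖ * (n / m ^ 6) ≤ (A * ε * m ^ 2 * (1 + ‖W‖)) * (m / m ^ 6) := by
      refine mul_le_mul hW ?_ (by positivity) (by positivity)
      exact div_le_div_of_nonneg_right hnm (by positivity)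
    have h2 : (A * ε * m ^ 2 * (1 + ‖W‖)) * (m / m ^ 6) = A * (m ^ 3)⁻¹ * (ε + ε * ‖W‖) := by
      field_simp
    have h3 : ε + ε * ‖W‖ ≤ A * φ * ((1 + p) + (1 + q)) := by
      have : 0 ≤ A * φ := by positivity
      calc ε + ε * ‖W‖ ≤ A * φ + A * φ * (p + q) := add_le_add heφ hW2
        _ = A * φ * (1 + (p + q)) := by ring
        _ ≤ _ := mul_le_mul_of_nonneg_left (by linarith) this
    calc _ ≤ _ := h1
      _ = _ := h2
      _ ≤ A * (m ^ 3)⁻¹ * (A * φ * ((1 + p) + (1 + q))) :=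
        mul_le_mul_of_nonneg_left h3 (by positivity)
      _ = _ := by ring
  have hnn : n ^ 2 / m ^ 6 ≤ (m ^ 3)⁻¹ := by
    rw [div_le_iff₀ (by positivity)]
    have h1 : n ^ 2 ≤ m ^ 2 := pow_le_pow_left₀ hn0.le hnm 2
    have h2 : m ^ 2 ≤ m ^ 3 := pow_le_pow_right₀ hm1 (by norm_num)
    have h3 : (m ^ 3)⁻¹ * m ^ 6 = m ^ 3 := by field_simp
    rw [h3]
    linarith
  have hnn0 : 0 ≤ n ^ 2 / m ^ 6 := by positivity
  have t2 : ‖c₁‖ * (n ^ 2 / m ^ 6) ≤ 2 * (A ^ 2 * φ) * ((m ^ 3)⁻¹ * (1 + p)) := by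
    have h1 : ‖c₁‖ ≤ 2 * (A ^ 2 * φ) := by
      calc ‖c₁‖ ≤ 2 * (A * ε) := hc
        _ ≤ 2 * (A * (A * φ)) := by
          exact mul_le_mul_of_nonneg_left (mul_le_mul_of_nonneg_left heφ hA.le) (by norm_num)
        _ = _ := by ring
    refine mul_le_mul h1 ?_ hnn0 (by positivity)
    calc _ ≤ (m ^ 3)⁻¹ * 1 := by rw [mul_one]; exact hnn
      _ ≤ _ := mul_le_mul_of_nonneg_left (by linarith) hs.le
  have t3 : ‖d * mo y₁ v‖ * (n ^ 2 / m ^ 6) ≤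
      36 * T * (A ^ 2 * φ) * ((m ^ 3)⁻¹ * ((1 + p') + (1 + q'))) := by
    have h1 : ‖d‖ ≤ 2 * T * (A ^ 2 * φ) := by
      calc ‖d‖ ≤ T * (2 * (A * ε)) := hd
        _ ≤ T * (2 * (A * (A * φ))) := by
          refine mul_le_mul_of_nonneg_left ?_ hT.le
          exact mul_le_mul_of_nonneg_left (mul_le_mul_of_nonneg_left heφ hA.le) (by norm_num)
        _ = _ := by ring
    have h2 := mo_norm (y₁ := y₁) hv h3
    rw [norm_mul]
    calc _ ≤ (2 * T * (A ^ 2 * φ)) * (18 * ((1 + p') + (1 + q'))) * (m ^ 3)⁻¹ := by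
          refine mul_le_mul ?_ hnn hnn0 (by positivity)
          exact mul_le_mul h1 h2 (norm_nonneg _) (by positivity)
      _ = _ := by ring
  have t4 : ‖(W - 1) / (v - I * (κ₀ : ℂ)) - c₁ - d * mo y₁ v‖ ≤
      ‖(W - 1) / (v - I * (κ₀ : ℂ))‖ + ‖c₁‖ + ‖d * mo y₁ v‖ := by
    have h1 := norm_sub_le ((W - 1) / (v - I * (κ₀ : ℂ)) - c₁) (d * mo y₁ v)
    have h2 := norm_sub_le ((W - 1) / (v - I * (κ₀ : ℂ))) c₁
    linarith
  have hAφ : 0 ≤ A ^ 2 * φ := by positivity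
  calc _ = ‖(W - 1) / (v - I * (κ₀ : ℂ)) - c₁ - d * mo y₁ v‖ * (n ^ 2 / m ^ 6) := by
        rw [mul_div_assoc]
    _ ≤ (‖(W - 1) / (v - I * (κ₀ : ℂ))‖ + ‖c₁‖ + ‖d * mo y₁ v‖) * (n ^ 2 / m ^ 6) :=
        mul_le_mul_of_nonneg_right t4 hnn0
    _ = ‖(W - 1) / (v - I * (κ₀ : ℂ))‖ * (n ^ 2 / m ^ 6) + ‖c₁‖ * (n ^ 2 / m ^ 6) +
        ‖d * mo y₁ v‖ * (n ^ 2 / m ^ 6) := by ring
    _ ≤ A ^ 2 * φ * ((m ^ 3)⁻¹ * ((1 + p) + (1 + q))) +
        2 * (A ^ 2 * φ) * ((m ^ 3)⁻¹ * (1 + p)) +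
        36 * T * (A ^ 2 * φ) * ((m ^ 3)⁻¹ * ((1 + p') + (1 + q'))) := by
      exact add_le_add (add_le_add t1 t2) t3
    _ ≤ _ := by
      rw [hg1, hg2, hg3, hg4]
      have e : (A ^ 2 * (3 + 36 * T)) * φ * ((m ^ 3)⁻¹ * (1 + p) + (m ^ 3)⁻¹ * (1 + q) +
          ((m ^ 3)⁻¹ * (1 + p') + (m ^ 3)⁻¹ * (1 + q'))) -
          (A ^ 2 * φ * ((m ^ 3)⁻¹ * ((1 + p) + (1 + q))) +
        2 * (A ^ 2 * φ) * ((m ^ 3)⁻¹ * (1 + p)) +
        36 * T * (A ^ 2 * φ) * ((m ^ 3)⁻¹ * ((1 + p') + (1 + q')))) =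
          A ^ 2 * φ * (m ^ 3)⁻¹ * (36 * T * (1 + p) + (2 + 36 * T) * (1 + q) +
            3 * ((1 + p') + (1 + q'))) := by ring
      have h0 : 0 ≤ A ^ 2 * φ * (m ^ 3)⁻¹ * (36 * T * (1 + p) + (2 + 36 * T) * (1 + q) +
            3 * ((1 + p') + (1 + q'))) := by positivity
      rw [← e] at h0
      linarith

/-- The integral of the sum. -/
lemma intg {J K : ℝ} (hJ0 : 0 < J) (hK : 0 < K)
    (hJ : ∀ c : ℂ, ∫⁻ y : ℂ, ENNReal.ofReal (gg c y) ≤ ENNReal.ofReal J) {F : ℂ → ℝ} {c : ℂ}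
    (hF : ∀ v ∈ Hp, F v ≤ K * (gg c v + gg (-c) v + (gg I v + gg (-I) v))) :
    ∫⁻ v in Hp, ENNReal.ofReal (F v) ≤ ENNReal.ofReal (4 * K * J) := by
  have hHp : MeasurableSet Hp := by
    unfold Hp
    exact measurableSet_lt measurable_const Complex.measurable_re
  calc ∫⁻ v in Hp, ENNReal.ofReal (F v)
      ≤ ∫⁻ v in Hp, ENNReal.ofReal K * ((ENNReal.ofReal (gg c v) + ENNReal.ofReal (gg (-c) v)) +
        (ENNReal.ofReal (gg I v) + ENNReal.ofReal (gg (-I) v))) := by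
        refine setLIntegral_mono' hHp (fun v hv => ?_)
        rw [← ENNReal.ofReal_add (gg_nonneg _ _) (gg_nonneg _ _),
          ← ENNReal.ofReal_add (gg_nonneg _ _) (gg_nonneg _ _),
          ← ENNReal.ofReal_add (add_nonneg (gg_nonneg _ _) (gg_nonneg _ _))
            (add_nonneg (gg_nonneg _ _) (gg_nonneg _ _)), ← ENNReal.ofReal_mul hK.le]
        exact ENNReal.ofReal_le_ofReal (hF v hv)
    _ ≤ ∫⁻ v, ENNReal.ofReal K * ((ENNReal.ofReal (gg c v) + ENNReal.ofReal (gg (-c) v)) +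
        (ENNReal.ofReal (gg I v) + ENNReal.ofReal (gg (-I) v))) := setLIntegral_le_lintegral _ _
    _ = ENNReal.ofReal K * (((∫⁻ v, ENNReal.ofReal (gg c v)) +
        (∫⁻ v, ENNReal.ofReal (gg (-c) v))) +
        ((∫⁻ v, ENNReal.ofReal (gg I v)) + (∫⁻ v, ENNReal.ofReal (gg (-I) v)))) := by
        have h1 : Measurable
            (fun v => ENNReal.ofReal (gg c v) + ENNReal.ofReal (gg (-c) v)) :=
          (gg_meas _).add (gg_meas _)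
        rw [lintegral_const_mul' _ _ ENNReal.ofReal_ne_top,
          lintegral_add_left h1, lintegral_add_left (gg_meas _),
          lintegral_add_left (gg_meas _)]
    _ ≤ ENNReal.ofReal K * ((ENNReal.ofReal J + ENNReal.ofReal J) +
        (ENNReal.ofReal J + ENNReal.ofReal J)) := by
        gcongr
        · exact hJ _
        · exact hJ _
        · exact hJ _
        · exact hJ _
    _ = ENNReal.ofReal (4 * K * J) := by
        rw [← ENNReal.ofReal_add hJ0.le hJ0.le, ← ENNReal.ofReal_add (by linarith) (by linarith),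
          ← ENNReal.ofReal_mul hK.le]
        congr 1
        ring

end RemWX

open RemWX in
/-- [K5] The remainder for the function `(w-1)/(y-iκ)`. -/
theorem prfRemW (hTM : TM) (hWB : WB) (hJ : J2) : RemW := by
  obtain ⟨T, hT, hTM⟩ := hTM
  obtain ⟨A, hA, hWB⟩ := hWB
  obtain ⟨J, hJ0, hJ⟩ := hJ
  refine ⟨2 * T * A + 4 * (A ^ 2 * (3 + 36 * T)) * J, by positivity, ?_⟩
  intro κ₀ t y₁ hκ ht hy₁ hre hn3
  obtain ⟨w1, w2, w3, w4, w5, w6⟩ := hWB t ht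
  set ε := Real.exp (-2 * t) with hε
  set φ := Real.exp (-(t / 4)) * t ^ (-(3 / 4) : ℝ) with hφ
  have hε0 : 0 < ε := Real.exp_pos _
  have hφ0 : 0 < φ := mul_pos (Real.exp_pos _) (Real.rpow_pos_of_pos ht _)
  have hbd : ∀ Y : ℂ, -(1 / 2) < Y.re → ‖Y‖ < 4 → ‖hh t κ₀ Y‖ ≤ 2 * (A * ε) := by
    intro Y h1 h2
    exact hh_norm ⟨h1, h2⟩ (w6 Y h1 h2)
  have hdif : DifferentiableOn ℂ (hh t κ₀) {Y : ℂ | -(1 / 2) < Y.re ∧ ‖Y‖ < 4} := by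
    unfold hh
    refine DifferentiableOn.div (w5.sub_const 1) (rt_diff.sub_const _) ?_
    intro Y hY
    exact den_ne κ₀ (rt_pos hY)
  have hY1re : -(1 / 4) ≤ (y₁ ^ 2 - 1).re := by
    rw [Complex.sub_re, Complex.one_re]
    linarith
  have hY1n : ‖y₁ ^ 2 - 1‖ ≤ 3 := by
    have e : ‖y₁ ^ 2 - 1‖ ^ 2 = ‖y₁ ^ 2‖ ^ 2 - 2 * (y₁ ^ 2).re + 1 := by
      rw [← Complex.normSq_eq_norm_sq, ← Complex.normSq_eq_norm_sq, Complex.normSq_apply,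
        Complex.normSq_apply, Complex.sub_re, Complex.sub_im, Complex.one_re, Complex.one_im]
      ring
    have h2 : ‖y₁ ^ 2‖ ^ 2 ≤ 3 ^ 2 := pow_le_pow_left₀ (norm_nonneg _) hn3 2
    refine le_of_sq_le_sq ?_ (by norm_num)
    rw [e]
    linarith
  obtain ⟨hd, hTY⟩ := hTM (hh t κ₀) (2 * (A * ε)) hdif hbd (y₁ ^ 2 - 1) hY1re hY1n
  set d := deriv (hh t κ₀) (y₁ ^ 2 - 1) with hdd
  have hc1 : ‖(ww t y₁ - 1) / (y₁ - I * (κ₀ : ℂ))‖ ≤ 2 * (A * ε) := by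
    rw [← hh_eq hy₁]
    exact hbd _ (by linarith) (by linarith)
  have hb1 : 0 ≤ 4 * (A ^ 2 * (3 + 36 * T)) * J := by positivity
  have hb2 : 0 ≤ 2 * T * A := by positivity
  refine ⟨d, ?_, ?_, ?_, ?_⟩
  · calc ‖d‖ ≤ T * (2 * (A * ε)) := hd
      _ = 2 * T * A * ε := by ring
      _ ≤ _ := mul_le_mul_of_nonneg_right (by linarith) hε0.le
  · have h1 : DifferentiableOn ℂ (fun v : ℂ => (ww t v - 1) / (v - I * (κ₀ : ℂ))) Hp := by
      refine DifferentiableOn.div (w1.sub_const 1) (differentiableOn_id.sub_const _) ?_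
      intro v hv
      exact den_ne κ₀ hv
    have h2 : DifferentiableOn ℂ (fun v : ℂ => mo y₁ v) Hp := by
      unfold mo
      refine DifferentiableOn.div (by fun_prop) (by fun_prop) ?_
      intro v hv
      exact onep hv
    exact (h1.sub_const _).sub (h2.const_mul d)
  · intro v hv hv8
    have h1 : -(1 / 4) ≤ (v ^ 2 - 1).re := by
      have := Complex.abs_re_le_norm (v ^ 2 - 1)
      have := neg_abs_le (v ^ 2 - 1).re
      linarith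
    have h2 := hTY (v ^ 2 - 1) h1 (by linarith)
    rw [hh_eq hv, hh_eq hy₁] at h2
    have e1 : (v ^ 2 - 1 - (y₁ ^ 2 - 1)) * (2 + (y₁ ^ 2 - 1)) / (2 + (v ^ 2 - 1)) = mo y₁ v := by
      rw [mo]
      congr 1
      · ring
      · ring
    have e2 : v ^ 2 - 1 - (y₁ ^ 2 - 1) = v ^ 2 - y₁ ^ 2 := by ring
    rw [e1, e2] at h2
    refine le_trans h2 ?_
    refine mul_le_mul_of_nonneg_right ?_ (by positivity)
    calc T * (2 * (A * ε)) = 2 * T * A * ε := by ring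
      _ ≤ _ := mul_le_mul_of_nonneg_right (by linarith) hε0.le
  · have h := intg (J := J) (K := A ^ 2 * (3 + 36 * T) * φ)
      (c := I * (Real.sqrt (Real.exp (2 * t) - 1) : ℂ)) hJ0 (by positivity) hJ
      (F := fun v => ‖(ww t v - 1) / (v - I * (κ₀ : ℂ)) -
      (ww t y₁ - 1) / (y₁ - I * (κ₀ : ℂ)) - d * mo y₁ v‖ * ‖v - I * (κ₀ : ℂ)‖ ^ 2 /
        (1 + ‖v‖) ^ 6) ?_
    · refine le_trans h (ENNReal.ofReal_le_ofReal ?_)
      calc 4 * (A ^ 2 * (3 + 36 * T) * φ) * J = (4 * (A ^ 2 * (3 + 36 * T)) * J) * φ := by ring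
        _ ≤ _ := mul_le_mul_of_nonneg_right (by linarith) hφ0.le
    · intro v hv
      refine ptw hA hT hε0 hφ0 w4 hκ hv (w2 v hv) ?_ hc1 hd hn3
      have := w3 v hv
      rw [sub_neg_eq_add]
      exact this

end Pool.Agent.MultS.LB
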