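import Pool.Agent.Work.MP_b17785_an.LB.Stmts

/-! # MP_b17785_an, LB, item K3: Taylor expansion with a Moebius function -/

set_option autoImplicit false

namespace Pool.Agent.MultS.LB

open Complex Metric Set

namespace TMX

/-- the open set `Re > -1/2`, `‖Y‖ < 4` -/
def S : Set ℂ := {Y : ℂ | -(1 / 2) < Y.re ∧ ‖Y‖ < 4}

/-- the closed convex set `Re ≥ -1/4`, `‖Y‖ ≤ 3` -/
def E : Set ℂ := {Y : ℂ | -(1 / 4) ≤ Y.re ∧ ‖Y‖ ≤ 3}

lemma isOpen_S : IsOpen S :=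
  (isOpen_lt continuous_const Complex.continuous_re).inter
    (isOpen_lt continuous_norm continuous_const)

lemma convex_E : Convex ℝ E := by
  have h1 : Convex ℝ {Y : ℂ | -(1 / 4) ≤ Y.re} := convex_halfSpace_re_ge _
  have h2 : Convex ℝ (closedBall (0 : ℂ) 3) := convex_closedBall _ _
  have h3 : E = {Y : ℂ | -(1 / 4) ≤ Y.re} ∩ closedBall (0 : ℂ) 3 := by
    ext Y
    simp only [E, Set.mem_setOf_eq, Set.mem_inter_iff, mem_closedBall_zero_iff]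
  rw [h3]
  exact h1.inter h2

lemma near {z w : ℂ} {r : ℝ} (h : w ∈ closedBall z r) : z.re - r ≤ w.re ∧ ‖w‖ ≤ ‖z‖ + r := by
  have h1 : ‖w - z‖ ≤ r := by rw [← dist_eq_norm]; exact mem_closedBall.1 h
  have h2 := Complex.abs_re_le_norm (w - z)
  rw [Complex.sub_re] at h2
  have h3 := (abs_le.1 (h2.trans h1)).1
  refine ⟨by linarith, ?_⟩
  calc ‖w‖ = ‖z + (w - z)‖ := by ring_nf
    _ ≤ ‖z‖ + ‖w - z‖ := norm_add_le _ _
    _ ≤ ‖z‖ + r := by linarith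

/-- Cauchy estimate with radius `1/16` -/
lemma cauchy {f : ℂ → ℂ} {z : ℂ} {M : ℝ} (hd : ∀ w ∈ closedBall z (1 / 16), DifferentiableAt ℂ f w)
    (hM : ∀ w ∈ closedBall z (1 / 16), ‖f w‖ ≤ M) : ‖deriv f z‖ ≤ 16 * M := by
  have h1 : DiffContOnCl ℂ f (ball z (1 / 16)) := by
    apply DifferentiableOn.diffContOnCl
    intro w hw
    exact (hd w (closure_ball_subset_closedBall hw)).differentiableWithinAt
  have h2 := Complex.norm_deriv_le_of_forall_mem_sphere_norm_le (by norm_num) h1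
    (fun w hw => hM w (sphere_subset_closedBall hw))
  calc ‖deriv f z‖ ≤ M / (1 / 16) := h2
    _ = 16 * M := by ring

lemma taylor {h : ℂ → ℂ} {M : ℝ} (hd : DifferentiableOn ℂ h S) (hM : ∀ Y ∈ S, ‖h Y‖ ≤ M)
    {Y₁ : ℂ} (hY₁ : Y₁ ∈ E) : ‖deriv h Y₁‖ ≤ 16 * M ∧ ∀ Y ∈ E,
      ‖h Y - h Y₁ - deriv h Y₁ * (Y - Y₁)‖ ≤ 256 * M * ‖Y - Y₁‖ ^ 2 := by
  have hdS : ∀ w ∈ S, DifferentiableAt ℂ h w := fun w hw => hd.differentiableAt (isOpen_S.mem_nhds hw)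
  have hdd : DifferentiableOn ℂ (deriv h) S := hd.deriv isOpen_S
  have hddS : ∀ w ∈ S, DifferentiableAt ℂ (deriv h) w :=
    fun w hw => hdd.differentiableAt (isOpen_S.mem_nhds hw)
  have hES : ∀ z ∈ E, ∀ w ∈ closedBall z (1 / 8), w ∈ S := by
    intro z hz w hw
    obtain ⟨h1, h2⟩ := near hw
    obtain ⟨h3, h4⟩ := hz
    exact ⟨by linarith, by linarith⟩
  have hES0 : ∀ z ∈ E, z ∈ S := fun z hz => hES z hz z (mem_closedBall_self (by norm_num))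
  have hsub : ∀ z w v : ℂ, w ∈ closedBall z (1 / 16) → v ∈ closedBall w (1 / 16) →
      v ∈ closedBall z (1 / 8) := by
    intro z w v hw hv
    rw [mem_closedBall] at *
    calc dist v z ≤ dist v w + dist w z := dist_triangle _ _ _
      _ ≤ 1 / 8 := by linarith
  have hsub1 : ∀ z w : ℂ, w ∈ closedBall z (1 / 16) → w ∈ closedBall z (1 / 8) :=
    fun z w hw => hsub z w w hw (mem_closedBall_self (by norm_num))
  have hb1 : ∀ z ∈ E, ∀ w ∈ closedBall z (1 / 16), ‖deriv h w‖ ≤ 16 * M := by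
    intro z hz w hw
    exact cauchy (fun v hv => hdS v (hES z hz v (hsub z w v hw hv)))
      (fun v hv => hM v (hES z hz v (hsub z w v hw hv)))
  have hb2 : ∀ z ∈ E, ‖deriv (deriv h) z‖ ≤ 16 * (16 * M) := by
    intro z hz
    exact cauchy (fun w hw => hddS w (hES z hz w (hsub1 z w hw))) (hb1 z hz)
  refine ⟨hb1 Y₁ hY₁ Y₁ (mem_closedBall_self (by norm_num)), fun Y hY => ?_⟩
  have hseg : segment ℝ Y₁ Y ⊆ E := convex_E.segment_subset hY₁ hY
  have hM0 : 0 ≤ M := (norm_nonneg _).trans (hM Y (hES0 Y hY))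
  have hl : ∀ z ∈ E, ‖deriv h z - deriv h Y₁‖ ≤ 16 * (16 * M) * ‖z - Y₁‖ := by
    intro z hz
    exact convex_E.norm_image_sub_le_of_norm_deriv_le (fun w hw => hddS w (hES0 w hw))
      (fun w hw => hb2 w hw) hY₁ hz
  have hder : ∀ z ∈ segment ℝ Y₁ Y, HasDerivAt (fun v => h v - deriv h Y₁ * v)
      (deriv h z - deriv h Y₁) z := by
    intro z hz
    have h1 := (hdS z (hES0 z (hseg hz))).hasDerivAt
    have h2 : HasDerivAt (fun v : ℂ => deriv h Y₁ * v) (deriv h Y₁) z := by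
      simpa using (hasDerivAt_id z).const_mul (deriv h Y₁)
    exact h1.sub h2
  have hdist : ∀ z ∈ segment ℝ Y₁ Y, ‖z - Y₁‖ ≤ ‖Y - Y₁‖ := by
    rintro z ⟨a, b, ha, hb, hab, rfl⟩
    have : a • Y₁ + b • Y - Y₁ = b • (Y - Y₁) := by
      have ha' : a = 1 - b := by linarith
      rw [ha', sub_smul, one_smul, smul_sub]
      abel
    rw [this, norm_smul, Real.norm_eq_abs, abs_of_nonneg hb]
    exact mul_le_of_le_one_left (norm_nonneg _) (by linarith)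
  have hfin := (convex_segment (𝕜 := ℝ) Y₁ Y).norm_image_sub_le_of_norm_deriv_le
    (f := fun v => h v - deriv h Y₁ * v) (C := 16 * (16 * M) * ‖Y - Y₁‖)
    (fun z hz => (hder z hz).differentiableAt)
    (fun z hz => by
      rw [(hder z hz).deriv]
      exact (hl z (hseg hz)).trans (mul_le_mul_of_nonneg_left (hdist z hz) (by positivity)))
    (left_mem_segment ℝ Y₁ Y) (right_mem_segment ℝ Y₁ Y)
  have he : h Y - h Y₁ - deriv h Y₁ * (Y - Y₁)
      = (h Y - deriv h Y₁ * Y) - (h Y₁ - deriv h Y₁ * Y₁) := by ring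
  rw [he]
  refine hfin.trans (le_of_eq ?_)
  ring

end TMX

theorem prfTM : TM := by
  refine ⟨272, by norm_num, ?_⟩
  intro h M hd hM Y₁ h1 h2
  have hY₁ : Y₁ ∈ TMX.E := ⟨h1, h2⟩
  obtain ⟨hb, ht⟩ := TMX.taylor (h := h) (M := M) hd (fun Y hY => hM Y hY.1 hY.2) hY₁
  have hM0 : 0 ≤ M := (norm_nonneg _).trans (hM Y₁ (by linarith) (by linarith))
  refine ⟨hb.trans (by linarith), fun Y h3 h4 => ?_⟩
  have hY := ht Y ⟨h3, h4⟩
  have hn : (1 : ℝ) ≤ ‖2 + Y‖ := by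
    have h5 := Complex.re_le_norm (2 + Y)
    have h6 : (2 + Y).re = 2 + Y.re := by simp
    rw [h6] at h5
    linarith
  have hne : (2 + Y) ≠ 0 := by
    intro h0
    rw [h0, norm_zero] at hn
    linarith
  have he : h Y - h Y₁ - deriv h Y₁ * ((Y - Y₁) * (2 + Y₁) / (2 + Y))
      = (h Y - h Y₁ - deriv h Y₁ * (Y - Y₁)) + deriv h Y₁ * ((Y - Y₁) ^ 2 / (2 + Y)) := by
    field_simp
    ring
  have hq : ‖(Y - Y₁) ^ 2 / (2 + Y)‖ ≤ ‖Y - Y₁‖ ^ 2 := by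
    rw [norm_div, norm_pow]
    exact div_le_self (by positivity) hn
  rw [he]
  calc ‖(h Y - h Y₁ - deriv h Y₁ * (Y - Y₁)) + deriv h Y₁ * ((Y - Y₁) ^ 2 / (2 + Y))‖
      ≤ ‖h Y - h Y₁ - deriv h Y₁ * (Y - Y₁)‖ + ‖deriv h Y₁ * ((Y - Y₁) ^ 2 / (2 + Y))‖ :=
        norm_add_le _ _
    _ ≤ 256 * M * ‖Y - Y₁‖ ^ 2 + 16 * M * ‖Y - Y₁‖ ^ 2 := by
        refine add_le_add hY ?_
        rw [norm_mul]
        exact mul_le_mul hb hq (norm_nonneg _) (by positivity)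
    _ = 272 * M * ‖Y - Y₁‖ ^ 2 := by ring

end Pool.Agent.MultS.LB
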