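import Pool.Agent.Work.MP_b17785_an.LB.Stmts

/-!
# Lower bound block, item I4: a Young type inequality
-/

set_option autoImplicit false

open Complex Metric Set Filter Topology MeasureTheory
open Pool.Agent.MultS.Lip

namespace Pool.Agent.MultS.LB

namespace YoungX

/-- the kernel -/
noncomputable def K (t : ℝ) : ENNReal :=
  (Ioi (0 : ℝ)).indicator
    (fun t => ENNReal.ofReal (Real.exp (-(t / 4)) * t ^ (-(3 / 4) : ℝ))) t

/-- the square of the driving function -/
noncomputable def U (κ : ℝ → ℝ) (S : ℝ) (s : ℝ) : ENNReal :=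
  (Ioc (0 : ℝ) S).indicator (fun s => ENNReal.ofReal (κ s ^ 2)) s

theorem K_meas : Measurable K := by
  unfold K
  refine Measurable.indicator ?_ measurableSet_Ioi
  fun_prop

theorem U_meas {κ : ℝ → ℝ} (hκ : Continuous κ) (S : ℝ) : Measurable (U κ S) := by
  unfold U
  refine Measurable.indicator ?_ measurableSet_Ioc
  have := hκ.measurable
  fun_prop

theorem kint₁ : ∫⁻ t in Ioc (0 : ℝ) 1,
    ENNReal.ofReal (Real.exp (-(t / 4)) * t ^ (-(3 / 4) : ℝ)) ≤ 4 := by
  have hint : IntervalIntegrable (fun t : ℝ => t ^ (-(3 / 4) : ℝ)) volume 0 1 :=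
    intervalIntegral.intervalIntegrable_rpow' (by norm_num)
  have hint' : IntegrableOn (fun t : ℝ => t ^ (-(3 / 4) : ℝ)) (Ioc 0 1) :=
    (intervalIntegrable_iff_integrableOn_Ioc_of_le zero_le_one).1 hint
  calc ∫⁻ t in Ioc (0 : ℝ) 1, ENNReal.ofReal (Real.exp (-(t / 4)) * t ^ (-(3 / 4) : ℝ))
      ≤ ∫⁻ t in Ioc (0 : ℝ) 1, ENNReal.ofReal (t ^ (-(3 / 4) : ℝ)) := by
        refine setLIntegral_mono' measurableSet_Ioc fun t ht => ?_
        refine ENNReal.ofReal_le_ofReal ?_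
        have h0 : 0 ≤ t ^ (-(3 / 4) : ℝ) := Real.rpow_nonneg ht.1.le _
        have h1 : Real.exp (-(t / 4)) ≤ 1 := Real.exp_le_one_iff.2 (by linarith [ht.1])
        calc Real.exp (-(t / 4)) * t ^ (-(3 / 4) : ℝ) ≤ 1 * t ^ (-(3 / 4) : ℝ) :=
              mul_le_mul_of_nonneg_right h1 h0
          _ = _ := one_mul _
    _ = ENNReal.ofReal (∫ t in Ioc (0 : ℝ) 1, t ^ (-(3 / 4) : ℝ)) := by
        rw [ofReal_integral_eq_lintegral_ofReal hint']
        exact (ae_restrict_iff' measurableSet_Ioc).2 (Eventually.of_forall fun t ht =>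
          Real.rpow_nonneg ht.1.le _)
    _ = ENNReal.ofReal 4 := by
        congr 1
        rw [← intervalIntegral.integral_of_le zero_le_one, integral_rpow (Or.inl (by norm_num))]
        rw [Real.one_rpow, Real.zero_rpow (by norm_num)]
        norm_num
    _ ≤ 4 := by norm_num

theorem kint₂ : ∫⁻ t in Ioi (1 : ℝ),
    ENNReal.ofReal (Real.exp (-(t / 4)) * t ^ (-(3 / 4) : ℝ)) ≤ 4 := by
  have hint' : IntegrableOn (fun t : ℝ => Real.exp (-(1 / 4) * t)) (Ioi 0) :=
    integrableOn_exp_mul_Ioi (by norm_num) 0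
  calc ∫⁻ t in Ioi (1 : ℝ), ENNReal.ofReal (Real.exp (-(t / 4)) * t ^ (-(3 / 4) : ℝ))
      ≤ ∫⁻ t in Ioi (1 : ℝ), ENNReal.ofReal (Real.exp (-(1 / 4) * t)) := by
        refine setLIntegral_mono' measurableSet_Ioi fun t ht => ?_
        refine ENNReal.ofReal_le_ofReal ?_
        have h1 : t ^ (-(3 / 4) : ℝ) ≤ 1 :=
          Real.rpow_le_one_of_one_le_of_nonpos (le_of_lt ht) (by norm_num)
        calc Real.exp (-(t / 4)) * t ^ (-(3 / 4) : ℝ) ≤ Real.exp (-(t / 4)) * 1 :=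
              mul_le_mul_of_nonneg_left h1 (Real.exp_pos _).le
          _ = _ := by rw [mul_one]; congr 1; ring
    _ ≤ ∫⁻ t in Ioi (0 : ℝ), ENNReal.ofReal (Real.exp (-(1 / 4) * t)) :=
        lintegral_mono_set (Ioi_subset_Ioi zero_le_one)
    _ = ENNReal.ofReal (∫ t in Ioi (0 : ℝ), Real.exp (-(1 / 4) * t)) := by
        rw [ofReal_integral_eq_lintegral_ofReal hint']
        exact Eventually.of_forall fun t => (Real.exp_pos _).le
    _ = ENNReal.ofReal 4 := by
        congr 1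
        rw [integral_exp_mul_Ioi (by norm_num)]
        norm_num
    _ ≤ 4 := by norm_num

theorem kint : ∫⁻ t, K t ≤ 8 := by
  unfold K
  rw [lintegral_indicator measurableSet_Ioi, ← Ioc_union_Ioi_eq_Ioi zero_le_one]
  refine (lintegral_union_le _ _ _).trans ?_
  refine (add_le_add kint₁ kint₂).trans ?_
  norm_num

theorem U_int {κ : ℝ → ℝ} (hκ : Continuous κ) {S : ℝ} (hS : 0 ≤ S) :
    ∫⁻ s, U κ S s = ENNReal.ofReal (∫ s in (0 : ℝ)..S, κ s ^ 2) := by
  unfold U
  rw [lintegral_indicator measurableSet_Ioc, intervalIntegral.integral_of_le hS,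
    ofReal_integral_eq_lintegral_ofReal]
  · have : IntervalIntegrable (fun s => κ s ^ 2) volume 0 S :=
      (hκ.pow 2).intervalIntegrable 0 S
    exact (intervalIntegrable_iff_integrableOn_Ioc_of_le hS).1 this
  · exact Eventually.of_forall fun t => sq_nonneg _

theorem dbl {κ : ℝ → ℝ} (hκ : Continuous κ) (S : ℝ) :
    ∫⁻ s', ∫⁻ s, (U κ S s + U κ S s') * K (s' - s) = 2 * (∫⁻ t, K t) * ∫⁻ s, U κ S s := by
  have hU := U_meas hκ S
  have hK := K_meas
  have h1 : ∫⁻ s', ∫⁻ s, U κ S s' * K (s' - s) = (∫⁻ t, K t) * ∫⁻ s, U κ S s := by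
    have : ∀ s', ∫⁻ s, U κ S s' * K (s' - s) = U κ S s' * ∫⁻ t, K t := by
      intro s'
      rw [lintegral_const_mul _ (by fun_prop), lintegral_sub_left_eq_self]
    simp only [this]
    rw [lintegral_mul_const _ hU, mul_comm]
  have h2 : ∫⁻ s', ∫⁻ s, U κ S s * K (s' - s) = (∫⁻ t, K t) * ∫⁻ s, U κ S s := by
    rw [lintegral_lintegral_swap (by fun_prop)]
    have : ∀ s, ∫⁻ s', U κ S s * K (s' - s) = U κ S s * ∫⁻ t, K t := by
      intro s
      rw [lintegral_const_mul _ (by fun_prop), lintegral_sub_right_eq_self]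
    simp only [this]
    rw [lintegral_mul_const _ hU, mul_comm]
  calc ∫⁻ s', ∫⁻ s, (U κ S s + U κ S s') * K (s' - s)
      = ∫⁻ s', (∫⁻ s, U κ S s * K (s' - s)) + ∫⁻ s, U κ S s' * K (s' - s) := by
        refine lintegral_congr fun s' => ?_
        simp only [add_mul]
        rw [lintegral_add_left (by fun_prop)]
    _ = (∫⁻ s', ∫⁻ s, U κ S s * K (s' - s)) + ∫⁻ s', ∫⁻ s, U κ S s' * K (s' - s) := by
        rw [lintegral_add_left]
        exact Measurable.lintegral_prod_right (by fun_prop)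
    _ = _ := by rw [h1, h2]; ring

end YoungX

open YoungX in
theorem prfYoung : Young := by
  intro κ S B M hκ hS hB hM
  have hI : 0 ≤ ∫ s in (0 : ℝ)..S, κ s ^ 2 :=
    intervalIntegral.integral_nonneg hS fun _ _ => sq_nonneg _
  have hin : ∀ s' ∈ Ioc (0 : ℝ) S, ‖∫ s in (0 : ℝ)..s', M s s'‖ₑ ≤
      ∫⁻ s, ENNReal.ofReal (B / 2) * ((U κ S s + U κ S s') * K (s' - s)) := by
    intro s' hs'
    rw [intervalIntegral.integral_of_le hs'.1.le, integral_Ioc_eq_integral_Ioo]
    refine (enorm_integral_le_lintegral_enorm _).trans ?_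
    refine (setLIntegral_mono' measurableSet_Ioo (g := fun s => ENNReal.ofReal (B / 2) *
      ((U κ S s + U κ S s') * K (s' - s))) fun s hs => ?_).trans (setLIntegral_le_lintegral _ _)
    have hb := hM s' ⟨hs'.1.le, hs'.2⟩ s ⟨hs.1.le, hs.2⟩
    have hU1 : U κ S s = ENNReal.ofReal (κ s ^ 2) :=
      indicator_of_mem (show s ∈ Ioc (0 : ℝ) S from ⟨hs.1, hs.2.le.trans hs'.2⟩) _
    have hU2 : U κ S s' = ENNReal.ofReal (κ s' ^ 2) := indicator_of_mem hs' _
    have hK1 : K (s' - s) =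
        ENNReal.ofReal (Real.exp (-((s' - s) / 4)) * (s' - s) ^ (-(3 / 4) : ℝ)) :=
      indicator_of_mem (show s' - s ∈ Ioi (0 : ℝ) from sub_pos.2 hs.2) _
    rw [hU1, hU2, hK1, ← ENNReal.ofReal_add (sq_nonneg _) (sq_nonneg _),
      ← ENNReal.ofReal_mul (by positivity), ← ENNReal.ofReal_mul (by positivity),
      ← ofReal_norm]
    refine ENNReal.ofReal_le_ofReal (hb.trans ?_)
    have hk : 0 ≤ Real.exp (-((s' - s) / 4)) * (s' - s) ^ (-(3 / 4) : ℝ) :=
      mul_nonneg (Real.exp_pos _).le (Real.rpow_nonneg (sub_pos.2 hs.2).le _)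
    have h2 : |κ s| * |κ s'| ≤ (κ s ^ 2 + κ s' ^ 2) / 2 := by
      have := sq_nonneg (|κ s| - |κ s'|)
      rw [sub_sq, sq_abs, sq_abs] at this
      linarith
    calc B * (|κ s| * |κ s'| * (Real.exp (-((s' - s) / 4)) * (s' - s) ^ (-(3 / 4) : ℝ)))
        ≤ B * ((κ s ^ 2 + κ s' ^ 2) / 2 *
            (Real.exp (-((s' - s) / 4)) * (s' - s) ^ (-(3 / 4) : ℝ))) :=
          mul_le_mul_of_nonneg_left (mul_le_mul_of_nonneg_right h2 hk) hB
      _ = _ := by ring
  have hfin : ‖∫ s' in (0 : ℝ)..S, ∫ s in (0 : ℝ)..s', M s s'‖ₑ ≤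
      ENNReal.ofReal (8 * B * ∫ s in (0 : ℝ)..S, κ s ^ 2) := by
    rw [intervalIntegral.integral_of_le hS]
    refine (enorm_integral_le_lintegral_enorm _).trans ?_
    refine (setLIntegral_mono' measurableSet_Ioc (g := fun s' => ∫⁻ s, ENNReal.ofReal (B / 2) *
      ((U κ S s + U κ S s') * K (s' - s))) hin).trans ?_
    refine (setLIntegral_le_lintegral _ _).trans ?_
    have hU := U_meas hκ S
    have hK := K_meas
    have : ∀ s', ∫⁻ s, ENNReal.ofReal (B / 2) * ((U κ S s + U κ S s') * K (s' - s)) =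
        ENNReal.ofReal (B / 2) * ∫⁻ s, (U κ S s + U κ S s') * K (s' - s) := by
      intro s'
      rw [lintegral_const_mul _ (by fun_prop)]
    simp only [this]
    rw [lintegral_const_mul _ (Measurable.lintegral_prod_right (by fun_prop)), dbl hκ S,
      U_int hκ hS]
    calc ENNReal.ofReal (B / 2) * (2 * (∫⁻ t, K t) * ENNReal.ofReal (∫ s in (0 : ℝ)..S, κ s ^ 2))
        ≤ ENNReal.ofReal (B / 2) * (2 * 8 * ENNReal.ofReal (∫ s in (0 : ℝ)..S, κ s ^ 2)) := by
          gcongr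
          exact kint
      _ = ENNReal.ofReal (8 * B * ∫ s in (0 : ℝ)..S, κ s ^ 2) := by
          have h16 : (2 * 8 : ENNReal) = ENNReal.ofReal 16 := by norm_num
          rw [h16, ← ENNReal.ofReal_mul (by norm_num), ← ENNReal.ofReal_mul (by positivity)]
          congr 1
          ring
  rw [← ofReal_norm] at hfin
  exact (ENNReal.ofReal_le_ofReal_iff (by positivity)).1 hfin

end Pool.Agent.MultS.LB
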