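import Pool.Agent.Work.MP_b17785_an.LB.StmtsF
import Pool.Agent.Work.MP_b17785_an.LB.Ker
import Pool.Agent.Work.MP_b17785_an.UB.Pars
import Pool.Agent.Work.MP_b17785_an.Bd.B11

/-!
# [G6] from the criterion for polynomials to the criterion for holomorphic functions
-/

set_option autoImplicit false

open Complex Metric Set Filter Topology MeasureTheory
open Pool.Agent.MultS.Lip

namespace Pool.Agent.MultS.LB

namespace CNCXX

theorem coef_le {A : ℂ → ℂ} (hA : DifferentiableOn ℂ A (ball 0 1))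
    (hA1 : ∀ z ∈ ball (0 : ℂ) 1, ‖A z‖ ≤ 1) (m : ℕ) : ‖tc A m‖ ≤ 1 := by
  have h := Lip.prfParsQ (tc A) 1 (fun z hz => ⟨(hasSum_tc hA hz).summable, by
    rw [(hasSum_tc hA hz).tsum_eq]; exact hA1 z hz⟩) (m + 1)
  have h1 : ‖tc A m‖ ^ 2 ≤ ∑ n ∈ Finset.range (m + 1), ‖tc A n‖ ^ 2 :=
    Finset.single_le_sum (f := fun n => ‖tc A n‖ ^ 2) (fun n _ => by positivity)
      (Finset.mem_range.2 (Nat.lt_succ_self m))
  nlinarith [norm_nonneg (tc A m)]

theorem diff_koe : DifferentiableOn ℂ koe (ball 0 1) := by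
  intro z hz
  have hz1 : (1 : ℂ) - z ≠ 0 := by
    intro h
    rw [mem_ball_zero_iff] at hz
    have : z = 1 := (sub_eq_zero.1 h).symm
    rw [this, norm_one] at hz
    exact lt_irrefl _ hz
  have : DifferentiableAt ℂ koe z := by
    unfold koe
    exact differentiableAt_id.div ((differentiableAt_const _ |>.sub differentiableAt_id).pow 2)
      (pow_ne_zero 2 hz1)
  exact this.differentiableWithinAt

/-- the criterion in terms of `LL` -/
theorem poly {mu : ℕ → ℂ} {Y : ℝ} (hK : KcT) (h : CN mu Y) {p : Polynomial ℂ} (hp : Adm p) {z : ℂ}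
    (hz : z ∈ ball (0 : ℂ) 1) : ‖LL (z1 mu) (fun ζ => koe ζ * p.eval ζ) z‖ ≤ Y := by
  obtain ⟨h1, h2⟩ := h p hp z hz
  have e : ∀ n : ℕ, ((((n + 1 : ℕ) : ℂ)) + 1) * z1 mu (n + 1 + 1) *
      tc (fun ζ => koe ζ * p.eval ζ) (n + 1 + 1) * z ^ (n + 1) =
      ((n : ℂ) + 2) * mu (n + 2) * kc p (n + 2) * z ^ (n + 1) := by
    intro n
    rw [hK]
    have : z1 mu (n + 1 + 1) = mu (n + 2) := by
      unfold z1
      rw [if_neg (by omega)]
    rw [this]
    push_cast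
    ring
  have hs : Summable fun n : ℕ => ((n : ℂ) + 1) * z1 mu (n + 1) *
      tc (fun ζ => koe ζ * p.eval ζ) (n + 1) * z ^ n := by
    rw [← summable_nat_add_iff 1]
    exact h1.congr fun n => (e n).symm
  unfold LL
  rw [hs.tsum_eq_zero_add]
  have h0 : z1 mu (0 + 1) = 0 := by
    unfold z1
    rw [if_pos (by omega)]
  rw [h0, mul_zero, zero_mul, zero_mul, zero_add, tsum_congr e]
  exact h2

theorem geo_tail {a : ℕ → ℂ} (ha : ∀ m, ‖a m‖ ≤ 1) {w S : ℂ} {r : ℝ} (hr0 : 0 ≤ r) (hr1 : r < 1)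
    (hw : ‖w‖ ≤ r) (h : HasSum (fun m => a m * w ^ m) S) (N : ℕ) :
    ‖S - ∑ m ∈ Finset.range N, a m * w ^ m‖ ≤ r ^ N * (1 - r)⁻¹ := by
  have h1 := (hasSum_nat_add_iff' N).2 h
  rw [← h1.tsum_eq]
  apply tsum_of_norm_bounded ((hasSum_geometric_of_lt_one hr0 hr1).mul_left (r ^ N))
  intro m
  rw [norm_mul, norm_pow, ← pow_add, add_comm N m]
  calc ‖a (m + N)‖ * ‖w‖ ^ (m + N) ≤ 1 * r ^ (m + N) :=
        mul_le_mul (ha _) (pow_le_pow_left₀ (norm_nonneg _) hw _) (by positivity) zero_le_one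
    _ = r ^ (m + N) := one_mul _

/-- the approximating polynomial -/
noncomputable def q (A : ℂ → ℂ) (r : ℝ) (N : ℕ) : Polynomial ℂ :=
  ∑ m ∈ Finset.range N, Polynomial.C (tc A m * (r : ℂ) ^ m) * Polynomial.X ^ m

theorem q_eval (A : ℂ → ℂ) (r : ℝ) (N : ℕ) (z : ℂ) :
    (q A r N).eval z = ∑ m ∈ Finset.range N, tc A m * ((r : ℂ) * z) ^ m := by
  unfold q
  rw [Polynomial.eval_finsetSum]
  refine Finset.sum_congr rfl fun m _ => ?_
  rw [Polynomial.eval_mul, Polynomial.eval_C, Polynomial.eval_pow, Polynomial.eval_X, mul_pow]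
  ring

theorem q_coeff (A : ℂ → ℂ) (r : ℝ) (N : ℕ) (m : ℕ) :
    (q A r N).coeff m = if m < N then tc A m * (r : ℂ) ^ m else 0 := by
  unfold q
  rw [Polynomial.finsetSum_coeff]
  simp only [Polynomial.coeff_C_mul, Polynomial.coeff_X_pow, mul_ite, mul_one, mul_zero]
  rw [Finset.sum_ite_eq]
  simp

theorem q_adm {A : ℂ → ℂ} (hA : DifferentiableOn ℂ A (ball 0 1))
    (hA1 : ∀ z ∈ ball (0 : ℂ) 1, ‖A z‖ ≤ 1)
    (hD : ∀ N : ℕ, ∑ m ∈ Finset.range N, (m : ℝ) * ‖tc A m‖ ^ 2 ≤ 1) {r : ℝ} (hr0 : 0 < r)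
    (hr1 : r < 1) (N : ℕ) :
    Adm (Polynomial.C (((1 + r ^ N * (1 - r)⁻¹ : ℝ)⁻¹ : ℝ) : ℂ) * q A r N) := by
  have h1r : 0 < 1 - r := by linarith
  set c : ℝ := (1 + r ^ N * (1 - r)⁻¹ : ℝ)⁻¹ with hc
  have hden : 1 ≤ 1 + r ^ N * (1 - r)⁻¹ := by
    have : 0 ≤ r ^ N * (1 - r)⁻¹ := by positivity
    linarith
  have hc0 : 0 < c := by positivity
  have hc1 : c ≤ 1 := inv_le_one_of_one_le₀ hden
  constructor
  · intro z hz
    rw [mem_ball_zero_iff] at hz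
    have hrz : ‖(r : ℂ) * z‖ ≤ r := by
      rw [norm_mul, norm_real, Real.norm_of_nonneg hr0.le]
      nlinarith [norm_nonneg z]
    have hmem : (r : ℂ) * z ∈ ball (0 : ℂ) 1 := by
      rw [mem_ball_zero_iff]
      linarith
    have h1 := geo_tail (coef_le hA hA1) hr0.le hr1 hrz (hasSum_tc hA hmem) N
    rw [Polynomial.eval_mul, Polynomial.eval_C, norm_mul, norm_real, Real.norm_of_nonneg hc0.le,
      q_eval]
    have h2 : ‖∑ m ∈ Finset.range N, tc A m * ((r : ℂ) * z) ^ m‖ ≤ 1 + r ^ N * (1 - r)⁻¹ := by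
      have h3 : ∑ m ∈ Finset.range N, tc A m * ((r : ℂ) * z) ^ m =
          A ((r : ℂ) * z) - (A ((r : ℂ) * z) - ∑ m ∈ Finset.range N, tc A m * ((r : ℂ) * z) ^ m) := by
        ring
      rw [h3]
      refine (norm_sub_le _ _).trans (add_le_add (hA1 _ hmem) h1)
    calc c * ‖∑ m ∈ Finset.range N, tc A m * ((r : ℂ) * z) ^ m‖
        ≤ c * (1 + r ^ N * (1 - r)⁻¹) := mul_le_mul_of_nonneg_left h2 hc0.le
      _ = 1 := by
          rw [hc]
          exact inv_mul_cancel₀ (by linarith)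
  · refine le_trans ?_ (hD N)
    have hsub : (Polynomial.C ((c : ℝ) : ℂ) * q A r N).support ⊆ Finset.range N := by
      intro m hm
      rw [Polynomial.mem_support_iff, Polynomial.coeff_C_mul, q_coeff] at hm
      rw [Finset.mem_range]
      by_contra hcon
      rw [if_neg hcon, mul_zero] at hm
      exact hm rfl
    refine (Finset.sum_le_sum_of_subset_of_nonneg hsub fun m _ _ => by positivity).trans ?_
    apply Finset.sum_le_sum
    intro m hm
    rw [Finset.mem_range] at hm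
    refine mul_le_mul_of_nonneg_left ?_ (Nat.cast_nonneg m)
    refine pow_le_pow_left₀ (norm_nonneg _) ?_ 2
    rw [Polynomial.coeff_C_mul, q_coeff, if_pos hm, norm_mul, norm_mul, norm_pow, norm_real,
      norm_real, Real.norm_of_nonneg hc0.le, Real.norm_of_nonneg hr0.le]
    have h4 : r ^ m ≤ 1 := pow_le_one₀ hr0.le hr1.le
    calc c * (‖tc A m‖ * r ^ m) ≤ 1 * (‖tc A m‖ * 1) := by
          have := norm_nonneg (tc A m)
          gcongr
      _ = ‖tc A m‖ := by ring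

theorem q_appr {A : ℂ → ℂ} (hA : DifferentiableOn ℂ A (ball 0 1))
    (hA1 : ∀ z ∈ ball (0 : ℂ) 1, ‖A z‖ ≤ 1) {r ρ : ℝ} (hr0 : 0 < r) (hr1 : r < 1) (hρ0 : 0 < ρ)
    (hρ1 : ρ < 1) (N : ℕ) {ζ : ℂ} (hζ : ‖ζ‖ = ρ) :
    ‖A ζ - (q A r N).eval ζ‖ ≤ ((1 - ρ)⁻¹ - (1 - r * ρ)⁻¹) + ρ ^ N * (1 - ρ)⁻¹ := by
  have hmem : ζ ∈ ball (0 : ℂ) 1 := by
    rw [mem_ball_zero_iff, hζ]
    exact hρ1
  have h1 := geo_tail (coef_le hA hA1) hρ0.le hρ1 hζ.le (hasSum_tc hA hmem) N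
  have hrρ : r * ρ < 1 := by nlinarith
  have hrρ0 : 0 ≤ r * ρ := by positivity
  have h2 : ‖∑ m ∈ Finset.range N, tc A m * ζ ^ m - (q A r N).eval ζ‖ ≤
      (1 - ρ)⁻¹ - (1 - r * ρ)⁻¹ := by
    rw [q_eval, ← Finset.sum_sub_distrib]
    have h3 : HasSum (fun m : ℕ => ρ ^ m - (r * ρ) ^ m) ((1 - ρ)⁻¹ - (1 - r * ρ)⁻¹) :=
      (hasSum_geometric_of_lt_one hρ0.le hρ1).sub (hasSum_geometric_of_lt_one hrρ0 hrρ)
    have h4 : ∀ m : ℕ, 0 ≤ ρ ^ m - (r * ρ) ^ m := by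
      intro m
      have : (r * ρ) ^ m ≤ ρ ^ m := pow_le_pow_left₀ hrρ0 (by nlinarith) m
      linarith
    refine (norm_sum_le _ _).trans ?_
    refine le_trans ?_ (sum_le_hasSum (Finset.range N) (fun m _ => h4 m) h3)
    apply Finset.sum_le_sum
    intro m _
    have e : tc A m * ζ ^ m - tc A m * ((r : ℂ) * ζ) ^ m = tc A m * ((1 - (r : ℂ) ^ m) * ζ ^ m) := by
      rw [mul_pow]
      ring
    rw [e, norm_mul, norm_mul, norm_pow, hζ]
    have h5 : ‖(1 : ℂ) - (r : ℂ) ^ m‖ = 1 - r ^ m := by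
      have : (1 : ℂ) - (r : ℂ) ^ m = ((1 - r ^ m : ℝ) : ℂ) := by push_cast; rfl
      rw [this, norm_real, Real.norm_of_nonneg]
      have : r ^ m ≤ 1 := pow_le_one₀ hr0.le hr1.le
      linarith
    rw [h5]
    have h6 : r ^ m ≤ 1 := pow_le_one₀ hr0.le hr1.le
    have h7 : 0 ≤ (1 - r ^ m) * ρ ^ m := mul_nonneg (by linarith) (by positivity)
    calc ‖tc A m‖ * ((1 - r ^ m) * ρ ^ m) ≤ 1 * ((1 - r ^ m) * ρ ^ m) :=
          mul_le_mul_of_nonneg_right (coef_le hA hA1 m) h7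
      _ = ρ ^ m - (r * ρ) ^ m := by
          rw [mul_pow]
          ring
  have h8 : A ζ - (q A r N).eval ζ = (A ζ - ∑ m ∈ Finset.range N, tc A m * ζ ^ m) +
      (∑ m ∈ Finset.range N, tc A m * ζ ^ m - (q A r N).eval ζ) := by ring
  rw [h8]
  refine (norm_add_le _ _).trans ?_
  linarith

end CNCXX

open CNCXX

theorem prfCNCX (hS : SumB) (hK : KcT) : CNCX := by
  intro mu Y h
  -- summability
  have hsm : Summable (fun n : ℕ => ((n : ℝ) + 1) * ‖z1 mu (n + 1)‖) := by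
    apply hS mu Y
    intro z hz
    have hadm : Adm (1 : Polynomial ℂ) := by
      constructor
      · intro w _
        simp
      · have : (1 : Polynomial ℂ).support ⊆ {0} := by
          intro m hm
          rw [Polynomial.mem_support_iff, Polynomial.coeff_one] at hm
          by_contra hcon
          rw [Finset.mem_singleton] at hcon
          rw [if_neg hcon] at hm
          exact hm rfl
        refine (Finset.sum_le_sum_of_subset_of_nonneg this fun m _ _ => by positivity).trans ?_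
        simp
    have h1 := h 1 hadm z hz
    have e : ∀ n : ℕ, ((n : ℂ) + 2) * mu (n + 2) * kc 1 (n + 2) * z ^ (n + 1) =
        ((n : ℂ) + 2) ^ 2 * mu (n + 2) * z ^ (n + 1) := by
      intro n
      have : kc 1 (n + 2) = (n : ℂ) + 2 := by
        unfold kc
        rw [Finset.sum_eq_single 0]
        · simp
        · intro m _ hm
          rw [Polynomial.coeff_one, if_neg hm, mul_zero]
        · intro hcon
          exact absurd (Finset.mem_range.2 (by omega)) hcon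
      rw [this]
      ring
    refine ⟨h1.1.congr e, ?_⟩
    rw [← tsum_congr e]
    exact h1.2
  refine ⟨hsm, ?_⟩
  intro A hA hA1 hD z hz
  have hD' : ∀ N : ℕ, ∑ m ∈ Finset.range N, (m : ℝ) * ‖tc A m‖ ^ 2 ≤ 1 := by
    intro N
    have := UB.prfPars Lip.prfOrth A Real.pi Real.pi_pos.le hA hD N
    rwa [div_self Real.pi_ne_zero] at this
  obtain ⟨ρ, k, hρ0, hρ1, hk, hker⟩ := prfKer (z1 mu) hsm z hz
  have hcirc : ∀ θ : ℝ, ‖circleMap 0 ρ θ‖ = ρ := fun θ => by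
    rw [norm_circleMap_zero, abs_of_pos hρ0]
  have hcmem : ∀ θ : ℝ, circleMap 0 ρ θ ∈ ball (0 : ℂ) 1 := fun θ => by
    rw [mem_ball_zero_iff, hcirc]
    exact hρ1
  have ckoe : Continuous fun θ : ℝ => koe (circleMap 0 ρ θ) :=
    diff_koe.continuousOn.comp_continuous (continuous_circleMap 0 ρ) hcmem
  -- a bound for the kernel
  obtain ⟨K, hK'⟩ := (isCompact_Icc (a := (0 : ℝ)) (b := 2 * Real.pi)).exists_bound_of_continuousOn
    (hk.mul ckoe).continuousOn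
  have hK0 : 0 ≤ K := (norm_nonneg _).trans (hK' 0 ⟨le_refl _, by positivity⟩)
  have h2pi : (0 : ℝ) ≤ 2 * Real.pi := by positivity
  -- the bound for given `r`, `N`
  have hY : ∀ (r : ℝ), 0 < r → r < 1 → ∀ N : ℕ, ‖LL (z1 mu) (fun ζ => koe ζ * A ζ) z‖ ≤
      (1 + r ^ N * (1 - r)⁻¹) * Y + (K * (((1 - ρ)⁻¹ - (1 - r * ρ)⁻¹) + ρ ^ N * (1 - ρ)⁻¹)) *
        |2 * Real.pi - 0| := by
    intro r hr0 hr1 N
    have h1r : 0 < 1 - r := by linarith
    have hden : 0 < 1 + r ^ N * (1 - r)⁻¹ := by positivity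
    have h1 := poly hK h (q_adm hA hA1 hD' hr0 hr1 N) hz
    have hdq : ∀ P : Polynomial ℂ, DifferentiableOn ℂ (fun ζ => koe ζ * P.eval ζ) (ball 0 1) :=
      fun P => diff_koe.mul P.differentiable.differentiableOn
    rw [hker _ (hdq _)] at h1
    have h2 : LL (z1 mu) (fun ζ => koe ζ * (q A r N).eval ζ) z =
        ((1 + r ^ N * (1 - r)⁻¹ : ℝ) : ℂ) * ∫ θ in (0 : ℝ)..(2 * Real.pi), k θ *
          (koe (circleMap 0 ρ θ) * (Polynomial.C (((1 + r ^ N * (1 - r)⁻¹ : ℝ)⁻¹ : ℝ) : ℂ) *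
            q A r N).eval (circleMap 0 ρ θ)) := by
      rw [hker _ (hdq _), ← intervalIntegral.integral_const_mul]
      refine intervalIntegral.integral_congr fun θ _ => ?_
      simp only [Polynomial.eval_mul, Polynomial.eval_C]
      have hne : ((1 + r ^ N * (1 - r)⁻¹ : ℝ) : ℂ) ≠ 0 := by exact_mod_cast hden.ne'
      have hcc : ((1 + r ^ N * (1 - r)⁻¹ : ℝ) : ℂ) * (((1 + r ^ N * (1 - r)⁻¹ : ℝ)⁻¹ : ℝ) : ℂ) = 1 := by
        rw [ofReal_inv, mul_inv_cancel₀ hne]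
      linear_combination (-(k θ * (koe (circleMap 0 ρ θ) * (q A r N).eval (circleMap 0 ρ θ)))) * hcc
    have h3 : ‖LL (z1 mu) (fun ζ => koe ζ * (q A r N).eval ζ) z‖ ≤ (1 + r ^ N * (1 - r)⁻¹) * Y := by
      rw [h2, norm_mul, norm_real, Real.norm_of_nonneg hden.le]
      exact mul_le_mul_of_nonneg_left h1 hden.le
    have h4 : LL (z1 mu) (fun ζ => koe ζ * A ζ) z - LL (z1 mu) (fun ζ => koe ζ * (q A r N).eval ζ) z =
        ∫ θ in (0 : ℝ)..(2 * Real.pi), (k θ * koe (circleMap 0 ρ θ)) *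
          (A (circleMap 0 ρ θ) - (q A r N).eval (circleMap 0 ρ θ)) := by
      have hdA : DifferentiableOn ℂ (fun ζ => koe ζ * A ζ) (ball 0 1) := diff_koe.mul hA
      rw [hker _ (hdq _), hker _ hdA, ← intervalIntegral.integral_sub]
      · refine intervalIntegral.integral_congr fun θ _ => ?_
        ring
      · apply Continuous.intervalIntegrable
        exact hk.mul (ckoe.mul (hA.continuousOn.comp_continuous (continuous_circleMap 0 ρ) hcmem))
      · apply Continuous.intervalIntegrable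
        exact hk.mul (ckoe.mul ((q A r N).continuous.comp (continuous_circleMap 0 ρ)))
    have h5 : ‖LL (z1 mu) (fun ζ => koe ζ * A ζ) z -
        LL (z1 mu) (fun ζ => koe ζ * (q A r N).eval ζ) z‖ ≤
        (K * (((1 - ρ)⁻¹ - (1 - r * ρ)⁻¹) + ρ ^ N * (1 - ρ)⁻¹)) * |2 * Real.pi - 0| := by
      rw [h4]
      apply intervalIntegral.norm_integral_le_of_norm_le_const
      intro θ hθ
      rw [uIoc_of_le h2pi] at hθ
      rw [norm_mul]
      exact mul_le_mul (hK' θ ⟨hθ.1.le, hθ.2⟩) (q_appr hA hA1 hr0 hr1 hρ0 hρ1 N (hcirc θ))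
        (norm_nonneg _) hK0
    have h6 : LL (z1 mu) (fun ζ => koe ζ * A ζ) z =
        LL (z1 mu) (fun ζ => koe ζ * (q A r N).eval ζ) z + (LL (z1 mu) (fun ζ => koe ζ * A ζ) z -
        LL (z1 mu) (fun ζ => koe ζ * (q A r N).eval ζ) z) := by ring
    rw [h6]
    refine (norm_add_le _ _).trans (add_le_add h3 h5)
  -- `N → ∞`
  have hY2 : ∀ (r : ℝ), 0 < r → r < 1 → ‖LL (z1 mu) (fun ζ => koe ζ * A ζ) z‖ ≤
      (1 + 0 * (1 - r)⁻¹) * Y + (K * (((1 - ρ)⁻¹ - (1 - r * ρ)⁻¹) + 0 * (1 - ρ)⁻¹)) *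
        |2 * Real.pi - 0| := by
    intro r hr0 hr1
    have t1 := tendsto_pow_atTop_nhds_zero_of_lt_one hr0.le hr1
    have t2 := tendsto_pow_atTop_nhds_zero_of_lt_one hρ0.le hρ1
    have t3 : Tendsto (fun N : ℕ => (1 + r ^ N * (1 - r)⁻¹) * Y +
        (K * (((1 - ρ)⁻¹ - (1 - r * ρ)⁻¹) + ρ ^ N * (1 - ρ)⁻¹)) * |2 * Real.pi - 0|) atTop
        (𝓝 ((1 + 0 * (1 - r)⁻¹) * Y + (K * (((1 - ρ)⁻¹ - (1 - r * ρ)⁻¹) + 0 * (1 - ρ)⁻¹)) *
        |2 * Real.pi - 0|)) :=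
      (((t1.mul_const _).const_add 1).mul_const Y).add
      ((((t2.mul_const _).const_add _).const_mul K).mul_const _)
    exact ge_of_tendsto' t3 (hY r hr0 hr1)
  -- `r → 1`
  have hlim : Tendsto (fun r : ℝ => (1 + 0 * (1 - r)⁻¹) * Y +
      (K * (((1 - ρ)⁻¹ - (1 - r * ρ)⁻¹) + 0 * (1 - ρ)⁻¹)) * |2 * Real.pi - 0|) (𝓝[<] 1) (𝓝 Y) := by
    have t3 : Tendsto (fun r : ℝ => (1 - r * ρ)⁻¹) (𝓝[<] 1) (𝓝 ((1 - 1 * ρ)⁻¹)) := by
      have : ContinuousAt (fun r : ℝ => (1 - r * ρ)⁻¹) 1 := by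
        apply ContinuousAt.inv₀
        · fun_prop
        · rw [one_mul]
          linarith
      exact this.tendsto.mono_left nhdsWithin_le_nhds
    have t4 := ((((t3.const_sub ((1 - ρ)⁻¹)).const_mul K).mul_const (|2 * Real.pi - 0|)).const_add Y)
    rw [one_mul, sub_self, mul_zero, zero_mul, add_zero] at t4
    refine t4.congr fun r => ?_
    ring
  refine ge_of_tendsto hlim ?_
  have : Ioo (0 : ℝ) 1 ∈ 𝓝[<] (1 : ℝ) := Ioo_mem_nhdsLT one_pos
  filter_upwards [this] with r hr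
  exact hY2 r hr.1 hr.2

end Pool.Agent.MultS.LB
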