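import Pool.Agent.Work.MP_b17785_an.LB.StmtsF
import Pool.Agent.Work.MP_b17785_an.Bd.B11

/-!
# Absolute convergence
-/

set_option autoImplicit false

open Complex Metric Set Filter Topology MeasureTheory
open Pool.Agent.MultS.Lip

namespace Pool.Agent.MultS.LB

namespace SumBX

/-- the coefficients -/
noncomputable def a (mu : ℕ → ℂ) : ℕ → ℂ
  | 0 => 0
  | n + 1 => ((n : ℂ) + 2) ^ 2 * mu (n + 2)

lemma shift (mu : ℕ → ℂ) (z : ℂ) : (fun n : ℕ => a mu (n + 1) * z ^ (n + 1)) =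
    fun n : ℕ => ((n : ℂ) + 2) ^ 2 * mu (n + 2) * z ^ (n + 1) := rfl

end SumBX

open SumBX in
theorem prfSumB : SumB := by
  intro mu X h
  have h1 : ∀ z ∈ ball (0 : ℂ) 1, Summable (fun n : ℕ => a mu n * z ^ n) ∧
      ‖∑' n : ℕ, a mu n * z ^ n‖ ≤ X := by
    intro z hz
    obtain ⟨s1, s2⟩ := h z hz
    have s3 : Summable (fun n : ℕ => a mu n * z ^ n) := by
      rw [← summable_nat_add_iff 1]
      exact s1
    refine ⟨s3, ?_⟩
    rw [s3.tsum_eq_zero_add]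
    have : a mu 0 * z ^ 0 = 0 := by simp [a]
    rw [this, zero_add]
    exact s2
  have h2 := prfParsQ (a mu) X h1
  have h3 : Summable (fun n : ℕ => ‖a mu n‖ ^ 2) :=
    summable_of_sum_range_le (fun n => by positivity) h2
  have h4 : Summable (fun n : ℕ => ‖a mu (n + 1)‖ ^ 2) := (summable_nat_add_iff 1).2 h3
  have h5 : Summable (fun n : ℕ => (1 : ℝ) / ((n + 2 : ℕ) : ℝ) ^ 2) :=
    (summable_nat_add_iff 2).2 (Real.summable_one_div_nat_pow.2 (by norm_num))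
  rw [← summable_nat_add_iff 1]
  refine Summable.of_nonneg_of_le (fun n => by positivity) (fun n => ?_)
    ((h4.add h5).div_const 2)
  have e1 : z1 mu (n + 1 + 1) = mu (n + 2) := by
    unfold z1
    rw [if_neg (by omega)]
  have e2 : ‖a mu (n + 1)‖ = ((n : ℝ) + 2) ^ 2 * ‖mu (n + 2)‖ := by
    show ‖((n : ℂ) + 2) ^ 2 * mu (n + 2)‖ = _
    rw [norm_mul, norm_pow]
    congr 2
    have : ((n : ℂ) + 2) = (((n + 2 : ℕ) : ℝ) : ℂ) := by push_cast; ring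
    rw [this, norm_real, Real.norm_of_nonneg (by positivity)]
    push_cast
    ring
  rw [e1, e2]
  have p : (0 : ℝ) < (n : ℝ) + 2 := by positivity
  have e3 : ((n + 1 : ℕ) : ℝ) + 1 = (n : ℝ) + 2 := by push_cast; ring
  have e4 : ((n + 2 : ℕ) : ℝ) = (n : ℝ) + 2 := by push_cast; ring
  rw [e3, e4]
  have e5 : ((n : ℝ) + 2) * ‖mu (n + 2)‖ =
      (((n : ℝ) + 2) ^ 2 * ‖mu (n + 2)‖) * (1 / ((n : ℝ) + 2)) := by
    field_simp
  have e6 : (1 : ℝ) / ((n : ℝ) + 2) ^ 2 = (1 / ((n : ℝ) + 2)) ^ 2 := by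
    rw [div_pow, one_pow]
  rw [e5, e6]
  have := sq_nonneg (((n : ℝ) + 2) ^ 2 * ‖mu (n + 2)‖ - 1 / ((n : ℝ) + 2))
  nlinarith

end Pool.Agent.MultS.LB
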