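import Pool.Agent.Work.MP_b17785_an.Bd.B15
import Pool.Agent.Work.MP_b17785_an.Bd.B14
import Pool.Agent.Work.MP_b17785_an.LB.CNCX
import Pool.Agent.Work.MP_b17785_an.LB.SumB
import Pool.Agent.Work.MP_b17785_an.Bd.B16

/-!
# The two norms are equivalent
-/

set_option autoImplicit false

namespace Pool.Agent.MultS.LB

theorem equA : Equ :=
  prfEqu lbMainA prfUBMain (prfXNPX prfSumB) (prfCXCN prfKcT prfPolD) (prfCNCX prfSumB prfKcT)

end Pool.Agent.MultS.LB
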