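import Pool.Agent.Work.MP_b17785_an.Nbhd
import Pool.Agent.Work.MP_b17785_an.Lip.Stmts
import Pool.Agent.Work.MP_b17785_an.Bd.B01

/-!
# Neighbourhoods of dilated multipliers in the Lipschitz norm
-/

set_option autoImplicit false

open Complex Metric Set Filter Topology

namespace Pool.Agent.MultS.LB

open Pool.Agent.MultS.Lip

namespace NbXX

/-- A holomorphic function with derivative bounded by `X` and `H' 0 = 0`. -/
theorem lipH {H : ℂ → ℂ} {X : ℝ} (hH : DifferentiableOn ℂ H (ball 0 1)) (hX : 0 < X)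
    (hb : ∀ z ∈ ball (0 : ℂ) 1, ‖deriv H z‖ ≤ X) (h0 : deriv H 0 = 0)
    {z w : ℂ} (hz : z ∈ ball (0 : ℂ) 1) (hw : w ∈ ball (0 : ℂ) 1) :
    ‖H w - H z‖ ≤ X * max ‖z‖ ‖w‖ * ‖w - z‖ := by
  have hz1 := mem_ball_zero_iff.1 hz
  have hw1 := mem_ball_zero_iff.1 hw
  set r : ℝ := max ‖z‖ ‖w‖ with hr
  have hr1 : r < 1 := max_lt hz1 hw1
  have hsub : closedBall (0 : ℂ) r ⊆ ball 0 1 := closedBall_subset_ball hr1
  have hE : ∀ x ∈ ball (0 : ℂ) 1, ‖deriv H x‖ ≤ X * ‖x‖ := by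
    intro x hx
    have hd : DifferentiableOn ℂ (fun t => deriv H t / (X : ℂ)) (ball 0 1) :=
      (hH.deriv isOpen_ball).div_const _
    have hm : MapsTo (fun t => deriv H t / (X : ℂ)) (ball (0 : ℂ) 1) (closedBall (0 : ℂ) 1) := by
      intro t ht
      rw [mem_closedBall_zero_iff, norm_div, norm_real, Real.norm_of_nonneg hX.le]
      exact (div_le_one hX).2 (hb t ht)
    have h1 := Complex.norm_le_norm_of_mapsTo_ball hd hm (by simp [h0]) (mem_ball_zero_iff.1 hx)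
    rw [norm_div, norm_real, Real.norm_of_nonneg hX.le, div_le_iff₀ hX] at h1
    linarith
  have hd : ∀ x ∈ closedBall (0 : ℂ) r,
      HasDerivWithinAt H (deriv H x) (closedBall (0 : ℂ) r) x := by
    intro x hx
    exact (hH.differentiableAt (isOpen_ball.mem_nhds (hsub hx))).hasDerivAt.hasDerivWithinAt
  have hb' : ∀ x ∈ closedBall (0 : ℂ) r, ‖deriv H x‖ ≤ X * r := by
    intro x hx
    exact (hE x (hsub hx)).trans (mul_le_mul_of_nonneg_left (mem_closedBall_zero_iff.1 hx) hX.le)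
  exact (convex_closedBall (0 : ℂ) r).norm_image_sub_le_of_norm_hasDerivWithin_le hd hb'
    (mem_closedBall_zero_iff.2 (le_max_left ‖z‖ ‖w‖))
    (mem_closedBall_zero_iff.2 (le_max_right ‖z‖ ‖w‖))

end NbXX

/-- Dilated multipliers are interior points in the Lipschitz norm. -/
theorem nbhdX (hG : Gol) {lam : ℕ → ℂ} (hlam : Lit Sc lam) {r : ℝ}
    (hr0 : 0 ≤ r) (hr1 : r < 1) {eta : ℕ → ℂ} (he1 : eta 1 = 0)
    (hX : XN eta ((1 - r) / (1 + r) ^ 3)) :
    Lit Sc (fun n => (r : ℂ) ^ (n - 1) * lam n + eta n) := by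
  intro f hf
  obtain ⟨hgs0, hgS⟩ := hlam f hf
  have hm : 0 < (1 - r) / (1 + r) ^ 3 := div_pos (by linarith) (by positivity)
  set b : ℕ → ℂ := fun n => lam (n + 1) * tc f (n + 1) with hb
  set d : ℕ → ℂ := fun n => eta (n + 1) * tc f (n + 1) with hd
  set g : ℂ → ℂ := fun z => ∑' n : ℕ, b n * z ^ (n + 1) with hg
  have hgs : ∀ z ∈ ball (0 : ℂ) 1, HasSum (fun n : ℕ => b n * z ^ (n + 1)) (g z) :=
    fun z hz => (hgs0 z hz).hasSum
  replace hgS : Sc g := hgS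
  clear_value g
  -- the first coefficient
  have hb0 : b 0 = 1 := by
    have h1 := tc_of_hasSum_succ (c := fun m => lam m * tc f m) (G := g) hgs 1 le_rfl
    rw [tc_one] at h1
    rw [hgS.2.2.2] at h1
    exact h1.symm
  have hd0 : d 0 = 0 := by simp [hd, he1]
  -- the dilated function
  set gr : ℂ → ℂ := fun z => if r = 0 then z else g (r * z) / r with hgr
  have hmaps : ∀ z ∈ ball (0 : ℂ) 1, (r : ℂ) * z ∈ ball (0 : ℂ) 1 ∧ ‖(r : ℂ) * z‖ ≤ r := by
    intro z hz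
    have hz1 := mem_ball_zero_iff.1 hz
    have h1 : ‖(r : ℂ) * z‖ ≤ r := by
      rw [norm_mul, norm_real, Real.norm_of_nonneg hr0]
      exact mul_le_of_le_one_right hr0 hz1.le
    exact ⟨mem_ball_zero_iff.2 (h1.trans_lt hr1), h1⟩
  have hgrs : ∀ z ∈ ball (0 : ℂ) 1, HasSum (fun n : ℕ => (r : ℂ) ^ n * b n * z ^ (n + 1))
      (gr z) := by
    intro z hz
    by_cases h0 : r = 0
    · simp only [hgr, h0, if_true]
      convert hasSum_single (f := fun n : ℕ => ((0 : ℝ) : ℂ) ^ n * b n * z ^ (n + 1)) 0 ?_ using 1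
      · simp [hb0]
      · intro n hn
        simp [hn]
    · simp only [hgr, h0, if_false]
      have hrc : (r : ℂ) ≠ 0 := by exact_mod_cast h0
      refine ((hgs _ (hmaps z hz).1).div_const (r : ℂ)).congr_fun fun n => ?_
      rw [mul_pow, pow_succ (r : ℂ) n, pow_succ z n]
      field_simp
  have hgrG : ∀ z ∈ ball (0 : ℂ) 1, ∀ w ∈ ball (0 : ℂ) 1,
      (1 - r) / (1 + r) ^ 3 * ‖z - w‖ ≤ ‖gr z - gr w‖ := by
    intro z hz w hw
    by_cases h0 : r = 0
    · simp [hgr, h0]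
    · simp only [hgr, h0, if_false]
      have hrp : 0 < r := lt_of_le_of_ne hr0 (Ne.symm h0)
      have h1 := hG g hgS r hr0 hr1 _ _ (hmaps z hz).2 (hmaps w hw).2
      rw [← sub_div, norm_div, norm_real, Real.norm_of_nonneg hr0, le_div_iff₀ hrp]
      rw [← mul_sub, norm_mul, norm_real, Real.norm_of_nonneg hr0] at h1
      linarith
  -- the perturbation
  have hsX : ∀ z ∈ ball (0 : ℂ) 1,
      Summable (fun n : ℕ => ((n : ℂ) + 2) * d (n + 1) * z ^ (n + 1)) ∧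
      ‖∑' n : ℕ, ((n : ℂ) + 2) * d (n + 1) * z ^ (n + 1)‖ ≤ (1 - r) / (1 + r) ^ 3 := by
    intro z hz
    have h2 := hX f hf z hz
    have e : (fun n : ℕ => ((n : ℂ) + 2) * eta (n + 2) * tc f (n + 2) * z ^ (n + 1)) =
        fun n : ℕ => ((n : ℂ) + 2) * d (n + 1) * z ^ (n + 1) := by
      funext n
      show _ = ((n : ℂ) + 2) * (eta (n + 1 + 1) * tc f (n + 1 + 1)) * z ^ (n + 1)
      ring
    rw [e] at h2
    exact h2
  have hsd : ∀ z ∈ ball (0 : ℂ) 1, Summable (fun n : ℕ => ((n : ℂ) + 1) * d n * z ^ n) := by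
    intro z hz
    rw [← summable_nat_add_iff 1]
    refine (hsX z hz).1.congr fun n => ?_
    push_cast
    ring
  have hdz : ∀ z ∈ ball (0 : ℂ) 1, Summable (fun n : ℕ => d n * z ^ (n + 1)) := by
    intro z hz
    refine Summable.of_norm_bounded (hsd z hz).norm fun n => ?_
    have hz1 : ‖z‖ ≤ 1 := (mem_ball_zero_iff.1 hz).le
    have e3 : ‖d n * z ^ (n + 1)‖ = ‖d n‖ * (‖z‖ ^ n * ‖z‖) := by
      rw [norm_mul (d n), norm_pow, pow_succ]
    have e4 : ‖((n : ℂ) + 1) * d n * z ^ n‖ = ‖((n : ℂ) + 1)‖ * ‖d n‖ * ‖z‖ ^ n := by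
      rw [norm_mul, norm_mul _ (d n), norm_pow]
    rw [e3, e4]
    have h3 : (1 : ℝ) ≤ ‖((n : ℂ) + 1)‖ := by
      have : ((n : ℂ) + 1) = ((n + 1 : ℕ) : ℂ) := by push_cast; ring
      rw [this, Complex.norm_natCast]
      exact_mod_cast Nat.succ_le_succ (Nat.zero_le n)
    have h4 : ‖d n‖ * (‖z‖ ^ n * ‖z‖) ≤ ‖d n‖ * ‖z‖ ^ n := by
      refine mul_le_mul_of_nonneg_left ?_ (norm_nonneg _)
      exact mul_le_of_le_one_right (by positivity) hz1
    have h5 : ‖d n‖ * ‖z‖ ^ n ≤ ‖((n : ℂ) + 1)‖ * ‖d n‖ * ‖z‖ ^ n := by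
      rw [mul_assoc]
      exact le_mul_of_one_le_left (by positivity) h3
    exact h4.trans h5
  set H : ℂ → ℂ := fun z => ∑' n : ℕ, d n * z ^ (n + 1) with hH
  have hHs : ∀ z ∈ ball (0 : ℂ) 1, HasSum (fun n : ℕ => d n * z ^ (n + 1)) (H z) :=
    fun z hz => (hdz z hz).hasSum
  set c' : ℕ → ℂ := fun n => Nat.casesOn n 0 d with hc'
  have hcs' : ∀ z ∈ ball (0 : ℂ) 1, HasSum (fun n : ℕ => c' n * z ^ n) (H z) := by
    intro z hz
    have := (hasSum_nat_add_iff (f := fun n : ℕ => c' n * z ^ n) 1).1 (hHs z hz)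
    simpa [hc'] using this
  have hHd := (fps_of_hasSum hcs').differentiableOn
  rw [← ENNReal.ofReal_one, Metric.eball_ofReal] at hHd
  have hHt := tc_of_hasSum hcs'
  have hH1 : deriv H 0 = 0 := by
    rw [← tc_one, hHt 1]
    exact hd0
  have hder : ∀ z ∈ ball (0 : ℂ) 1,
      deriv H z = ∑' n : ℕ, ((n : ℂ) + 2) * d (n + 1) * z ^ (n + 1) := by
    intro z hz
    have h6 := (prfSer H hHd z hz).2.1
    have h7 := (hasSum_nat_add_iff' 1).2 h6
    rw [Finset.sum_range_one] at h7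
    have e0 : ((0 : ℕ) : ℂ) + 1 = 1 := by norm_num
    rw [e0, one_mul, pow_zero, mul_one, hHt (0 + 1)] at h7
    have e1 : c' (0 + 1) = 0 := hd0
    rw [e1, sub_zero] at h7
    rw [← h7.tsum_eq]
    refine tsum_congr fun n => ?_
    rw [hHt (n + 1 + 1)]
    show _ * d (n + 1) * _ = _
    push_cast
    ring
  have hHb : ∀ z ∈ ball (0 : ℂ) 1, ‖deriv H z‖ ≤ (1 - r) / (1 + r) ^ 3 := by
    intro z hz
    rw [hder z hz]
    exact (hsX z hz).2
  -- the sum
  have hGs : ∀ z ∈ ball (0 : ℂ) 1, HasSum (fun n : ℕ =>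
      (fun n => (r : ℂ) ^ (n - 1) * lam n + eta n) (n + 1) * tc f (n + 1) * z ^ (n + 1))
      (gr z + H z) := by
    intro z hz
    refine ((hgrs z hz).add (hHs z hz)).congr_fun fun n => ?_
    simp only [Nat.add_sub_cancel, hb, hd]
    ring
  refine ⟨fun z hz => (hGs z hz).summable, ?_⟩
  set G : ℂ → ℂ := fun z => ∑' n : ℕ,
    (fun n => (r : ℂ) ^ (n - 1) * lam n + eta n) (n + 1) * tc f (n + 1) * z ^ (n + 1) with hGdef
  have hGe : ∀ z ∈ ball (0 : ℂ) 1, G z = gr z + H z := fun z hz => (hGs z hz).tsum_eq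
  set c : ℕ → ℂ := fun n => Nat.casesOn n 0
    (fun n => (fun n => (r : ℂ) ^ (n - 1) * lam n + eta n) (n + 1) * tc f (n + 1)) with hc
  have hcs : ∀ z ∈ ball (0 : ℂ) 1, HasSum (fun n : ℕ => c n * z ^ n) (G z) := by
    intro z hz
    rw [hGe z hz]
    have := (hasSum_nat_add_iff (f := fun n : ℕ => c n * z ^ n) 1).1 (hGs z hz)
    simpa [hc] using this
  have hgd := (fps_of_hasSum hcs).differentiableOn
  rw [← ENNReal.ofReal_one, Metric.eball_ofReal] at hgd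
  have hgt := tc_of_hasSum hcs
  refine ⟨hgd, ?_, ?_, ?_⟩
  · intro z hz w hw hzw
    by_contra hne
    have hz1 := mem_ball_zero_iff.1 hz
    have hw1 := mem_ball_zero_iff.1 hw
    have hρ1 : max ‖z‖ ‖w‖ < 1 := max_lt hz1 hw1
    have hn1 := NbXX.lipH hHd hm hHb hH1 hz hw
    have hpos : 0 < ‖z - w‖ := norm_pos_iff.2 (sub_ne_zero.2 hne)
    have h10 : (1 - r) / (1 + r) ^ 3 * max ‖z‖ ‖w‖ * ‖w - z‖ <
        (1 - r) / (1 + r) ^ 3 * ‖z - w‖ := by
      rw [norm_sub_rev w z]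
      have h11 : (1 - r) / (1 + r) ^ 3 * max ‖z‖ ‖w‖ < (1 - r) / (1 + r) ^ 3 * 1 :=
        mul_lt_mul_of_pos_left hρ1 hm
      rw [mul_one] at h11
      exact mul_lt_mul_of_pos_right h11 hpos
    have h12 := hgrG z hz w hw
    have h13 : gr z - gr w = H w - H z := by
      have h14 : G z = G w := hzw
      rw [hGe z hz, hGe w hw] at h14
      linear_combination h14
    rw [h13] at h12
    linarith
  · change ∑' n : ℕ, _ * (0 : ℂ) ^ (n + 1) = 0
    simp
  · have := hgt 1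
    rw [tc_one] at this
    rw [this]
    simpa [hc, hb, he1] using hb0

end Pool.Agent.MultS.LB
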