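import Pool.Agent.Work.MP_b17785_an.Lip.Defs

/-!
# The explicit form of the Lipschitz norm of multipliers of `S`, lower bound: definitions

`PX lam X` : `|(T f)'| ≤ X` for all `f ∈ S`, where `T` is the multiplier operator of `lam`.
`CX lam Y` : the same for the products `f = koe * A`, `|A| ≤ 1`, `∬_D |A'|² ≤ π`.
The block proves `PX lam X → CX lam (C X)` with an absolute constant `C`.

`Drv κ S` : driving functions; `Fl κ S y` : the Loewner flow `y' = 1/(y - i κ) - y`,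
`y(0,W)² = 1 + W²`, in the right half plane.
-/

set_option autoImplicit false

open Complex Metric Set Filter Topology MeasureTheory
open Pool.Agent.MultS.Lip

namespace Pool.Agent.MultS.LB

/-- The Koebe function. -/
noncomputable def koe (z : ℂ) : ℂ := z / (1 - z) ^ 2

/-- `lam` maps `S` into the functions with derivative at most `X`. -/
structure PX (lam : ℕ → ℂ) (X : ℝ) : Prop where
  /-- `∑ n |lam n|` converges -/
  sm : Summable (fun n : ℕ => ((n : ℝ) + 1) * ‖lam (n + 1)‖)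
  /-- the bound -/
  bx : ∀ f : ℂ → ℂ, Sc f → ∀ z ∈ ball (0 : ℂ) 1, ‖LL lam f z‖ ≤ X

/-- `lam` maps the products `koe * A` into the functions with derivative at most `Y`. -/
structure CX (lam : ℕ → ℂ) (Y : ℝ) : Prop where
  /-- `∑ n |lam n|` converges -/
  sm : Summable (fun n : ℕ => ((n : ℝ) + 1) * ‖lam (n + 1)‖)
  /-- the bound -/
  bc : ∀ A : ℂ → ℂ, DifferentiableOn ℂ A (ball 0 1) → (∀ z ∈ ball (0 : ℂ) 1, ‖A z‖ ≤ 1) →
    ∫⁻ z in ball (0 : ℂ) 1, ENNReal.ofReal (‖deriv A z‖ ^ 2) ≤ ENNReal.ofReal Real.pi →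
    ∀ z ∈ ball (0 : ℂ) 1, ‖LL lam (fun ζ => koe ζ * A ζ) z‖ ≤ Y

/-! ### The Loewner flow -/

/-- Driving functions. -/
structure Drv (κ : ℝ → ℝ) (S : ℝ) : Prop where
  /-- length -/
  Sp : 0 < S
  /-- smooth -/
  c1 : ContDiff ℝ 1 κ
  /-- support in `[0, S]` -/
  zer : ∀ s : ℝ, s ≤ 0 ∨ S ≤ s → κ s = 0
  /-- small -/
  b0 : ∀ s : ℝ, |κ s| ≤ 1 / 1000
  /-- small derivative -/
  b1 : ∀ s : ℝ, |deriv κ s| ≤ 1 / 1000
  /-- square integrable -/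
  l2 : ∫ s in (0 : ℝ)..S, κ s ^ 2 ≤ 1

/-- The distance to the driving point. -/
noncomputable def nu (κ : ℝ → ℝ) (y : ℝ → ℂ → ℂ) (s : ℝ) (W : ℂ) : ℂ := y s W - I * (κ s : ℂ)

/-- The Loewner flow. -/
structure Fl (κ : ℝ → ℝ) (S : ℝ) (y : ℝ → ℂ → ℂ) : Prop where
  /-- initial value -/
  ini : ∀ W ∈ Hp, y 0 W ^ 2 = 1 + W ^ 2
  /-- stays in the right half plane -/
  pos : ∀ s ∈ Icc (0 : ℝ) S, ∀ W ∈ Hp, 0 < (y s W).re
  /-- the equation -/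
  ode : ∀ W ∈ Hp, ∀ s ∈ Icc (0 : ℝ) S,
    HasDerivWithinAt (fun s' : ℝ => y s' W) (1 / nu κ y s W - y s W) (Icc 0 S) s

/-- `X = R² (y² - 1)`, `R = e^s`. -/
noncomputable def XX (y : ℝ → ℂ → ℂ) (s : ℝ) (W : ℂ) : ℂ :=
  (Real.exp (2 * s) : ℂ) * (y s W ^ 2 - 1)

/-- `n = exp (- i ∫ (κ + κ')/ν)`. -/
noncomputable def nn (κ : ℝ → ℝ) (y : ℝ → ℂ → ℂ) (s : ℝ) (W : ℂ) : ℂ :=
  Complex.exp (-I * ∫ x in (0 : ℝ)..s, ((κ x + deriv κ x : ℝ) : ℂ) / nu κ y x W)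

/-- `w = (1 + e^{-2t} (y² - 1))^{-3/2}`. -/
noncomputable def ww (t : ℝ) (y : ℂ) : ℂ :=
  (1 + (Real.exp (-2 * t) : ℂ) * (y ^ 2 - 1)) ^ (-(3 / 2) : ℂ)

/-- The Moebius function of `y²`, `M (y₁) = 0`, derivative `1` in `y²` at `y₁²`. -/
noncomputable def mo (y₁ y : ℂ) : ℂ := (y ^ 2 - y₁ ^ 2) * (1 + y₁ ^ 2) / (1 + y ^ 2)

/-- `ℓ(s) = 2 i e^{2s} L((1 + W² e^{-2s})^{-1/2})`, `W = psi`. -/
noncomputable def ell (lam : ℕ → ℂ) (z : ℂ) (s : ℝ) : ℂ :=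
  2 * I * (Real.exp (2 * s) : ℂ) *
    LL lam (fun ζ => (1 + psi ζ ^ 2 * (Real.exp (-2 * s) : ℂ)) ^ (-(1 / 2) : ℂ)) z

/-- `q(t) = e^{-2t} (1 - e^{-2t})^{-1/2}` for `t > 0`, `0` for `t ≤ 0`. -/
noncomputable def qq (t : ℝ) : ℝ :=
  if 0 < t then Real.exp (-2 * t) * (Real.sqrt (1 - Real.exp (-2 * t)))⁻¹ else 0

/-- `κ = (1/π) ∫ (2v + v')(s - t) q(t) dt`. -/
noncomputable def kap (v : ℝ → ℝ) (s : ℝ) : ℝ :=
  Real.pi⁻¹ * ∫ t in Ioi (0 : ℝ), (2 * v (s - t) + deriv v (s - t)) * qq t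

/-- The boundary values `v(σ) = Im A(phi(i e^σ))`. -/
noncomputable def vv (A : ℂ → ℂ) (σ : ℝ) : ℝ := (A (phi (I * (Real.exp σ : ℂ)))).im

end Pool.Agent.MultS.LB
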