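import Pool.Agent.Work.MP_b17785_an.LB.Stmts2
import Pool.Agent.Work.MP_b17785_an.Bd.B07

/-!
# Item A6: the kernel identity
-/

set_option autoImplicit false

open Complex Metric Set Filter Topology MeasureTheory
open Pool.Agent.MultS.Lip

namespace Pool.Agent.MultS.LB

namespace RepX

/-! ### The exponential weight -/

theorem int_exp : Integrable (fun x : ℝ => Real.exp (-|x|)) := by
  rw [← integrableOn_univ, ← Iic_union_Ioi (a := (0 : ℝ))]
  refine IntegrableOn.union ?_ ?_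
  · refine (integrableOn_exp_Iic 0).congr_fun ?_ measurableSet_Iic
    intro x hx
    show Real.exp x = Real.exp (-|x|)
    rw [abs_of_nonpos hx, neg_neg]
  · refine (exp_neg_integrableOn_Ioi 0 (b := 1) one_pos).congr_fun ?_ measurableSet_Ioi
    intro x hx
    show Real.exp (-1 * x) = Real.exp (-|x|)
    rw [abs_of_pos hx, neg_one_mul]

theorem tend_exp_top : Tendsto (fun x : ℝ => Real.exp (-|x|)) atTop (𝓝 0) :=
  Real.tendsto_exp_neg_atTop_nhds_zero.comp tendsto_abs_atTop_atTop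

theorem tend_exp_bot : Tendsto (fun x : ℝ => Real.exp (-|x|)) atBot (𝓝 0) :=
  Real.tendsto_exp_neg_atTop_nhds_zero.comp tendsto_abs_atBot_atTop

theorem exp_le_one (x : ℝ) : Real.exp (-|x|) ≤ 1 := by
  rw [Real.exp_le_one_iff]
  linarith [abs_nonneg x]

/-! ### The functions `v` and `u = 2 v + v'` -/

/-- `u = 2 v + v'` -/
noncomputable def uu (v : ℝ → ℝ) (x : ℝ) : ℝ := 2 * v x + deriv v x

section

variable {v : ℝ → ℝ} {c : ℝ}

theorem c_nonneg (h : Dec v c) : 0 ≤ c := by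
  have h1 := (h.2 0).1
  rw [abs_zero, neg_zero, Real.exp_zero, mul_one] at h1
  exact (abs_nonneg _).trans h1

theorem cont_v (h : Dec v c) : Continuous v := h.1.continuous

theorem cont_dv (h : Dec v c) : Continuous (deriv v) := h.1.continuous_deriv le_rfl

theorem cont_u (h : Dec v c) : Continuous (uu v) :=
  (continuous_const.mul (cont_v h)).add (cont_dv h)

theorem bd_u (h : Dec v c) (x : ℝ) : |uu v x| ≤ 3 * c * Real.exp (-|x|) := by
  unfold uu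
  obtain ⟨h1, h2⟩ := h.2 x
  calc |2 * v x + deriv v x| ≤ |2 * v x| + |deriv v x| := abs_add_le _ _
    _ = 2 * |v x| + |deriv v x| := by rw [abs_mul, abs_of_pos (by norm_num : (0 : ℝ) < 2)]
    _ ≤ 3 * c * Real.exp (-|x|) := by linarith

theorem bd_u' (h : Dec v c) (x : ℝ) : |uu v x| ≤ 3 * c := by
  have hc := c_nonneg h
  have h1 := bd_u h x
  have h2 := exp_le_one x
  have h3 : 3 * c * Real.exp (-|x|) ≤ 3 * c * 1 := mul_le_mul_of_nonneg_left h2 (by linarith)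
  linarith

theorem int_v (h : Dec v c) : Integrable v := by
  refine (int_exp.const_mul c).mono' (cont_v h).aestronglyMeasurable ?_
  exact Eventually.of_forall fun x => (h.2 x).1

theorem int_u (h : Dec v c) : Integrable (uu v) := by
  refine (int_exp.const_mul (3 * c)).mono' (cont_u h).aestronglyMeasurable ?_
  exact Eventually.of_forall fun x => bd_u h x

end

/-! ### The kernel `q` -/

theorem qq_nonpos {t : ℝ} (ht : t ≤ 0) : qq t = 0 := by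
  unfold qq
  rw [if_neg (not_lt.mpr ht)]

theorem kap_eq (v : ℝ → ℝ) (s : ℝ) :
    kap v s = Real.pi⁻¹ * ∫ t : ℝ, qq t * uu v (s - t) := by
  have e : ∫ t in Ioi (0 : ℝ), qq t * uu v (s - t) = ∫ t : ℝ, qq t * uu v (s - t) :=
    setIntegral_eq_integral_of_forall_compl_eq_zero fun t ht => by
      rw [qq_nonpos (not_lt.mp ht), zero_mul]
  rw [← e]
  unfold kap
  congr 1
  refine setIntegral_congr_fun measurableSet_Ioi fun t _ => ?_
  show (2 * v (s - t) + deriv v (s - t)) * qq t = qq t * uu v (s - t)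
  unfold uu
  ring

theorem cont_kap {v : ℝ → ℝ} {c : ℝ} (h : Dec v c) (hq : Integrable qq) (hq0 : ∀ t, 0 ≤ qq t) :
    Continuous (kap v) := by
  have e : kap v = fun s => Real.pi⁻¹ * ∫ t : ℝ, qq t * uu v (s - t) := funext (kap_eq v)
  rw [e]
  refine continuous_const.mul ?_
  refine continuous_of_dominated (bound := fun t => qq t * (3 * c)) ?_ ?_ (hq.mul_const _) ?_
  · intro s
    exact hq.aestronglyMeasurable.mul
      ((cont_u h).comp (continuous_const.sub continuous_id)).aestronglyMeasurable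
  · intro s
    refine Eventually.of_forall fun t => ?_
    rw [norm_mul, Real.norm_eq_abs, Real.norm_eq_abs, abs_of_nonneg (hq0 t)]
    exact mul_le_mul_of_nonneg_left (bd_u' h _) (hq0 t)
  · exact Eventually.of_forall fun t =>
      continuous_const.mul ((cont_u h).comp (continuous_id.sub continuous_const))

theorem int_F0 {v : ℝ → ℝ} {c : ℝ} (h : Dec v c) (hq : Integrable qq) :
    Integrable (fun p : ℝ × ℝ => qq p.2 * uu v (p.1 - p.2)) (volume.prod volume) :=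
  hq.convolution_integrand (ContinuousLinearMap.mul ℝ ℝ) (int_u h)

theorem int_kap {v : ℝ → ℝ} {c : ℝ} (h : Dec v c) (hq : Integrable qq) :
    Integrable (kap v) := by
  have e : kap v = fun s => Real.pi⁻¹ * ∫ t : ℝ, qq t * uu v (s - t) := funext (kap_eq v)
  rw [e]
  exact (int_F0 h hq).integral_prod_left.const_mul _

/-! ### The function `E` -/

theorem sq_slit {W : ℂ} (hW : W ∈ Hp) {r : ℝ} (hr : 0 < r) : W ^ 2 * (r : ℂ) ∈ slitPlane := by
  have hW' : 0 < W.re := hW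
  rw [mem_slitPlane_iff]
  by_cases him : W.im = 0
  · left
    have e : (W ^ 2 * (r : ℂ)).re = (W.re ^ 2 - W.im ^ 2) * r := by
      rw [Complex.re_mul_ofReal, pow_two, Complex.mul_re]; ring
    rw [e, him]
    have : 0 < W.re ^ 2 := by positivity
    have h2 : 0 < W.re ^ 2 * r := by positivity
    linarith
  · right
    have e : (W ^ 2 * (r : ℂ)).im = 2 * W.re * W.im * r := by
      rw [Complex.im_mul_ofReal, pow_two, Complex.mul_im]; ring
    rw [e]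
    have h1 : (2 : ℝ) ≠ 0 := two_ne_zero
    exact mul_ne_zero (mul_ne_zero (mul_ne_zero h1 hW'.ne') him) hr.ne'

theorem one_slit {z : ℂ} (hz : z ∈ slitPlane) : 1 + z ∈ slitPlane := by
  rw [mem_slitPlane_iff] at hz ⊢
  rcases hz with hz | hz
  · left
    rw [add_re, one_re]
    linarith
  · right
    rw [add_im, one_im, zero_add]
    exact hz

/-- the function `E` -/
noncomputable def EE (W : ℂ) (s : ℝ) : ℂ :=
  (Real.exp (2 * s) : ℂ) * ((1 + W ^ 2 * (Real.exp (-2 * s) : ℂ)) ^ (-(1 / 2) : ℂ) - 1)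

theorem cont_E {W : ℂ} (hW : W ∈ Hp) : Continuous (EE W) := by
  unfold EE
  have h1 : Continuous fun s : ℝ => (Real.exp (2 * s) : ℂ) :=
    continuous_ofReal.comp (Real.continuous_exp.comp (continuous_const.mul continuous_id))
  have h2 : Continuous fun s : ℝ => (Real.exp (-2 * s) : ℂ) :=
    continuous_ofReal.comp (Real.continuous_exp.comp (continuous_const.mul continuous_id))
  refine h1.mul (Continuous.sub ?_ continuous_const)
  exact (continuous_const.add (continuous_const.mul h2)).cpow continuous_const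
    fun s => one_slit (sq_slit hW (Real.exp_pos _))

theorem bd_E (hEBd : EBd) {W : ℂ} (hW : W ∈ Hp) : ∃ C : ℝ, ∀ s : ℝ, ‖EE W s‖ ≤ C := by
  obtain ⟨h1, h2, -⟩ := prfCay.2.1 W hW
  rw [mem_ball, dist_zero_right] at h1
  obtain ⟨C, hC⟩ := hEBd ((‖phi W‖ + 1) / 2) (by positivity) (by linarith)
  refine ⟨C, fun s => ?_⟩
  have h3 := hC (phi W) (by linarith) s
  rw [h2] at h3
  exact h3

/-! ### The inner integral -/

/-- `log (1 + W² e^{-2σ})` -/
noncomputable def Lg (W : ℂ) (σ : ℝ) : ℂ :=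
  Complex.log (1 + W ^ 2 * (Real.exp (-2 * σ) : ℂ))

theorem exp_a (σ t : ℝ) : (Real.exp (2 * (σ + t)) : ℂ) =
    (Real.exp (2 * σ) : ℂ) * (Real.exp (2 * t) : ℂ) := by
  rw [← ofReal_mul, ← Real.exp_add]
  congr 2
  ring

theorem exp_b (σ t : ℝ) : (Real.exp (-2 * (σ + t)) : ℂ) =
    (Real.exp (-2 * σ) : ℂ) * (Real.exp (-2 * t) : ℂ) := by
  rw [← ofReal_mul, ← Real.exp_add]
  congr 2
  ring

theorem exp_c (t : ℝ) : (Real.exp (-2 * t) : ℂ) * (Real.exp (2 * t) : ℂ) = 1 := by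
  rw [← ofReal_mul, ← Real.exp_add]
  norm_num

theorem inner (hPhiC : PhiC) {W : ℂ} (hW : W ∈ Hp) (σ : ℝ) :
    ∫ t : ℝ, (qq t : ℂ) * EE W (σ + t) =
      (Real.exp (2 * σ) : ℂ) * (-(1 / 2) * Lg W σ) := by
  obtain ⟨-, h2⟩ := hPhiC (W ^ 2 * (Real.exp (-2 * σ) : ℂ)) (sq_slit hW (Real.exp_pos _))
  have e : ∫ t in Ioi (0 : ℝ), (qq t : ℂ) * EE W (σ + t) =
      ∫ t : ℝ, (qq t : ℂ) * EE W (σ + t) :=
    setIntegral_eq_integral_of_forall_compl_eq_zero fun t ht => by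
      rw [qq_nonpos (not_lt.mp ht), ofReal_zero, zero_mul]
  rw [← e]
  unfold Lg
  rw [← h2, ← integral_const_mul]
  refine setIntegral_congr_fun measurableSet_Ioi fun t ht => ?_
  have ht' : 0 < t := ht
  have hq : (qq t : ℂ) = (Real.exp (-2 * t) : ℂ) *
      ((Real.sqrt (1 - Real.exp (-2 * t)) : ℝ) : ℂ)⁻¹ := by
    unfold qq
    rw [if_pos ht', ofReal_mul, ofReal_inv]
  show (qq t : ℂ) * EE W (σ + t) = (Real.exp (2 * σ) : ℂ) *
    (((Real.sqrt (1 - Real.exp (-2 * t)) : ℝ) : ℂ)⁻¹ *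
      ((1 + W ^ 2 * (Real.exp (-2 * σ) : ℂ) * (Real.exp (-2 * t) : ℂ)) ^ (-(1 / 2) : ℂ) - 1))
  unfold EE
  rw [hq, exp_a, exp_b, ← mul_assoc (W ^ 2)]
  have h3 := exp_c t
  linear_combination (((Real.sqrt (1 - Real.exp (-2 * t)) : ℝ) : ℂ)⁻¹ *
    (Real.exp (2 * σ) : ℂ) *
      ((1 + W ^ 2 * (Real.exp (-2 * σ) : ℂ) * (Real.exp (-2 * t) : ℂ)) ^ (-(1 / 2) : ℂ) - 1)) * h3

theorem bd_Lg (hPhiC : PhiC) (hQQ : QQ) {W : ℂ} (hW : W ∈ Hp) {C : ℝ}
    (hC : ∀ s : ℝ, ‖EE W s‖ ≤ C) (σ : ℝ) :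
    ‖(Real.exp (2 * σ) : ℂ) * Lg W σ‖ ≤ 2 * C := by
  have h1 : ‖∫ t : ℝ, (qq t : ℂ) * EE W (σ + t)‖ ≤ ∫ t : ℝ, qq t * C := by
    refine norm_integral_le_of_norm_le (hQQ.1.mul_const C) (Eventually.of_forall fun t => ?_)
    rw [norm_mul, norm_real, Real.norm_eq_abs, abs_of_nonneg (hQQ.2.2.1 t)]
    exact mul_le_mul_of_nonneg_left (hC _) (hQQ.2.2.1 t)
  rw [inner hPhiC hW, integral_mul_const, hQQ.2.1, one_mul] at h1
  have h2 : (Real.exp (2 * σ) : ℂ) * (-(1 / 2) * Lg W σ) =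
      -(1 / 2) * ((Real.exp (2 * σ) : ℂ) * Lg W σ) := by ring
  rw [h2, norm_mul] at h1
  have h3 : ‖(-(1 / 2) : ℂ)‖ = 1 / 2 := by
    rw [norm_neg]; norm_num
  rw [h3] at h1
  linarith

theorem cont_Lg {W : ℂ} (hW : W ∈ Hp) : Continuous (Lg W) := by
  unfold Lg
  have h2 : Continuous fun s : ℝ => (Real.exp (-2 * s) : ℂ) :=
    continuous_ofReal.comp (Real.continuous_exp.comp (continuous_const.mul continuous_id))
  exact (continuous_const.add (continuous_const.mul h2)).clog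
    fun s => one_slit (sq_slit hW (Real.exp_pos _))

theorem cont_exp2 : Continuous fun s : ℝ => (Real.exp (2 * s) : ℂ) :=
  continuous_ofReal.comp (Real.continuous_exp.comp (continuous_const.mul continuous_id))

/-! ### The kernel on the right side -/

theorem den_ne {W : ℂ} (hW : W ∈ Hp) (σ : ℝ) : (Real.exp (2 * σ) : ℂ) + W ^ 2 ≠ 0 := by
  have h1 := one_slit (sq_slit hW (Real.exp_pos (-2 * σ)))
  have h2 := slitPlane_ne_zero h1
  intro h0
  apply h2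
  have h3 := exp_c σ
  have h4 : (Real.exp (-2 * σ) : ℂ) * ((Real.exp (2 * σ) : ℂ) + W ^ 2) =
      1 + W ^ 2 * (Real.exp (-2 * σ) : ℂ) := by linear_combination h3
  rw [← h4, h0, mul_zero]

theorem den_lb {W : ℂ} (hW : W ∈ Hp) (x : ℝ) : W.re ^ 2 ≤ ‖((x ^ 2 : ℝ) : ℂ) + W ^ 2‖ := by
  have hW' : 0 < W.re := hW
  have e : ((x ^ 2 : ℝ) : ℂ) + W ^ 2 = (W - I * x) * (W + I * x) := by
    have : I ^ 2 = -1 := I_sq
    push_cast
    linear_combination ((x : ℂ) ^ 2) * this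
  rw [e, norm_mul, pow_two]
  have h1 : W.re ≤ ‖W - I * x‖ := by
    refine le_trans ?_ (re_le_norm _)
    simp
  have h2 : W.re ≤ ‖W + I * x‖ := by
    refine le_trans ?_ (re_le_norm _)
    simp
  exact mul_le_mul h1 h2 hW'.le (norm_nonneg _)

theorem bd_ker {W : ℂ} (hW : W ∈ Hp) (σ : ℝ) :
    ‖(Real.exp (2 * σ) : ℂ) / ((Real.exp (2 * σ) : ℂ) + W ^ 2)‖ ≤
      2 + 4 * ‖W‖ ^ 2 / W.re ^ 2 := by
  have hW' : 0 < W.re := hW
  set x := Real.exp σ with hx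
  have hx0 : 0 < x := Real.exp_pos σ
  have e : Real.exp (2 * σ) = x ^ 2 := by
    rw [hx, ← Real.exp_nat_mul]
    norm_num
  rw [e, norm_div, norm_real, Real.norm_eq_abs, abs_of_nonneg (sq_nonneg x)]
  have hlb := den_lb hW x
  have hpos : 0 < ‖((x ^ 2 : ℝ) : ℂ) + W ^ 2‖ := lt_of_lt_of_le (by positivity) hlb
  have hnn : 0 ≤ 4 * ‖W‖ ^ 2 / W.re ^ 2 := by positivity
  rcases le_total (2 * ‖W‖) x with h | h
  · have h1 : x ^ 2 - ‖W‖ ^ 2 ≤ ‖((x ^ 2 : ℝ) : ℂ) + W ^ 2‖ := by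
      have h2 := norm_sub_norm_le (((x ^ 2 : ℝ) : ℂ)) (-W ^ 2)
      rw [sub_neg_eq_add] at h2
      have h3 : ‖((x ^ 2 : ℝ) : ℂ)‖ = x ^ 2 := by
        rw [norm_real, Real.norm_eq_abs, abs_of_nonneg (sq_nonneg x)]
      have h4 : ‖(-W ^ 2 : ℂ)‖ = ‖W‖ ^ 2 := by rw [norm_neg, norm_pow]
      rw [h3, h4] at h2
      exact h2
    have h5 : (2 * ‖W‖) ^ 2 ≤ x ^ 2 := pow_le_pow_left₀ (by positivity) h 2
    have h6 : x ^ 2 ≤ 2 * ‖((x ^ 2 : ℝ) : ℂ) + W ^ 2‖ := by nlinarith [sq_nonneg ‖W‖]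
    have h7 : x ^ 2 / ‖((x ^ 2 : ℝ) : ℂ) + W ^ 2‖ ≤ 2 := by
      rw [div_le_iff₀ hpos]
      exact h6
    linarith
  · have h5 : x ^ 2 ≤ (2 * ‖W‖) ^ 2 := pow_le_pow_left₀ hx0.le h 2
    have h7 : x ^ 2 / ‖((x ^ 2 : ℝ) : ℂ) + W ^ 2‖ ≤ 4 * ‖W‖ ^ 2 / W.re ^ 2 := by
      rw [div_le_div_iff₀ hpos (by positivity)]
      calc x ^ 2 * W.re ^ 2 ≤ (2 * ‖W‖) ^ 2 * W.re ^ 2 :=
            mul_le_mul_of_nonneg_right h5 (sq_nonneg _)
        _ = 4 * ‖W‖ ^ 2 * W.re ^ 2 := by ring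
        _ ≤ 4 * ‖W‖ ^ 2 * ‖((x ^ 2 : ℝ) : ℂ) + W ^ 2‖ :=
            mul_le_mul_of_nonneg_left hlb (by positivity)
    linarith

/-! ### Integration by parts -/

theorem der_f {v : ℝ → ℝ} {c : ℝ} (h : Dec v c) {W : ℂ} (hW : W ∈ Hp) (σ : ℝ) :
    HasDerivAt (fun x : ℝ => (v x : ℂ) * ((Real.exp (2 * x) : ℂ) * Lg W x))
      ((uu v σ : ℂ) * ((Real.exp (2 * σ) : ℂ) * Lg W σ) +
        -2 * W ^ 2 * ((v σ : ℂ) *
          ((Real.exp (2 * σ) : ℂ) / ((Real.exp (2 * σ) : ℂ) + W ^ 2)))) σ := by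
  have hv : HasDerivAt (fun x : ℝ => (v x : ℂ)) ((deriv v σ : ℝ) : ℂ) σ :=
    ((h.1.differentiable one_ne_zero) σ).hasDerivAt.ofReal_comp
  have he : HasDerivAt (fun x : ℝ => (Real.exp (2 * x) : ℂ)) (((Real.exp (2 * σ) * 2 : ℝ)) : ℂ) σ := by
    have h1 : HasDerivAt (fun x : ℝ => Real.exp (2 * x)) (Real.exp (2 * σ) * 2) σ := by
      have := ((hasDerivAt_id σ).const_mul 2).exp
      simpa using this
    exact h1.ofReal_comp
  have hm : HasDerivAt (fun x : ℝ => (Real.exp (-2 * x) : ℂ)) (((Real.exp (-2 * σ) * (-2) : ℝ)) : ℂ) σ := by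
    have h1 : HasDerivAt (fun x : ℝ => Real.exp (-2 * x)) (Real.exp (-2 * σ) * (-2)) σ := by
      have := ((hasDerivAt_id σ).const_mul (-2)).exp
      simpa using this
    exact h1.ofReal_comp
  have hL : HasDerivAt (Lg W) (W ^ 2 * (((Real.exp (-2 * σ) * (-2) : ℝ)) : ℂ) /
      (1 + W ^ 2 * (Real.exp (-2 * σ) : ℂ))) σ := by
    unfold Lg
    exact ((hm.const_mul (W ^ 2)).const_add 1).clog_real
      (one_slit (sq_slit hW (Real.exp_pos _)))
  refine (hv.mul (he.mul hL)).congr_deriv ?_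
  have h1 := slitPlane_ne_zero (one_slit (sq_slit hW (Real.exp_pos (-2 * σ))))
  have h2 := den_ne hW σ
  have h3 := exp_c σ
  have h4 : (Real.exp (2 * σ) : ℂ) * (W ^ 2 * (((Real.exp (-2 * σ) * (-2) : ℝ)) : ℂ) /
      (1 + W ^ 2 * (Real.exp (-2 * σ) : ℂ))) =
      -2 * W ^ 2 * ((Real.exp (2 * σ) : ℂ) / ((Real.exp (2 * σ) : ℂ) + W ^ 2)) := by
    rw [mul_div_assoc', mul_div_assoc', div_eq_div_iff h1 h2]
    rw [ofReal_mul]
    push_cast [-ofReal_exp]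
    linear_combination (-2 * W ^ 2 * (Real.exp (2 * σ) : ℂ) ) * h3
  unfold uu
  rw [ofReal_add, ofReal_mul, ofReal_mul]
  simp only [Pi.mul_apply]
  push_cast [-ofReal_exp] at h4 ⊢
  linear_combination (v σ : ℂ) * h4

theorem int_t1 {v : ℝ → ℝ} {c : ℝ} (h : Dec v c) {W : ℂ} (hW : W ∈ Hp) {C : ℝ}
    (hC : ∀ σ : ℝ, ‖(Real.exp (2 * σ) : ℂ) * Lg W σ‖ ≤ C) :
    Integrable (fun σ : ℝ => (uu v σ : ℂ) * ((Real.exp (2 * σ) : ℂ) * Lg W σ)) :=
  (int_u h).ofReal.mul_bdd (cont_exp2.mul (cont_Lg hW)).aestronglyMeasurable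
    (Eventually.of_forall hC)

theorem int_t2 {v : ℝ → ℝ} {c : ℝ} (h : Dec v c) {W : ℂ} (hW : W ∈ Hp) :
    Integrable (fun σ : ℝ => (v σ : ℂ) *
      ((Real.exp (2 * σ) : ℂ) / ((Real.exp (2 * σ) : ℂ) + W ^ 2))) :=
  (int_v h).ofReal.mul_bdd
    (cont_exp2.div (cont_exp2.add continuous_const) (den_ne hW)).aestronglyMeasurable
    (Eventually.of_forall (bd_ker hW))

theorem parts {v : ℝ → ℝ} {c : ℝ} (h : Dec v c) {W : ℂ} (hW : W ∈ Hp) {C : ℝ}
    (hC : ∀ σ : ℝ, ‖(Real.exp (2 * σ) : ℂ) * Lg W σ‖ ≤ C) :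
    ∫ σ : ℝ, (uu v σ : ℂ) * ((Real.exp (2 * σ) : ℂ) * Lg W σ) =
      2 * W ^ 2 * ∫ σ : ℝ, (v σ : ℂ) *
        ((Real.exp (2 * σ) : ℂ) / ((Real.exp (2 * σ) : ℂ) + W ^ 2)) := by
  have hbd : ∀ σ : ℝ, ‖(v σ : ℂ) * ((Real.exp (2 * σ) : ℂ) * Lg W σ)‖ ≤
      c * C * Real.exp (-|σ|) := by
    intro σ
    have hC0 : 0 ≤ C := (norm_nonneg _).trans (hC σ)
    rw [norm_mul, norm_real, Real.norm_eq_abs]
    calc |v σ| * ‖(Real.exp (2 * σ) : ℂ) * Lg W σ‖ ≤ (c * Real.exp (-|σ|)) * C :=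
          mul_le_mul (h.2 σ).1 (hC σ) (norm_nonneg _)
            (mul_nonneg (c_nonneg h) (Real.exp_pos _).le)
      _ = c * C * Real.exp (-|σ|) := by ring
  have htop : Tendsto (fun x : ℝ => (v x : ℂ) * ((Real.exp (2 * x) : ℂ) * Lg W x)) atTop
      (𝓝 0) := by
    refine squeeze_zero_norm hbd ?_
    have := tend_exp_top.const_mul (c * C)
    rwa [mul_zero] at this
  have hbot : Tendsto (fun x : ℝ => (v x : ℂ) * ((Real.exp (2 * x) : ℂ) * Lg W x)) atBot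
      (𝓝 0) := by
    refine squeeze_zero_norm hbd ?_
    have := tend_exp_bot.const_mul (c * C)
    rwa [mul_zero] at this
  have h1 := int_t1 h hW hC
  have h2 := (int_t2 h hW).const_mul (-2 * W ^ 2)
  have h3 := integral_of_hasDerivAt_of_tendsto (der_f h hW) (h1.add h2) hbot htop
  rw [integral_add h1 h2, integral_const_mul, sub_zero] at h3
  linear_combination h3

/-! ### Fubini -/

theorem int_F1 {v : ℝ → ℝ} {c : ℝ} (h : Dec v c) (hq : Integrable qq) {W : ℂ} (hW : W ∈ Hp)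
    {C : ℝ} (hC : ∀ s : ℝ, ‖EE W s‖ ≤ C) :
    Integrable (Function.uncurry fun s t : ℝ =>
      ((qq t * uu v (s - t) : ℝ) : ℂ) * EE W s) (volume.prod volume) :=
  (int_F0 h hq).ofReal.mul_bdd ((cont_E hW).comp continuous_fst).aestronglyMeasurable
    (Eventually.of_forall fun p => hC p.1)

theorem int_F2 {v : ℝ → ℝ} {c : ℝ} (h : Dec v c) (hq : Integrable qq) {W : ℂ} (hW : W ∈ Hp)
    {C : ℝ} (hC : ∀ s : ℝ, ‖EE W s‖ ≤ C) :
    Integrable (Function.uncurry fun σ t : ℝ =>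
      ((uu v σ : ℂ) * (qq t : ℂ)) * EE W (σ + t)) (volume.prod volume) :=
  (Integrable.mul_prod (int_u h).ofReal hq.ofReal).mul_bdd
    ((cont_E hW).comp (continuous_fst.add continuous_snd)).aestronglyMeasurable
    (Eventually.of_forall fun p => hC (p.1 + p.2))

theorem fub {v : ℝ → ℝ} {c : ℝ} (h : Dec v c) (hq : Integrable qq) {W : ℂ} (hW : W ∈ Hp)
    {C : ℝ} (hC : ∀ s : ℝ, ‖EE W s‖ ≤ C) :
    ∫ s : ℝ, (kap v s : ℂ) * EE W s =
      ((Real.pi⁻¹ : ℝ) : ℂ) * ∫ σ : ℝ, (uu v σ : ℂ) * ∫ t : ℝ, (qq t : ℂ) * EE W (σ + t) := by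
  have e1 : ∀ s : ℝ, (kap v s : ℂ) * EE W s = ((Real.pi⁻¹ : ℝ) : ℂ) *
      ∫ t : ℝ, ((qq t * uu v (s - t) : ℝ) : ℂ) * EE W s := by
    intro s
    have e0 : ∫ a : ℝ, ((qq a * uu v (s - a) : ℝ) : ℂ) =
        ((∫ a : ℝ, qq a * uu v (s - a) : ℝ) : ℂ) := integral_ofReal
    rw [kap_eq, ofReal_mul, integral_mul_const, e0, mul_assoc]
  simp_rw [e1]
  rw [integral_const_mul]
  congr 1
  rw [integral_integral_swap (int_F1 h hq hW hC)]
  have e2 : ∀ t : ℝ, ∫ s : ℝ, ((qq t * uu v (s - t) : ℝ) : ℂ) * EE W s =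
      ∫ σ : ℝ, ((uu v σ : ℂ) * (qq t : ℂ)) * EE W (σ + t) := by
    intro t
    rw [← integral_add_right_eq_self (fun s : ℝ =>
      ((qq t * uu v (s - t) : ℝ) : ℂ) * EE W s) t]
    refine integral_congr_ae (Eventually.of_forall fun σ => ?_)
    show ((qq t * uu v (σ + t - t) : ℝ) : ℂ) * EE W (σ + t) =
      ((uu v σ : ℂ) * (qq t : ℂ)) * EE W (σ + t)
    rw [add_sub_cancel_right, ofReal_mul]
    ring
  simp_rw [e2]
  rw [← integral_integral_swap (int_F2 h hq hW hC)]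
  refine integral_congr_ae (Eventually.of_forall fun σ => ?_)
  show ∫ t : ℝ, ((uu v σ : ℂ) * (qq t : ℂ)) * EE W (σ + t) =
    (uu v σ : ℂ) * ∫ t : ℝ, (qq t : ℂ) * EE W (σ + t)
  rw [← integral_const_mul]
  refine integral_congr_ae (Eventually.of_forall fun t => ?_)
  show ((uu v σ : ℂ) * (qq t : ℂ)) * EE W (σ + t) = (uu v σ : ℂ) * ((qq t : ℂ) * EE W (σ + t))
  ring

end RepX

/-- Item A6. -/
theorem prfRep (hPhiC : PhiC) (hQQ : QQ) (hEBd : EBd) : Rep := by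
  intro v c h
  refine ⟨RepX.cont_kap h hQQ.1 hQQ.2.2.1, RepX.int_kap h hQQ.1, fun W hW => ?_⟩
  obtain ⟨C, hC⟩ := RepX.bd_E hEBd hW
  have h1 := RepX.fub h hQQ.1 hW hC
  simp_rw [RepX.inner hPhiC hW] at h1
  have h2 : ∀ σ : ℝ, (RepX.uu v σ : ℂ) * ((Real.exp (2 * σ) : ℂ) * (-(1 / 2) * RepX.Lg W σ)) =
      -(1 / 2) * ((RepX.uu v σ : ℂ) * ((Real.exp (2 * σ) : ℂ) * RepX.Lg W σ)) := by
    intro σ
    ring
  simp_rw [h2] at h1
  rw [integral_const_mul, RepX.parts h hW (RepX.bd_Lg hPhiC hQQ hW hC)] at h1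
  have h3 : ∫ s : ℝ, 2 * (kap v s : ℂ) * ((Real.exp (2 * s) : ℂ) *
      ((1 + W ^ 2 * (Real.exp (-2 * s) : ℂ)) ^ (-(1 / 2) : ℂ) - 1)) =
      2 * ∫ s : ℝ, (kap v s : ℂ) * RepX.EE W s := by
    rw [← integral_const_mul]
    refine integral_congr_ae (Eventually.of_forall fun s => ?_)
    show 2 * (kap v s : ℂ) * RepX.EE W s = 2 * ((kap v s : ℂ) * RepX.EE W s)
    ring
  rw [h3, h1]
  push_cast [-ofReal_exp]
  ring

end Pool.Agent.MultS.LB
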